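import Pool.Agent.Lib.MP_04668c_co.Draw

/-!
# Counting edges in tight sets; adding vertices to a drawing
-/

set_option autoImplicit false

namespace Pool.Agent.Lib.MP_04668c_co

open Finset Classical

variable {V : Type} [Fintype V]

/-- Ordered pairs of adjacent vertices inside `Q`. -/
noncomputable def pairs (G : SimpleGraph V) (Q : Finset V) : Finset (V × V) :=
  (Q ×ˢ Q).filter (fun p => G.Adj p.1 p.2)

omit [Fintype V] in
theorem mem_pairs (G : SimpleGraph V) (Q : Finset V) (p : V × V) :
    p ∈ pairs G Q ↔ p.1 ∈ Q ∧ p.2 ∈ Q ∧ G.Adj p.1 p.2 := by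
  unfold pairs
  rw [mem_filter, mem_product, and_assoc]

omit [Fintype V] in
theorem pairs_of_nextClosed (r : V → ℕ) (F : SimpleGraph V) (Q : Finset V)
    (hr : Function.Injective r)
    (hQ : NextClosed r F.Adj Q) : 2 * Q.card ≤ (pairs F Q).card + 2 := by
  rcases Q.eq_empty_or_nonempty with rfl | hne
  · simp
  obtain ⟨m, hm, hmax⟩ := Finset.exists_max_image Q r hne
  set U := (pairs F Q).filter (fun p => r p.1 < r p.2)
  set D := (pairs F Q).filter (fun p => r p.2 < r p.1)
  have hU : Q.erase m ⊆ U.image Prod.fst := by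
    intro z hz
    rw [mem_erase] at hz
    have hlt : r z < r m := lt_of_le_of_ne (hmax z hz.2) (fun h => hz.1 (hr h))
    obtain ⟨w, hw, h1, h2⟩ := hQ z hz.2 m hm hlt
    rw [mem_image]
    refine ⟨(z, w), ?_, rfl⟩
    rw [mem_filter, mem_pairs]
    exact ⟨⟨hz.2, hw, h2⟩, by simp only; omega⟩
  have hD : Q.erase m ⊆ D.image Prod.snd := by
    intro z hz
    rw [mem_erase] at hz
    have hlt : r z < r m := lt_of_le_of_ne (hmax z hz.2) (fun h => hz.1 (hr h))
    obtain ⟨w, hw, h1, h2⟩ := hQ z hz.2 m hm hlt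
    rw [mem_image]
    refine ⟨(w, z), ?_, rfl⟩
    rw [mem_filter, mem_pairs]
    exact ⟨⟨hw, hz.2, h2.symm⟩, by simp only; omega⟩
  have hU' := (Finset.card_le_card hU).trans Finset.card_image_le
  have hD' := (Finset.card_le_card hD).trans Finset.card_image_le
  rw [Finset.card_erase_of_mem hm] at hU' hD'
  have hdis : Disjoint U D := by
    rw [Finset.disjoint_left]
    intro p hp hp'
    rw [mem_filter] at hp hp'
    omega
  have hsub : U ∪ D ⊆ pairs F Q := Finset.union_subset (Finset.filter_subset _ _)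
    (Finset.filter_subset _ _)
  have := Finset.card_le_card hsub
  rw [Finset.card_union_of_disjoint hdis] at this
  omega

/-- `G` without the edges meeting `S`. -/
def del (G : SimpleGraph V) (S : Finset V) : SimpleGraph V where
  Adj u v := G.Adj u v ∧ u ∉ S ∧ v ∉ S
  symm := ⟨fun _ _ h => ⟨h.1.symm, h.2.2, h.2.1⟩⟩
  loopless := ⟨fun _ h => G.loopless.irrefl _ h.1⟩

/-- The case without extra vertices. -/
theorem draw_del (G : SimpleGraph V) (S : Finset V) (a b : V → ℕ)
    (ha : Function.Injective a) (hb : Function.Injective b)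
    (hE : ∀ u v, G.Adj u v → u ∉ S → v ∉ S →
      (b v = b u + 1 ∨ b u = b v + 1) ∨ (a v = a u + 1 ∨ a u = a v + 1))
    (q : ℕ) (hq : 1 ≤ q)
    (hQ : ∀ Q : Finset V, Disjoint Q S → q < Q.card → (pairs G Q).card + 6 ≤ 4 * Q.card) :
    Drawable (del G S) (4 * q) := by
  set F₁ : SimpleGraph V :=
    { Adj := fun u v => (G.Adj u v ∧ u ∉ S ∧ v ∉ S) ∧ (b v = b u + 1 ∨ b u = b v + 1)
      symm := ⟨fun u v h => ⟨⟨h.1.1.symm, h.1.2.2, h.1.2.1⟩, h.2.symm⟩⟩
      loopless := ⟨fun u h => G.loopless.irrefl _ h.1.1⟩ } with hF₁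
  set F₂ : SimpleGraph V :=
    { Adj := fun u v => (G.Adj u v ∧ u ∉ S ∧ v ∉ S) ∧ (a v = a u + 1 ∨ a u = a v + 1) ∧
        ¬ (b v = b u + 1 ∨ b u = b v + 1)
      symm := ⟨fun u v h => ⟨⟨h.1.1.symm, h.1.2.2, h.1.2.1⟩, h.2.1.symm, fun h' => h.2.2 h'.symm⟩⟩
      loopless := ⟨fun u h => G.loopless.irrefl _ h.1.1⟩ } with hF₂
  refine draw_two_orders (del G S) F₁ F₂ a b ha hb (fun u v h => h.2) (fun u v h => h.2.1) ?_ q hq
    ?_
  · intro u v h
    by_cases h1 : b v = b u + 1 ∨ b u = b v + 1
    · exact Or.inl ⟨h, h1⟩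
    · right
      refine ⟨h, ?_, h1⟩
      rcases hE u v h.1 h.2.1 h.2.2 with h2 | h2
      · exact absurd h2 h1
      · exact h2
  · intro Q hQ2 hQa hQb
    by_contra hlt
    have hlt : q < Q.card := by omega
    have hdis : Disjoint Q S := by
      rw [Finset.disjoint_left]
      intro z hz
      obtain ⟨z', hz', hne⟩ := Finset.exists_mem_ne (by omega : 1 < Q.card) z
      rcases lt_trichotomy (b z) (b z') with h | h | h
      · obtain ⟨w, hw, h1, h2⟩ := hQb z hz z' hz' h
        exact h2.1.2.1
      · exact absurd (hb h).symm hne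
      · obtain ⟨w, hw, h1⟩ := hQb.exists hz' hz (b z - 1 - b z') (by omega)
        obtain ⟨w', hw', h3, h4⟩ := hQb w hw z hz (by omega)
        have : w' = z := hb (by omega)
        subst this
        exact h4.1.2.2
    have h1 := hQ Q hdis hlt
    have h2 := pairs_of_nextClosed a F₂ Q ha hQa
    have h3 := pairs_of_nextClosed b F₁ Q hb hQb
    have hdj : Disjoint (pairs F₁ Q) (pairs F₂ Q) := by
      rw [Finset.disjoint_left]
      intro p hp hp'
      rw [mem_pairs] at hp hp'
      exact hp'.2.2.2.2 hp.2.2.2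
    have hsub : pairs F₁ Q ∪ pairs F₂ Q ⊆ pairs G Q := by
      intro p hp
      rw [mem_union, mem_pairs, mem_pairs] at hp
      rw [mem_pairs]
      rcases hp with hp | hp
      · exact ⟨hp.1, hp.2.1, hp.2.2.1.1⟩
      · exact ⟨hp.1, hp.2.1, hp.2.2.1.1⟩
    have h4 := Finset.card_le_card hsub
    rw [Finset.card_union_of_disjoint hdj] at h4
    omega

/-- A quadratic (possibly linear) non-zero polynomial has finitely many roots. -/
theorem finite_roots (A B C : ℝ) (h : A ≠ 0 ∨ B ≠ 0) :
    {t : ℝ | A * t ^ 2 + B * t + C = 0}.Finite := by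
  set p : Polynomial ℝ := Polynomial.C A * Polynomial.X ^ 2 + Polynomial.C B * Polynomial.X +
    Polynomial.C C with hp
  have hp0 : p ≠ 0 := by
    intro h0
    have h2 : p.coeff 2 = A := by
      simp [hp, Polynomial.coeff_X, Polynomial.coeff_C]
    have h1 : p.coeff 1 = B := by
      simp [hp, Polynomial.coeff_X, Polynomial.coeff_C, Polynomial.coeff_X_pow]
    rw [h0] at h1 h2
    simp only [Polynomial.coeff_zero] at h1 h2
    rcases h with h | h
    · exact h h2.symm
    · exact h h1.symm
  refine (Polynomial.finite_setOf_isRoot hp0).subset ?_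
  intro t ht
  simp only [Set.mem_setOf_eq] at ht ⊢
  simp only [hp, Polynomial.IsRoot.def, Polynomial.eval_add, Polynomial.eval_mul,
    Polynomial.eval_C, Polynomial.eval_pow, Polynomial.eval_X]
  exact ht

/-- The three points are collinear. -/
def det3 (p q r : ℝ × ℝ) : ℝ := (q.1 - p.1) * (r.2 - p.2) - (q.2 - p.2) * (r.1 - p.1)

theorem det3_seg {p q r : ℝ × ℝ} (h : r ∈ segment ℝ p q) : det3 p q r = 0 := by
  obtain ⟨α, β, _, _, hαβ, rfl⟩ := h
  have : α = 1 - β := by linarith
  subst this
  unfold det3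
  simp only [Prod.fst_add, Prod.smul_fst, Prod.snd_add, Prod.smul_snd, smul_eq_mul]
  ring

theorem det3_seg' {p q r : ℝ × ℝ} (h : r ∈ segment ℝ p q) : det3 q r p = 0 := by
  obtain ⟨α, β, _, _, hαβ, rfl⟩ := h
  have : α = 1 - β := by linarith
  subst this
  unfold det3
  simp only [Prod.fst_add, Prod.smul_fst, Prod.snd_add, Prod.smul_snd, smul_eq_mul]
  ring

theorem exists_generic (P : Finset (ℝ × ℝ)) :
    ∃ z : ℝ × ℝ, z ∉ P ∧ ∀ p ∈ P, ∀ q ∈ P, p ≠ q → det3 p q z ≠ 0 := by
  have hfin : ((⋃ p ∈ P, {t : ℝ | t = p.1}) ∪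
      (⋃ p ∈ P, ⋃ q ∈ P.erase p, {t : ℝ | det3 p q (t, t ^ 2) = 0})).Finite := by
    refine Set.Finite.union ?_ ?_
    · exact Set.Finite.biUnion P.finite_toSet (fun p _ => Set.finite_singleton p.1)
    · refine Set.Finite.biUnion P.finite_toSet (fun p _ => ?_)
      refine Set.Finite.biUnion (P.erase p).finite_toSet (fun q hq => ?_)
      have hne : q ≠ p := (Finset.mem_erase.mp hq).1
      have h := finite_roots (q.1 - p.1) (-(q.2 - p.2))
        ((q.1 - p.1) * (-p.2) - (q.2 - p.2) * (-p.1)) (by
          by_contra hcon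
          push Not at hcon
          apply hne
          refine Prod.ext ?_ ?_
          · linarith [hcon.1]
          · linarith [hcon.2])
      refine h.subset ?_
      intro t ht
      simp only [Set.mem_setOf_eq, det3] at ht ⊢
      linarith
  obtain ⟨t, ht⟩ := hfin.exists_notMem
  simp only [Set.mem_union, Set.mem_iUnion, Set.mem_setOf_eq, not_or, not_exists] at ht
  refine ⟨(t, t ^ 2), ?_, ?_⟩
  · intro hmem
    exact ht.1 _ hmem rfl
  · intro p hp q hq hne h
    exact ht.2 p hp q (Finset.mem_erase.mpr ⟨hne.symm, hq⟩) h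

/-- Adding the edges at one vertex costs at most its degree. -/
theorem add_vertex (G : SimpleGraph V) (s : V) (m d : ℕ)
    (hd : (univ.filter (fun u => G.Adj s u)).card ≤ d) (h : Drawable (del G {s}) m) :
    Drawable G (m + d) := by
  obtain ⟨f, hinj, hseg, S₀, hS₀, hdir⟩ := h
  obtain ⟨z, hz, hzg⟩ := exists_generic (univ.image f)
  set f' : V → ℝ × ℝ := Function.update f s z with hf'
  have hs : f' s = z := by simp [hf']
  have hns : ∀ v, v ≠ s → f' v = f v := fun v hv => by simp [hf', hv]
  have hzf : ∀ v, f v ≠ z := fun v h => hz (by rw [mem_image]; exact ⟨v, mem_univ v, h⟩)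
  have hinj' : Function.Injective f' := by
    intro u v huv
    by_cases hu : u = s
    · by_cases hv : v = s
      · rw [hu, hv]
      · rw [hu, hs, hns v hv] at huv
        exact absurd huv.symm (hzf v)
    · by_cases hv : v = s
      · rw [hv, hs, hns u hu] at huv
        exact absurd huv (hzf u)
      · rw [hns u hu, hns v hv] at huv
        exact hinj huv
  have hgen : ∀ u v, u ≠ v → det3 (f u) (f v) z ≠ 0 := fun u v huv =>
    hzg _ (by simp) _ (by simp) (fun h => huv (hinj h))
  refine ⟨f', hinj', ?_, S₀ ∪ (univ.filter (fun u => G.Adj s u)).image (fun u => f u - z), ?_, ?_⟩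
  · intro u v w hadj hwu hwv hmem
    have huv : u ≠ v := hadj.ne
    by_cases hw : w = s
    · subst hw
      rw [hs, hns u (Ne.symm hwu), hns v (Ne.symm hwv)] at hmem
      exact hgen u v huv (det3_seg hmem)
    · rw [hns w hw] at hmem
      by_cases hu : u = s
      · subst hu
        rw [hs, hns v (Ne.symm huv)] at hmem
        exact hgen v w (Ne.symm hwv) (det3_seg' hmem)
      · by_cases hv : v = s
        · subst hv
          rw [hs, hns u hu, segment_symm] at hmem
          exact hgen u w (Ne.symm hwu) (det3_seg' hmem)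
        · rw [hns u hu, hns v hv] at hmem
          exact hseg u v w ⟨hadj, by simpa using hu, by simpa using hv⟩ hwu hwv hmem
  · exact (Finset.card_union_le _ _).trans
      (Nat.add_le_add hS₀ (Finset.card_image_le.trans hd))
  · intro u v hadj
    by_cases hu : u = s
    · subst hu
      refine ⟨f v - z, ?_, 1, ?_⟩
      · rw [mem_union]; right
        rw [mem_image]
        exact ⟨v, by simp [hadj], rfl⟩
      · rw [hs, hns v hadj.ne.symm, one_smul]
    · by_cases hv : v = s
      · subst hv
        refine ⟨f u - z, ?_, -1, ?_⟩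
        · rw [mem_union]; right
          rw [mem_image]
          exact ⟨u, by simp [hadj.symm], rfl⟩
        · rw [hs, hns u hu, neg_smul, one_smul, neg_sub]
      · obtain ⟨d', hd', t, ht⟩ := hdir u v ⟨hadj, by simpa using hu, by simpa using hv⟩
        refine ⟨d', mem_union_left _ hd', t, ?_⟩
        rw [hns u hu, hns v hv, ht]

/-- Adding the edges at several vertices. -/
theorem add_vertices (G : SimpleGraph V) (m d : ℕ)
    (hd : ∀ s, (univ.filter (fun u => G.Adj s u)).card ≤ d) (S : Finset V)
    (h : Drawable (del G S) m) : Drawable G (m + d * S.card) := by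
  induction S using Finset.induction_on generalizing m with
  | empty =>
    have : del G ∅ = G := by
      ext u v; simp [del]
    rw [this] at h
    simpa using h
  | insert s S hs ih =>
    have h1 : del (del G S) {s} = del G (insert s S) := by
      ext u v
      simp only [del, Finset.mem_singleton, Finset.mem_insert, not_or]
      tauto
    have h2 : Drawable (del G S) (m + d) := by
      refine add_vertex (del G S) s m d ?_ (by rw [h1]; exact h)
      refine (Finset.card_le_card ?_).trans (hd s)
      intro u hu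
      simp only [mem_filter, mem_univ, true_and] at hu ⊢
      exact hu.1
    have h3 := ih (m + d) h2
    rw [Finset.card_insert_of_notMem hs, Nat.mul_add, mul_one]
    have : m + (d * S.card + d) = m + d + d * S.card := by ring
    rw [this]
    exact h3

theorem Drawable.mono {G : SimpleGraph V} {m m' : ℕ} (h : Drawable G m) (hm : m ≤ m') :
    Drawable G m' := by
  obtain ⟨f, h1, h2, S, hS, h3⟩ := h
  exact ⟨f, h1, h2, S, hS.trans hm, h3⟩

end Pool.Agent.Lib.MP_04668c_co
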