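import Mathlib

/-!
# The number of connected sets containing a given point
-/

set_option autoImplicit false

namespace Pool.Agent.Lib.MP_04668c_co

open Finset Classical

variable {X : Type} [Fintype X]

/-- `K` is connected for the relation `adj`. -/
def Conn (adj : X → X → Prop) (K : Finset X) : Prop :=
  ∀ Y ⊆ K, Y.Nonempty → Y ≠ K → ∃ y ∈ Y, ∃ z ∈ K, z ∉ Y ∧ adj y z

/-- The outer boundary. -/
noncomputable def bd (adj : X → X → Prop) (K : Finset X) : Finset X :=
  univ.filter (fun y => y ∉ K ∧ ∃ z ∈ K, adj z y)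

theorem bd_card (adj : X → X → Prop) (δ : ℕ)
    (hadj : ∀ x, (univ.filter (fun y => adj x y)).card ≤ δ) (K : Finset X) :
    (bd adj K).card ≤ δ * K.card := by
  have h : bd adj K ⊆ K.biUnion (fun x => univ.filter (fun y => adj x y)) := by
    intro y hy
    rw [bd, mem_filter] at hy
    obtain ⟨-, -, z, hz, hzy⟩ := hy
    rw [mem_biUnion]
    exact ⟨z, hz, by rw [mem_filter]; exact ⟨mem_univ _, hzy⟩⟩
  refine (Finset.card_le_card h).trans ?_
  rw [mul_comm]
  exact Finset.card_biUnion_le_card_mul _ _ _ (fun x _ => hadj x)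

theorem sum_conn (adj : X → X → Prop) (δ : ℕ)
    (hadj : ∀ x, (univ.filter (fun y => adj x y)).card ≤ δ) (x : X) :
    ∑ K ∈ univ.filter (fun K : Finset X => x ∈ K ∧ Conn adj K),
      (1 / 2 : ℝ) ^ ((1 + δ) * K.card) ≤ 1 := by
  set 𝒦 : Finset (Finset X) := univ.filter (fun K : Finset X => x ∈ K ∧ Conn adj K) with h𝒦
  set I : Finset X → Finset (Finset X) := fun K => Finset.Icc K (bd adj K)ᶜ with hI
  have hdisj : (↑𝒦 : Set (Finset X)).PairwiseDisjoint I := by
    have key : ∀ K ∈ 𝒦, ∀ K' ∈ 𝒦, ∀ A, A ∈ I K → A ∈ I K' → K ⊆ K' := by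
      intro K hK K' hK' A hA hA'
      rw [h𝒦, mem_filter] at hK hK'
      rw [hI] at hA hA'
      simp only [Finset.mem_Icc] at hA hA'
      by_contra hne
      have hY : K ∩ K' ≠ K := fun h => hne (Finset.inter_eq_left.mp h)
      obtain ⟨y, hy, z, hz, hzY, hyz⟩ := hK.2.2 (K ∩ K') Finset.inter_subset_left
        ⟨x, Finset.mem_inter.mpr ⟨hK.2.1, hK'.2.1⟩⟩ hY
      have hzK' : z ∉ K' := fun h => hzY (Finset.mem_inter.mpr ⟨hz, h⟩)
      have hzA : z ∈ A := hA.1 hz
      have := hA'.2 hzA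
      rw [Finset.mem_compl, bd, mem_filter] at this
      exact this ⟨mem_univ _, hzK', y, (Finset.mem_inter.mp hy).2, hyz⟩
    intro K hK K' hK' hne
    rw [Function.onFun, Finset.disjoint_left]
    intro A hA hA'
    exact hne (Finset.Subset.antisymm (key K hK K' hK' A hA hA') (key K' hK' K hK A hA' hA))
  have hcard : ∀ K ∈ 𝒦, ((1 / 2 : ℝ) ^ ((1 + δ) * K.card)) * 2 ^ Fintype.card X ≤
      ((I K).card : ℝ) := by
    intro K _
    have hsub : K ⊆ (bd adj K)ᶜ := by
      intro y hy
      rw [Finset.mem_compl, bd, mem_filter]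
      exact fun h => h.2.1 hy
    have h1 : (I K).card = 2 ^ ((bd adj K)ᶜ.card - K.card) := Finset.card_Icc_finset hsub
    have h2 := bd_card adj δ hadj K
    have h3 := Finset.card_le_card hsub
    rw [Finset.card_compl] at h1 h3
    have h4 : (bd adj K).card ≤ Fintype.card X := Finset.card_le_univ _
    rw [h1]
    push_cast
    rw [one_div, inv_pow, ← div_eq_inv_mul, div_le_iff₀ (by positivity), ← pow_add]
    refine pow_le_pow_right₀ (by norm_num) ?_
    have h5 : (1 + δ) * K.card = K.card + δ * K.card := by ring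
    omega
  have hsum : ∑ K ∈ 𝒦, ((I K).card : ℝ) ≤ 2 ^ Fintype.card X := by
    have h1 : (𝒦.biUnion I).card = ∑ K ∈ 𝒦, (I K).card := Finset.card_biUnion hdisj
    have h2 : (𝒦.biUnion I).card ≤ 2 ^ Fintype.card X := by
      refine (Finset.card_le_univ _).trans ?_
      rw [Fintype.card_finset]
    rw [h1] at h2
    exact_mod_cast h2
  have h1 : (∑ K ∈ 𝒦, (1 / 2 : ℝ) ^ ((1 + δ) * K.card)) * 2 ^ Fintype.card X ≤
      1 * 2 ^ Fintype.card X := by
    rw [Finset.sum_mul, one_mul]
    exact (Finset.sum_le_sum hcard).trans hsum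
  exact le_of_mul_le_mul_right h1 (by positivity)

end Pool.Agent.Lib.MP_04668c_co
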