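import Mathlib

/-!
# Monotone drawings of unions of two paths

Given two rankings `a`, `b` of a finite set `V`, we find gap lengths for both rankings such that
every gap between two consecutive vertices that is *constrained* is `δ` times the difference of
the other coordinates.
-/

set_option autoImplicit false

namespace Pool.Agent.Lib.MP_04668c_co

open Finset Classical

variable {V : Type} [Fintype V]

/-- Sum of the gaps of the vertices of smaller rank. -/
noncomputable def coord (r : V → ℕ) (g : V → ℝ) (v : V) : ℝ :=
  ∑ u ∈ univ.filter (fun u => r u < r v), g u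

theorem coord_sub (r : V → ℕ) (g : V → ℝ) {v w : V} (h : r v ≤ r w) :
    coord r g w - coord r g v = ∑ u ∈ univ.filter (fun u => r v ≤ r u ∧ r u < r w), g u := by
  unfold coord
  rw [sub_eq_iff_eq_add, ← Finset.sum_union]
  · congr 1
    ext u
    simp only [mem_filter, mem_univ, true_and, mem_union]
    omega
  · rw [Finset.disjoint_left]
    intro u hu hu'
    simp only [mem_filter, mem_univ, true_and] at hu hu'
    omega

theorem coord_dist (r : V → ℕ) (g g' : V → ℝ) (v : V) :
    |coord r g v - coord r g' v| ≤ (Fintype.card V : ℝ) * dist g g' := by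
  unfold coord
  rw [← Finset.sum_sub_distrib]
  refine (Finset.abs_sum_le_sum_abs _ _).trans ?_
  have h1 : ∀ u ∈ univ.filter (fun u => r u < r v), |g u - g' u| ≤ dist g g' := by
    intro u _
    have := dist_le_pi_dist g g' u
    rwa [Real.dist_eq] at this
  refine (Finset.sum_le_card_nsmul _ _ _ h1).trans ?_
  rw [nsmul_eq_mul]
  refine mul_le_mul_of_nonneg_right ?_ dist_nonneg
  exact_mod_cast (Finset.card_le_univ _)

/-- One step of the iteration. -/
noncomputable def stepMap (a b : V → ℕ) (CV CH : V → V → Prop) (δ : ℝ)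
    (z : (V → ℝ) × (V → ℝ)) : (V → ℝ) × (V → ℝ) :=
  (fun v => if h : ∃ w, a w = a v + 1 ∧ CV v w then
      δ * |coord b z.2 v - coord b z.2 (Classical.choose h)| else 1,
   fun v => if h : ∃ w, b w = b v + 1 ∧ CH v w then
      δ * |coord a z.1 v - coord a z.1 (Classical.choose h)| else 1)

theorem step_aux (r : V → ℕ) (g g' : V → ℝ) (v w : V) (δ : ℝ) (hδ : 0 ≤ δ) :
    abs (δ * |coord r g v - coord r g w| - δ * |coord r g' v - coord r g' w|) ≤
      δ * (2 * ((Fintype.card V : ℝ) * dist g g')) := by
  rw [← mul_sub, abs_mul, abs_of_nonneg hδ]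
  refine mul_le_mul_of_nonneg_left ?_ hδ
  refine (abs_abs_sub_abs_le_abs_sub _ _).trans ?_
  have h1 := coord_dist r g g' v
  have h2 := coord_dist r g g' w
  calc |coord r g v - coord r g w - (coord r g' v - coord r g' w)|
      = |(coord r g v - coord r g' v) - (coord r g w - coord r g' w)| := by ring_nf
    _ ≤ |coord r g v - coord r g' v| + |coord r g w - coord r g' w| := abs_sub _ _
    _ ≤ _ := by linarith

/-- The existence of gaps. -/
theorem exists_gaps (a b : V → ℕ) (CV CH : V → V → Prop)
    (ha : Function.Injective a) (hb : Function.Injective b) (δ : ℝ) (hδ : 0 < δ)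
    (hδ' : δ * (2 * (Fintype.card V : ℝ)) ≤ 1 / 2) :
    ∃ ξ η : V → ℝ,
      (∀ v w, a w = a v + 1 → CV v w → ξ v = δ * |coord b η v - coord b η w|) ∧
      (∀ v, (¬ ∃ w, a w = a v + 1 ∧ CV v w) → ξ v = 1) ∧
      (∀ v w, b w = b v + 1 → CH v w → η v = δ * |coord a ξ v - coord a ξ w|) ∧
      (∀ v, (¬ ∃ w, b w = b v + 1 ∧ CH v w) → η v = 1) := by
  have hlip : LipschitzWith (1/2 : NNReal) (stepMap a b CV CH δ) := by
    refine LipschitzWith.of_dist_le_mul ?_
    intro z z'
    rw [Prod.dist_eq]
    have hD : (0:ℝ) ≤ ((1/2 : NNReal) : ℝ) * dist z z' := by positivity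
    have h2 : dist z.2 z'.2 ≤ dist z z' := by rw [Prod.dist_eq]; exact le_max_right _ _
    have h1 : dist z.1 z'.1 ≤ dist z z' := by rw [Prod.dist_eq]; exact le_max_left _ _
    have key : ∀ t : ℝ, 0 ≤ t → t ≤ dist z z' →
        δ * (2 * ((Fintype.card V : ℝ) * t)) ≤ ((1/2 : NNReal) : ℝ) * dist z z' := by
      intro t ht0 ht
      have : δ * (2 * ((Fintype.card V : ℝ) * t)) = (δ * (2 * (Fintype.card V : ℝ))) * t := by ring
      rw [this]
      have e : ((1/2 : NNReal) : ℝ) = 1/2 := by norm_num
      rw [e]
      exact mul_le_mul hδ' ht ht0 (by norm_num)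
    refine max_le ?_ ?_
    · rw [dist_pi_le_iff hD]
      intro v
      rw [Real.dist_eq]
      unfold stepMap
      by_cases h : ∃ w, a w = a v + 1 ∧ CV v w
      · simp only [h, dif_pos]
        exact (step_aux b z.2 z'.2 v _ δ hδ.le).trans (key _ dist_nonneg h2)
      · simp only [h, dif_neg, not_false_eq_true]
        simp
    · rw [dist_pi_le_iff hD]
      intro v
      rw [Real.dist_eq]
      unfold stepMap
      by_cases h : ∃ w, b w = b v + 1 ∧ CH v w
      · simp only [h, dif_pos]
        exact (step_aux a z.1 z'.1 v _ δ hδ.le).trans (key _ dist_nonneg h1)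
      · simp only [h, dif_neg, not_false_eq_true]
        simp
  have hc : ContractingWith (1/2 : NNReal) (stepMap a b CV CH δ) :=
    ⟨by rw [← NNReal.coe_lt_coe]; norm_num, hlip⟩
  set z := hc.fixedPoint with hz
  have hfix : stepMap a b CV CH δ z = z := hc.fixedPoint_isFixedPt
  refine ⟨z.1, z.2, ?_, ?_, ?_, ?_⟩
  · intro v w hw hC
    have h : ∃ w, a w = a v + 1 ∧ CV v w := ⟨w, hw, hC⟩
    have e : z.1 v = (stepMap a b CV CH δ z).1 v := by rw [hfix]
    rw [e]
    unfold stepMap
    simp only [h, dif_pos]
    have hch := Classical.choose_spec h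
    have : Classical.choose h = w := ha (by rw [hch.1, hw])
    rw [this]
  · intro v h
    have e : z.1 v = (stepMap a b CV CH δ z).1 v := by rw [hfix]
    rw [e]
    unfold stepMap
    simp only [h, dif_neg, not_false_eq_true]
  · intro v w hw hC
    have h : ∃ w, b w = b v + 1 ∧ CH v w := ⟨w, hw, hC⟩
    have e : z.2 v = (stepMap a b CV CH δ z).2 v := by rw [hfix]
    rw [e]
    unfold stepMap
    simp only [h, dif_pos]
    have hch := Classical.choose_spec h
    have : Classical.choose h = w := hb (by rw [hch.1, hw])
    rw [this]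
  · intro v h
    have e : z.2 v = (stepMap a b CV CH δ z).2 v := by rw [hfix]
    rw [e]
    unfold stepMap
    simp only [h, dif_neg, not_false_eq_true]

/-- `Q` is closed under taking the next vertex, below any other vertex of `Q`. -/
def NextClosed (r : V → ℕ) (C : V → V → Prop) (Q : Finset V) : Prop :=
  ∀ z ∈ Q, ∀ z' ∈ Q, r z < r z' → ∃ w ∈ Q, r w = r z + 1 ∧ C z w

/-- Positivity of the gaps. -/
theorem gaps_pos (a b : V → ℕ) (CV CH : V → V → Prop)
    (ha : Function.Injective a) (hb : Function.Injective b) (δ : ℝ) (hδ : 0 < δ) (ξ η : V → ℝ)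
    (h1 : ∀ v w, a w = a v + 1 → CV v w → ξ v = δ * |coord b η v - coord b η w|)
    (h2 : ∀ v, (¬ ∃ w, a w = a v + 1 ∧ CV v w) → ξ v = 1)
    (h3 : ∀ v w, b w = b v + 1 → CH v w → η v = δ * |coord a ξ v - coord a ξ w|)
    (h4 : ∀ v, (¬ ∃ w, b w = b v + 1 ∧ CH v w) → η v = 1)
    (hQ : ∀ Q : Finset V, 2 ≤ Q.card → NextClosed a CV Q → NextClosed b CH Q → False) :
    (∀ v, 0 < ξ v) ∧ (∀ v, 0 < η v) := by
  have hξ : ∀ v, 0 ≤ ξ v := by
    intro v
    by_cases h : ∃ w, a w = a v + 1 ∧ CV v w
    · obtain ⟨w, hw, hC⟩ := h
      rw [h1 v w hw hC]; positivity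
    · rw [h2 v h]; norm_num
  have hη : ∀ v, 0 ≤ η v := by
    intro v
    by_cases h : ∃ w, b w = b v + 1 ∧ CH v w
    · obtain ⟨w, hw, hC⟩ := h
      rw [h3 v w hw hC]; positivity
    · rw [h4 v h]; norm_num
  -- gap at `z` vanishes if the coordinate does not increase up to a vertex of larger rank
  have van : ∀ (r : V → ℕ) (g : V → ℝ), (∀ v, 0 ≤ g v) → ∀ z z', r z < r z' →
      coord r g z = coord r g z' → g z = 0 := by
    intro r g hg z z' hzz h
    have := coord_sub r g hzz.le
    rw [h, sub_self] at this
    have hle : g z ≤ ∑ u ∈ univ.filter (fun u => r z ≤ r u ∧ r u < r z'), g u := by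
      refine Finset.single_le_sum (f := g) (fun u _ => hg u) ?_
      simp [hzz]
    rw [← this] at hle
    exact le_antisymm hle (hg z)
  -- the next vertex has the same coordinate if the gap vanishes
  have nxt : ∀ (r : V → ℕ) (g : V → ℝ), ∀ z w, r w = r z + 1 → g z = 0 →
      (∀ u, r u = r z → g u = 0) → coord r g w = coord r g z := by
    intro r g z w hw hg0 hu
    have := coord_sub r g (v := z) (w := w) (by omega)
    rw [← sub_eq_zero, this]
    refine Finset.sum_eq_zero ?_
    intro u hu'
    simp only [mem_filter, mem_univ, true_and] at hu'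
    exact hu u (by omega)
  have key : ∀ p q : ℝ, (univ.filter (fun u => coord a ξ u = p ∧ coord b η u = q)).card ≤ 1 := by
    intro p q
    by_contra hcard
    have hcard : 2 ≤ (univ.filter (fun u => coord a ξ u = p ∧ coord b η u = q)).card := by omega
    refine hQ _ hcard ?_ ?_
    · intro z hz z' hz' hlt
      simp only [mem_filter, mem_univ, true_and] at hz hz'
      have hz0 : ξ z = 0 := van a ξ hξ z z' hlt (by rw [hz.1, hz'.1])
      have hex : ∃ w, a w = a z + 1 ∧ CV z w := by
        by_contra hne
        rw [h2 z hne] at hz0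
        norm_num at hz0
      obtain ⟨w, hw, hC⟩ := hex
      have hY : coord b η z = coord b η w := by
        have := h1 z w hw hC
        rw [hz0] at this
        have h5 : |coord b η z - coord b η w| = 0 := by
          rcases mul_eq_zero.mp this.symm with h6 | h6
          · exact absurd h6 hδ.ne'
          · exact h6
        exact sub_eq_zero.mp (abs_eq_zero.mp h5)
      have hX : coord a ξ w = coord a ξ z := by
        refine nxt a ξ z w hw hz0 ?_
        intro u hu
        refine van a ξ hξ u z' (by omega) ?_
        have : coord a ξ u = coord a ξ z := by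
          unfold coord; rw [hu]
        rw [this, hz.1, hz'.1]
      refine ⟨w, ?_, hw, hC⟩
      simp only [mem_filter, mem_univ, true_and]
      exact ⟨by rw [hX, hz.1], by rw [← hY, hz.2]⟩
    · intro z hz z' hz' hlt
      simp only [mem_filter, mem_univ, true_and] at hz hz'
      have hz0 : η z = 0 := van b η hη z z' hlt (by rw [hz.2, hz'.2])
      have hex : ∃ w, b w = b z + 1 ∧ CH z w := by
        by_contra hne
        rw [h4 z hne] at hz0
        norm_num at hz0
      obtain ⟨w, hw, hC⟩ := hex
      have hX : coord a ξ z = coord a ξ w := by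
        have := h3 z w hw hC
        rw [hz0] at this
        have h5 : |coord a ξ z - coord a ξ w| = 0 := by
          rcases mul_eq_zero.mp this.symm with h6 | h6
          · exact absurd h6 hδ.ne'
          · exact h6
        exact sub_eq_zero.mp (abs_eq_zero.mp h5)
      have hY : coord b η w = coord b η z := by
        refine nxt b η z w hw hz0 ?_
        intro u hu
        refine van b η hη u z' (by omega) ?_
        have : coord b η u = coord b η z := by
          unfold coord; rw [hu]
        rw [this, hz.2, hz'.2]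
      refine ⟨w, ?_, hw, hC⟩
      simp only [mem_filter, mem_univ, true_and]
      exact ⟨by rw [← hX, hz.1], by rw [hY, hz.2]⟩
  have fin : ∀ v w : V, v ≠ w → coord a ξ v = coord a ξ w → coord b η v = coord b η w → False := by
    intro v w hvw hx hy
    have hsub : ({v, w} : Finset V) ⊆
        univ.filter (fun u => coord a ξ u = coord a ξ v ∧ coord b η u = coord b η v) := by
      intro u hu
      simp only [mem_insert, mem_singleton] at hu
      simp only [mem_filter, mem_univ, true_and]
      rcases hu with rfl | rfl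
      · exact ⟨rfl, rfl⟩
      · exact ⟨hx.symm, hy.symm⟩
    have := (Finset.card_le_card hsub).trans (key _ _)
    rw [Finset.card_pair hvw] at this
    omega
  refine ⟨fun v => lt_of_le_of_ne (hξ v) fun h0 => ?_,
    fun v => lt_of_le_of_ne (hη v) fun h0 => ?_⟩
  · have hex : ∃ w, a w = a v + 1 ∧ CV v w := by
      by_contra hne
      rw [h2 v hne] at h0
      norm_num at h0
    obtain ⟨w, hw, hC⟩ := hex
    have hY : coord b η v = coord b η w := by
      have := h1 v w hw hC
      rw [← h0] at this
      have h5 : |coord b η v - coord b η w| = 0 := by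
        rcases mul_eq_zero.mp this.symm with h6 | h6
        · exact absurd h6 hδ.ne'
        · exact h6
      exact sub_eq_zero.mp (abs_eq_zero.mp h5)
    have hX : coord a ξ w = coord a ξ v := by
      refine nxt a ξ v w hw h0.symm ?_
      intro u hu
      rw [ha hu]; exact h0.symm
    refine fin v w ?_ hX.symm hY
    rintro rfl; omega
  · have hex : ∃ w, b w = b v + 1 ∧ CH v w := by
      by_contra hne
      rw [h4 v hne] at h0
      norm_num at h0
    obtain ⟨w, hw, hC⟩ := hex
    have hX : coord a ξ v = coord a ξ w := by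
      have := h3 v w hw hC
      rw [← h0] at this
      have h5 : |coord a ξ v - coord a ξ w| = 0 := by
        rcases mul_eq_zero.mp this.symm with h6 | h6
        · exact absurd h6 hδ.ne'
        · exact h6
      exact sub_eq_zero.mp (abs_eq_zero.mp h5)
    have hY : coord b η w = coord b η v := by
      refine nxt b η v w hw h0.symm ?_
      intro u hu
      rw [hb hu]; exact h0.symm
    refine fin v w ?_ hX hY.symm
    rintro rfl; omega

end Pool.Agent.Lib.MP_04668c_co
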