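import Pool.Agent.Lib.MP_04668c_co.Shape

/-!
# Covering the edges by bodies
-/

set_option autoImplicit false
set_option linter.unusedSectionVars false

namespace Pool.Agent.Lib.MP_04668c_co

open Finset Classical

variable {V : Type} [Fintype V]

/-- The cost of a family of bodies. -/
def cost (L : ℕ) (𝓑 : Finset (Finset V)) : ℕ := ∑ B ∈ 𝓑, (L * (2 * B.card - 3) + 1)

theorem cost_eq (L : ℕ) (𝓑 : Finset (Finset V)) :
    cost L 𝓑 = L * (∑ B ∈ 𝓑, (2 * B.card - 3)) + 𝓑.card := by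
  unfold cost
  rw [Finset.sum_add_distrib, Finset.mul_sum, Finset.card_eq_sum_ones]

/-- The family covers the edges. -/
def IsCover (G : SimpleGraph V) (𝓑 : Finset (Finset V)) : Prop :=
  (∀ B ∈ 𝓑, 2 ≤ B.card) ∧ ∀ u v, G.Adj u v → ∃ B ∈ 𝓑, u ∈ B ∧ v ∈ B

/-- A family of minimal cost. -/
def IsMinCover (G : SimpleGraph V) (L : ℕ) (𝓑 : Finset (Finset V)) : Prop :=
  IsCover G 𝓑 ∧ ∀ 𝓑', IsCover G 𝓑' → cost L 𝓑 ≤ cost L 𝓑'

theorem exists_minCover (G : SimpleGraph V) (L : ℕ) : ∃ 𝓑, IsMinCover G L 𝓑 := by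
  obtain ⟨𝓑, h𝓑, hmin⟩ := Finset.exists_min_image
    (univ.filter (fun 𝓑 : Finset (Finset V) => IsCover G 𝓑)) (cost L)
    ⟨univ.filter (fun B : Finset V => 2 ≤ B.card), by
      rw [mem_filter]
      refine ⟨mem_univ _, fun B hB => (mem_filter.mp hB).2, fun u v huv => ?_⟩
      refine ⟨{u, v}, ?_, by simp, by simp⟩
      rw [mem_filter]
      exact ⟨mem_univ _, by rw [Finset.card_pair huv.ne]⟩⟩
  rw [mem_filter] at h𝓑
  exact ⟨𝓑, h𝓑.2, fun 𝓑' h' => hmin 𝓑' (by rw [mem_filter]; exact ⟨mem_univ _, h'⟩)⟩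

theorem cost_union_le (L : ℕ) (𝓐 𝓑 : Finset (Finset V)) :
    cost L (𝓐 ∪ 𝓑) ≤ cost L 𝓐 + cost L 𝓑 := by
  unfold cost
  rw [← Finset.sum_union_inter]
  exact Nat.le_add_right _ _

theorem cost_sdiff (L : ℕ) (𝓚 𝓑 : Finset (Finset V)) (h : 𝓚 ⊆ 𝓑) :
    cost L (𝓑 \ 𝓚) + cost L 𝓚 = cost L 𝓑 := by
  unfold cost
  exact Finset.sum_sdiff h

/-- Replacing a subfamily. -/
theorem replace_le (G : SimpleGraph V) (L : ℕ) (𝓑 : Finset (Finset V)) (h : IsMinCover G L 𝓑)
    (𝓚 𝓚' : Finset (Finset V)) (hK : 𝓚 ⊆ 𝓑) (h2 : ∀ B ∈ 𝓚', 2 ≤ B.card)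
    (hcov : ∀ u v, G.Adj u v → (∃ B ∈ 𝓚, u ∈ B ∧ v ∈ B) → ∃ B ∈ 𝓚', u ∈ B ∧ v ∈ B) :
    cost L 𝓚 ≤ cost L 𝓚' := by
  have h1 : IsCover G ((𝓑 \ 𝓚) ∪ 𝓚') := by
    refine ⟨?_, ?_⟩
    · intro B hB
      rcases mem_union.mp hB with hB | hB
      · exact h.1.1 B (mem_sdiff.mp hB).1
      · exact h2 B hB
    · intro u v huv
      obtain ⟨B, hB, hu, hv⟩ := h.1.2 u v huv
      by_cases hBK : B ∈ 𝓚
      · obtain ⟨B', hB', hu', hv'⟩ := hcov u v huv ⟨B, hBK, hu, hv⟩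
        exact ⟨B', mem_union_right _ hB', hu', hv'⟩
      · exact ⟨B, mem_union_left _ (mem_sdiff.mpr ⟨hB, hBK⟩), hu, hv⟩
  have h3 := h.2 _ h1
  have h4 := cost_union_le L (𝓑 \ 𝓚) 𝓚'
  have h5 := cost_sdiff L 𝓚 𝓑 hK
  omega

theorem cover_slack (G : SimpleGraph V) (L : ℕ) (𝓑 : Finset (Finset V)) (h : IsMinCover G L 𝓑)
    (𝓚 : Finset (Finset V)) (hK : 𝓚 ⊆ 𝓑) (hne : 𝓚.Nonempty) :
    L * (∑ B ∈ 𝓚, (2 * B.card - 3)) + 𝓚.card ≤ L * (2 * (𝓚.biUnion id).card - 3) + 1 := by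
  have h1 := replace_le G L 𝓑 h 𝓚 {𝓚.biUnion id} hK ?_ ?_
  · rw [cost_eq] at h1
    simpa [cost] using h1
  · intro B hB
    rw [mem_singleton] at hB
    subst hB
    obtain ⟨B, hB⟩ := hne
    refine (h.1.1 B (hK hB)).trans (Finset.card_le_card ?_)
    intro v hv
    rw [mem_biUnion]
    exact ⟨B, hB, hv⟩
  · rintro u v - ⟨B, hB, hu, hv⟩
    refine ⟨_, mem_singleton_self _, ?_, ?_⟩
    · rw [mem_biUnion]; exact ⟨B, hB, hu⟩
    · rw [mem_biUnion]; exact ⟨B, hB, hv⟩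

theorem cover_conn (G : SimpleGraph V) (L : ℕ) (hL : 1 ≤ L) (𝓑 : Finset (Finset V))
    (h : IsMinCover G L 𝓑) (B : Finset V) (hB : B ∈ 𝓑) : Conn G.Adj B := by
  intro Y hYB hYne hYne'
  by_contra hcon
  push Not at hcon
  have hZne : (B \ Y).Nonempty := by
    rw [Finset.nonempty_iff_ne_empty]
    intro h0
    rw [Finset.sdiff_eq_empty_iff_subset] at h0
    exact hYne' (Finset.Subset.antisymm hYB h0)
  have hcard : Y.card + (B \ Y).card = B.card := by
    rw [add_comm]; exact Finset.card_sdiff_add_card_eq_card hYB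
  have h1 := replace_le G L 𝓑 h {B} (({Y, B \ Y} : Finset (Finset V)).filter (fun A => 2 ≤ A.card))
    (by simpa using hB) (fun A hA => (mem_filter.mp hA).2) ?_
  · have h2 := h.1.1 B hB
    have hYp : 1 ≤ Y.card := Finset.card_pos.mpr hYne
    have hZp : 1 ≤ (B \ Y).card := Finset.card_pos.mpr hZne
    have hne : Y ≠ B \ Y := by
      intro heq
      obtain ⟨y, hy⟩ := hYne
      have := heq ▸ hy
      exact (mem_sdiff.mp this).2 hy
    have h3 : cost L (({Y, B \ Y} : Finset (Finset V)).filter (fun A => 2 ≤ A.card)) =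
        (if 2 ≤ Y.card then L * (2 * Y.card - 3) + 1 else 0) +
        (if 2 ≤ (B \ Y).card then L * (2 * (B \ Y).card - 3) + 1 else 0) := by
      unfold cost
      rw [Finset.sum_filter, Finset.sum_pair hne]
    have h4 : cost L ({B} : Finset (Finset V)) = L * (2 * B.card - 3) + 1 := by simp [cost]
    rw [h3, h4] at h1
    set y := Y.card with hy
    set z := (B \ Y).card with hz
    rw [← hcard] at h1
    by_cases hy2 : 2 ≤ y
    · by_cases hz2 : 2 ≤ z
      · rw [if_pos hy2, if_pos hz2] at h1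
        have e : 2 * (y + z) - 3 = (2 * y - 3) + (2 * z - 3) + 3 := by omega
        rw [e, Nat.mul_add, Nat.mul_add] at h1
        omega
      · rw [if_pos hy2, if_neg hz2] at h1
        have e : 2 * (y + z) - 3 = (2 * y - 3) + 2 := by omega
        rw [e, Nat.mul_add] at h1
        omega
    · by_cases hz2 : 2 ≤ z
      · rw [if_neg hy2, if_pos hz2] at h1
        have e : 2 * (y + z) - 3 = (2 * z - 3) + 2 := by omega
        rw [e, Nat.mul_add] at h1
        omega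
      · rw [if_neg hy2, if_neg hz2] at h1
        omega
  · rintro u v huv ⟨A, hA, hu, hv⟩
    rw [mem_singleton] at hA
    subst hA
    by_cases huY : u ∈ Y
    · have hvY : v ∈ Y := by
        by_contra hvY
        exact hcon u huY v hv hvY huv
      refine ⟨Y, ?_, huY, hvY⟩
      rw [mem_filter]
      exact ⟨by simp, Finset.one_lt_card.mpr ⟨u, huY, v, hvY, huv.ne⟩⟩
    · have hvY : v ∉ Y := by
        intro hvY
        exact hcon v hvY u hu huY huv.symm
      have hu' : u ∈ A \ Y := mem_sdiff.mpr ⟨hu, huY⟩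
      have hv' : v ∈ A \ Y := mem_sdiff.mpr ⟨hv, hvY⟩
      refine ⟨A \ Y, ?_, hu', hv'⟩
      rw [mem_filter]
      exact ⟨by simp, Finset.one_lt_card.mpr ⟨u, hu', v, hv', huv.ne⟩⟩

theorem cover_deg (G : SimpleGraph V) (D : ℕ) (hD : ∀ v, (univ.filter (fun u => G.Adj v u)).card ≤ D)
    (L : ℕ) (hL : 1 ≤ L) (𝓑 : Finset (Finset V))
    (h : IsMinCover G L 𝓑) (v : V) : (𝓑.filter (fun B => v ∈ B)).card ≤ D := by
  have hex : ∀ B ∈ 𝓑.filter (fun B => v ∈ B), ∃ u ∈ B, G.Adj v u := by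
    intro B hB
    rw [mem_filter] at hB
    have h2 := h.1.1 B hB.1
    obtain ⟨y, hy, z, hz, -, hyz⟩ := cover_conn G L hL 𝓑 h B hB.1 {v}
      (Finset.singleton_subset_iff.mpr hB.2) ⟨v, mem_singleton_self v⟩ (by
        intro heq
        rw [← heq, Finset.card_singleton] at h2
        omega)
    rw [mem_singleton] at hy
    subst hy
    exact ⟨z, hz, hyz⟩
  have : Nonempty V := ⟨v⟩
  choose! f hf using hex
  refine le_trans (Finset.card_le_card_of_injOn f ?_ ?_) (hD v)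
  · intro B hB
    have := (hf B (mem_coe.mp hB)).2
    simp only [coe_filter, mem_univ, true_and, Set.mem_ofPred_eq]
    exact this
  · intro B hB B' hB' heq
    by_contra hne
    have hB := mem_coe.mp hB
    have hB' := mem_coe.mp hB'
    have h1 := hf B hB
    have h1' := hf B' hB'
    rw [mem_filter] at hB hB'
    have h2 := cover_slack G L 𝓑 h {B, B'} (by
      intro A hA
      rw [mem_insert, mem_singleton] at hA
      rcases hA with rfl | rfl
      · exact hB.1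
      · exact hB'.1) ⟨B, by simp⟩
    rw [Finset.sum_pair hne, Finset.card_pair hne, Finset.biUnion_insert,
      Finset.singleton_biUnion] at h2
    simp only [id] at h2
    have h3 : 2 ≤ (B ∩ B').card := by
      refine Finset.one_lt_card.mpr ⟨v, mem_inter.mpr ⟨hB.2, hB'.2⟩, f B, ?_, ?_⟩
      · rw [mem_inter]
        exact ⟨h1.1, heq ▸ h1'.1⟩
      · exact h1.2.ne
    have h4 := Finset.card_union_add_card_inter B B'
    have h5 := h.1.1 B hB.1
    have h6 := h.1.1 B' hB'.1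
    have h7 : 2 * (B ∪ B').card - 3 ≤ (2 * B.card - 3) + (2 * B'.card - 3) - 1 := by omega
    have h8 : 1 ≤ (2 * B.card - 3) + (2 * B'.card - 3) := by omega
    have h9 := Nat.mul_le_mul_left L h7
    have h10 : L * ((2 * B.card - 3) + (2 * B'.card - 3) - 1) + L =
        L * ((2 * B.card - 3) + (2 * B'.card - 3)) := by
      rw [Nat.mul_sub, mul_one]
      exact Nat.sub_add_cancel (Nat.le_mul_of_pos_right L h8)
    omega

/-- The edges inside `B` as a family. -/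
noncomputable def edgeFam (G : SimpleGraph V) (B : Finset V) : Finset (Finset V) :=
  (pairs G B).image (fun p => {p.1, p.2})

theorem edgeFam_card (G : SimpleGraph V) (B : Finset V) :
    2 * (edgeFam G B).card ≤ (pairs G B).card := by
  refine Finset.mul_card_image_le_card _ 2 ?_
  intro A hA
  obtain ⟨⟨u, v⟩, hp, rfl⟩ := mem_image.mp hA
  rw [mem_pairs] at hp
  refine Finset.one_lt_card.mpr ⟨(u, v), ?_, (v, u), ?_, ?_⟩
  · rw [mem_filter, mem_pairs]
    exact ⟨hp, rfl⟩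
  · rw [mem_filter, mem_pairs]
    exact ⟨⟨hp.2.1, hp.1, hp.2.2.symm⟩, Finset.pair_comm _ _⟩
  · intro h
    exact hp.2.2.ne (congrArg Prod.fst h)

/-- Large bodies are too expensive. -/
theorem cover_size (G : SimpleGraph V) (n₀ N : ℕ) (hn : 1 ≤ n₀)
    (hsp : ∀ W : Finset V, Conn G.Adj W → N < W.card →
      n₀ * (pairs G W).card ≤ (4 * n₀ - 2) * W.card)
    (𝓑 : Finset (Finset V)) (h : IsMinCover G (4 * n₀) 𝓑) (B : Finset V) (hB : B ∈ 𝓑) :
    B.card ≤ max N (6 * n₀) := by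
  by_contra hcon
  push Not at hcon
  have hN : N < B.card := lt_of_le_of_lt (le_max_left _ _) hcon
  have h6 : 6 * n₀ < B.card := lt_of_le_of_lt (le_max_right _ _) hcon
  have hconn := cover_conn G (4 * n₀) (by omega) 𝓑 h B hB
  have h1 := hsp B hconn hN
  have h2 := replace_le G (4 * n₀) 𝓑 h {B} (edgeFam G B) (by simpa using hB) ?_ ?_
  · have h3 : cost (4 * n₀) ({B} : Finset (Finset V)) = 4 * n₀ * (2 * B.card - 3) + 1 := by
      simp [cost]
    have h4 : cost (4 * n₀) (edgeFam G B) = (4 * n₀ + 1) * (edgeFam G B).card := by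
      unfold cost
      rw [mul_comm (4 * n₀ + 1)]
      refine Finset.sum_const_nat (fun A hA => ?_)
      obtain ⟨⟨u, v⟩, hp, rfl⟩ := mem_image.mp hA
      rw [mem_pairs] at hp
      rw [Finset.card_pair hp.2.2.ne]
      omega
    have h5 := edgeFam_card G B
    rw [h3, h4] at h2
    obtain ⟨b, hb⟩ : ∃ b, B.card = b := ⟨_, rfl⟩
    obtain ⟨e, he⟩ : ∃ e, (edgeFam G B).card = e := ⟨_, rfl⟩
    obtain ⟨P, hP⟩ : ∃ P, (pairs G B).card = P := ⟨_, rfl⟩
    rw [hb] at h1 h2 h6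
    rw [he] at h2 h5
    rw [hP] at h1 h5
    obtain ⟨m, rfl⟩ : ∃ m, n₀ = m + 1 := ⟨n₀ - 1, by omega⟩
    obtain ⟨c, rfl⟩ : ∃ c, b = c + 2 := ⟨b - 2, by omega⟩
    have e1 : 2 * (c + 2) - 3 = 2 * c + 1 := by omega
    have e2 : 4 * (m + 1) - 2 = 4 * m + 2 := by omega
    rw [e1] at h2
    rw [e2] at h1
    have a1 := Nat.mul_le_mul_left (4 * (m + 1) + 1) h1
    have a2 := Nat.mul_le_mul_left ((4 * (m + 1) + 1) * (m + 1)) h5
    have a3 := Nat.mul_le_mul_left (2 * (m + 1)) h2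
    have a4 := Nat.mul_le_mul_left (4 * (m + 1) + 2) (Nat.succ_le_of_lt h6)
    nlinarith [a1, a2, a3, a4]
  · intro A hA
    obtain ⟨⟨u, v⟩, hp, rfl⟩ := mem_image.mp hA
    rw [mem_pairs] at hp
    rw [Finset.card_pair hp.2.2.ne]
  · rintro u v huv ⟨A, hA, hu, hv⟩
    rw [mem_singleton] at hA
    subst hA
    refine ⟨{u, v}, mem_image.mpr ⟨(u, v), ?_, rfl⟩, by simp, by simp⟩
    rw [mem_pairs]
    exact ⟨hu, hv, huv⟩

/-- The main theorem on sparse graphs: a placement in general position with few slopes. -/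
theorem sparse_drawing (G : SimpleGraph V) (D N n₀ : ℕ) (hn : 1 ≤ n₀)
    (hD : ∀ v, (univ.filter (fun u => G.Adj v u)).card ≤ D)
    (hsp : ∀ W : Finset V, Conn G.Adj W → N < W.card →
      n₀ * (pairs G W).card ≤ (4 * n₀ - 2) * W.card) :
    ∃ p : V → ℝ × ℝ, Function.Injective p ∧
      (∀ u v w, u ≠ v → w ≠ u → w ≠ v → det3 (p v) (p u) (p w) ≠ 0) ∧
      ∃ S : Finset (ℝ × ℝ), S.card ≤ numCol (max N (6 * n₀)) (max N (6 * n₀) * D) (4 * n₀) *
          (max N (6 * n₀) * max N (6 * n₀)) ∧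
        ∀ u v, G.Adj u v → ∃ d ∈ S, ∃ t : ℝ, p u - p v = t • d := by
  set b₀ := max N (6 * n₀) with hb₀
  obtain ⟨𝓑, h𝓑⟩ := exists_minCover G (4 * n₀)
  have hB2 : ∀ x : {B // B ∈ 𝓑}, 2 ≤ x.1.card := fun x => h𝓑.1.1 x.1 x.2
  have hBb : ∀ x : {B // B ∈ 𝓑}, x.1.card ≤ b₀ := fun x =>
    cover_size G n₀ N hn hsp 𝓑 h𝓑 x.1 x.2
  have hδ : ∀ x : {B // B ∈ 𝓑},
      (univ.filter (fun y => adjB (fun x : {B // B ∈ 𝓑} => x.1) x y)).card ≤ b₀ * D := by
    intro x
    calc (univ.filter (fun y : {B // B ∈ 𝓑} => adjB (fun x : {B // B ∈ 𝓑} => x.1) x y)).card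
        ≤ (x.1.biUnion (fun v => 𝓑.filter (fun B => v ∈ B))).card := by
          refine Finset.card_le_card_of_injOn (fun y => y.1) ?_ ?_
          · intro y hy
            simp only [coe_filter, mem_univ, true_and, Set.mem_ofPred_eq] at hy
            obtain ⟨v, hvx, hvy⟩ := hy
            rw [mem_coe, mem_biUnion]
            exact ⟨v, hvx, by rw [mem_filter]; exact ⟨y.2, hvy⟩⟩
          · intro y _ z _ hyz
            exact Subtype.ext hyz
      _ ≤ x.1.card * D :=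
          Finset.card_biUnion_le_card_mul _ _ _
            (fun v _ => cover_deg G D hD (4 * n₀) (by omega) 𝓑 h𝓑 v)
      _ ≤ b₀ * D := Nat.mul_le_mul_right _ (hBb x)
  have hsl : ∀ K : Finset {B // B ∈ 𝓑}, K.Nonempty →
      4 * n₀ * (∑ x ∈ K, (2 * x.1.card - 3)) + K.card ≤
        4 * n₀ * (2 * (vs (fun x : {B // B ∈ 𝓑} => x.1) K).card - 3) + 1 := by
    intro K hK
    have h1 := cover_slack G (4 * n₀) 𝓑 h𝓑 (K.image (fun x => x.1)) (by
      intro B hB
      obtain ⟨x, -, rfl⟩ := mem_image.mp hB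
      exact x.2) (hK.image _)
    have hinj : Set.InjOn (fun x : {B // B ∈ 𝓑} => x.1) (K : Set {B // B ∈ 𝓑}) :=
      fun x _ y _ h => Subtype.ext h
    rw [Finset.sum_image hinj, Finset.card_image_of_injOn hinj] at h1
    have h2 : (K.image (fun x : {B // B ∈ 𝓑} => x.1)).biUnion id =
        vs (fun x : {B // B ∈ 𝓑} => x.1) K := by
      rw [Finset.image_biUnion]; rfl
    rw [h2] at h1
    exact h1
  obtain ⟨p, hpi, hpg, S, hS, hdir⟩ := draw_bodies (X := {B // B ∈ 𝓑}) (fun x => x.1) hB2 b₀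
    (b₀ * D) (4 * n₀) hBb hδ (by omega) hsl
  refine ⟨p, hpi, hpg, S, hS, ?_⟩
  intro u v huv
  obtain ⟨B, hB, hu, hv⟩ := h𝓑.1.2 u v huv
  exact hdir ⟨B, hB⟩ u v hu hv

end Pool.Agent.Lib.MP_04668c_co
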