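import Pool.Agent.Lib.MP_04668c_co.Cover

/-!
# Deleting few edges makes a graph of maximum degree four sparse
-/

set_option autoImplicit false
set_option linter.unusedSectionVars false

namespace Pool.Agent.Lib.MP_04668c_co

open Finset Classical

variable {V : Type} [Fintype V]

/-- Balls. -/
noncomputable def bll (G : SimpleGraph V) (x : V) : ℕ → Finset V
  | 0 => {x}
  | k + 1 => bll G x k ∪ (bll G x k).biUnion (fun y => univ.filter (fun u => G.Adj y u))

theorem mem_bll_succ (G : SimpleGraph V) (x : V) (k : ℕ) (u : V) :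
    u ∈ bll G x (k + 1) ↔ u ∈ bll G x k ∨ ∃ y ∈ bll G x k, G.Adj y u := by
  simp [bll]

theorem bll_self (G : SimpleGraph V) (x : V) (k : ℕ) : x ∈ bll G x k := by
  induction k with
  | zero => simp [bll]
  | succ k ih => rw [mem_bll_succ]; exact Or.inl ih

theorem bll_trans (G : SimpleGraph V) (x y z : V) (a b : ℕ) (h1 : y ∈ bll G x a)
    (h2 : z ∈ bll G y b) : z ∈ bll G x (a + b) := by
  induction b generalizing z with
  | zero =>
    simp only [bll, mem_singleton] at h2
    subst h2
    exact h1
  | succ b ih =>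
    rw [mem_bll_succ] at h2
    rw [← Nat.add_assoc, mem_bll_succ]
    rcases h2 with h | ⟨w, hw, hadj⟩
    · exact Or.inl (ih z h)
    · exact Or.inr ⟨w, ih w hw, hadj⟩

theorem bll_symm (G : SimpleGraph V) (x y : V) (k : ℕ) (h : y ∈ bll G x k) : x ∈ bll G y k := by
  induction k generalizing y with
  | zero =>
    simp only [bll, mem_singleton] at h ⊢
    exact h.symm
  | succ k ih =>
    rw [mem_bll_succ] at h
    rcases h with h | ⟨w, hw, hadj⟩
    · rw [mem_bll_succ]; exact Or.inl (ih y h)
    · have h1 : w ∈ bll G y 1 := by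
        rw [mem_bll_succ]
        exact Or.inr ⟨y, bll_self G y 0, hadj.symm⟩
      have := bll_trans G y w x 1 k h1 (ih w hw)
      rwa [Nat.add_comm] at this

theorem bll_card (G : SimpleGraph V) (D : ℕ) (hD : ∀ v, (univ.filter (fun u => G.Adj v u)).card ≤ D)
    (x : V) (k : ℕ) : (bll G x k).card ≤ (D + 1) ^ k := by
  induction k with
  | zero => simp [bll]
  | succ k ih =>
    have h1 : ((bll G x k).biUnion (fun y => univ.filter (fun u => G.Adj y u))).card ≤
        (bll G x k).card * D := Finset.card_biUnion_le_card_mul _ _ _ (fun y _ => hD y)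
    calc (bll G x (k + 1)).card ≤ (bll G x k).card + (bll G x k).card * D := by
          refine (Finset.card_union_le _ _).trans ?_
          omega
      _ = (bll G x k).card * (D + 1) := by ring
      _ ≤ (D + 1) ^ k * (D + 1) := Nat.mul_le_mul_right _ ih
      _ = (D + 1) ^ (k + 1) := by ring

theorem bll_grow (G : SimpleGraph V) (x : V) (r : ℕ) :
    r + 1 ≤ (bll G x r).card ∨ ∀ y ∈ bll G x r, ∀ u, G.Adj y u → u ∈ bll G x r := by
  induction r with
  | zero => left; simp [bll]
  | succ r ih =>
    by_cases hcl : ∀ y ∈ bll G x r, ∀ u, G.Adj y u → u ∈ bll G x r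
    · right
      have heq : bll G x (r + 1) = bll G x r := by
        ext u
        rw [mem_bll_succ]
        exact ⟨fun h => h.elim id (fun ⟨y, hy, hadj⟩ => hcl y hy u hadj), Or.inl⟩
      rw [heq]; exact hcl
    · left
      have h1 := ih.resolve_right hcl
      push Not at hcl
      obtain ⟨y, hy, u, hadj, hu⟩ := hcl
      have h2 : bll G x r ⊂ bll G x (r + 1) := by
        refine Finset.ssubset_iff_subset_ne.mpr ⟨fun z hz => by rw [mem_bll_succ]; exact Or.inl hz, ?_⟩
        intro heq
        apply hu
        rw [heq, mem_bll_succ]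
        exact Or.inr ⟨y, hy, hadj⟩
      have := Finset.card_lt_card h2
      omega

theorem bll_closed (G : SimpleGraph V) (x : V) (r : ℕ)
    (h : ∀ y ∈ bll G x r, ∀ u, G.Adj y u → u ∈ bll G x r) (k : ℕ) : bll G x k ⊆ bll G x r := by
  induction k with
  | zero =>
    intro u hu
    simp only [bll, mem_singleton] at hu
    subst hu
    exact bll_self G u r
  | succ k ih =>
    intro u hu
    rw [mem_bll_succ] at hu
    rcases hu with hu | ⟨y, hy, hadj⟩
    · exact ih hu
    · exact h y (ih hy) u hadj

/-- Vertices of small degree are dense in a set, if every vertex is near a deficient vertex. -/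
theorem pairs_of_dense (G G' : SimpleGraph V)
    (h4 : ∀ v, (univ.filter (fun u => G.Adj v u)).card ≤ 4) (hGG : ∀ u v, G'.Adj u v → G.Adj u v)
    (ρ : ℕ) (W : Finset V)
    (hnear : ∀ v ∈ W, ∃ z ∈ bll G v ρ, ∃ u, G.Adj z u ∧ ¬ G'.Adj z u) :
    2 * 5 ^ ρ * (pairs G' W).card ≤ (4 * (2 * 5 ^ ρ) - 2) * W.card := by
  set nb : V → Finset V := fun v => W.filter (fun u => G'.Adj v u) with hnb
  set lossy : Finset V := W.filter (fun v => (nb v).card ≤ 3) with hlossy
  have hnb4 : ∀ v, (nb v).card ≤ 4 := by
    intro v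
    refine (Finset.card_le_card ?_).trans (h4 v)
    intro u hu
    rw [hnb, mem_filter] at hu
    rw [mem_filter]
    exact ⟨mem_univ _, hGG _ _ hu.2⟩
  have hmiss : ∀ y u, G.Adj y u → (u ∉ W ∨ ¬ G'.Adj y u) → (nb y).card ≤ 3 := by
    intro y u hadj hu
    have h1 : nb y ⊆ (univ.filter (fun u => G.Adj y u)).erase u := by
      intro z hz
      rw [hnb, mem_filter] at hz
      rw [mem_erase, mem_filter]
      refine ⟨?_, mem_univ _, hGG _ _ hz.2⟩
      rintro rfl
      rcases hu with hu | hu
      · exact hu hz.1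
      · exact hu hz.2
    have h2 := Finset.card_le_card h1
    rw [Finset.card_erase_of_mem (by rw [mem_filter]; exact ⟨mem_univ _, hadj⟩)] at h2
    have := h4 y
    omega
  have hstep : ∀ v ∈ W, ∀ k, ∀ z ∈ bll G v k, z ∈ W ∨ ∃ l ∈ lossy, l ∈ bll G v k := by
    intro v hv k
    induction k with
    | zero =>
      intro z hz
      simp only [bll, mem_singleton] at hz
      subst hz
      exact Or.inl hv
    | succ k ih =>
      intro z hz
      rw [mem_bll_succ] at hz
      rcases hz with hz | ⟨y, hy, hadj⟩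
      · rcases ih z hz with h | ⟨l, hl, hlb⟩
        · exact Or.inl h
        · exact Or.inr ⟨l, hl, by rw [mem_bll_succ]; exact Or.inl hlb⟩
      · rcases ih y hy with h | ⟨l, hl, hlb⟩
        · by_cases hzW : z ∈ W
          · exact Or.inl hzW
          · right
            refine ⟨y, ?_, by rw [mem_bll_succ]; exact Or.inl hy⟩
            rw [hlossy, mem_filter]
            exact ⟨h, hmiss y z hadj (Or.inl hzW)⟩
        · exact Or.inr ⟨l, hl, by rw [mem_bll_succ]; exact Or.inl hlb⟩
  have hcov : W ⊆ lossy.biUnion (fun l => bll G l ρ) := by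
    intro v hv
    obtain ⟨z, hz, u, hzu, hzu'⟩ := hnear v hv
    rw [mem_biUnion]
    rcases hstep v hv ρ z hz with hzW | ⟨l, hl, hlb⟩
    · refine ⟨z, ?_, bll_symm G v z ρ hz⟩
      rw [hlossy, mem_filter]
      exact ⟨hzW, hmiss z u hzu (Or.inr hzu')⟩
    · exact ⟨l, hl, bll_symm G v l ρ hlb⟩
  have hWl : W.card ≤ lossy.card * 5 ^ ρ :=
    (Finset.card_le_card hcov).trans
      (Finset.card_biUnion_le_card_mul _ _ _ (fun l _ => bll_card G 4 h4 l ρ))
  have hpairs : (pairs G' W).card + lossy.card ≤ 4 * W.card := by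
    have h1 : (pairs G' W).card = ∑ v ∈ W, (nb v).card := by
      have : pairs G' W = (W ×ˢ W).filter (fun p => G'.Adj p.1 p.2) := by
        ext p; rw [mem_pairs, mem_filter, mem_product, and_assoc]
      rw [this, Finset.card_filter, Finset.sum_product]
      refine Finset.sum_congr rfl (fun v _ => ?_)
      rw [hnb, Finset.card_filter]
    have h2 : lossy.card = ∑ v ∈ W, (if (nb v).card ≤ 3 then 1 else 0) := by
      rw [hlossy, Finset.card_filter]
    rw [h1, h2, ← Finset.sum_add_distrib]
    calc ∑ v ∈ W, ((nb v).card + if (nb v).card ≤ 3 then 1 else 0) ≤ ∑ v ∈ W, 4 := by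
          refine Finset.sum_le_sum (fun v _ => ?_)
          have := hnb4 v
          split_ifs <;> omega
      _ = 4 * W.card := by rw [Finset.sum_const, smul_eq_mul, mul_comm]
  obtain ⟨n, hn⟩ : ∃ n, 5 ^ ρ = n := ⟨_, rfl⟩
  have hnpos : 1 ≤ n := by rw [← hn]; exact Nat.one_le_pow _ _ (by norm_num)
  rw [hn] at hWl ⊢
  have h1 := Nat.mul_le_mul_left (2 * n) hpairs
  have h2 : (4 * (2 * n) - 2) * W.card + 2 * W.card = 4 * (2 * n) * W.card := by
    rw [← Nat.add_mul]
    congr 1
    omega
  nlinarith

/-- A small set of edges whose deletion makes the graph sparse. -/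
theorem exists_delete (G : SimpleGraph V)
    (h4 : ∀ v, (univ.filter (fun u => G.Adj v u)).card ≤ 4) (r : ℕ) (hr : 1 ≤ r) :
    ∃ (E₀ : Finset (Sym2 V)) (G' : SimpleGraph V), (r + 1) * E₀.card ≤ Fintype.card V ∧
      (∀ u v, G'.Adj u v → G.Adj u v) ∧ (∀ u v, G.Adj u v → s(u, v) ∉ E₀ → G'.Adj u v) ∧
      ∀ W : Finset V, Conn G'.Adj W → r < W.card →
        2 * 5 ^ (2 * r) * (pairs G' W).card ≤ (4 * (2 * 5 ^ (2 * r)) - 2) * W.card := by
  -- a maximal packing of balls
  obtain ⟨P, hP, hmax⟩ := Finset.exists_max_image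
    (univ.filter (fun P : Finset V => ∀ x ∈ P, ∀ y ∈ P, x ≠ y →
      Disjoint (bll G x r) (bll G y r))) Finset.card
    ⟨∅, by rw [mem_filter]; exact ⟨mem_univ _, by simp⟩⟩
  rw [mem_filter] at hP
  have hP := hP.2
  have hnearP : ∀ v, ∃ z ∈ P, z ∈ bll G v (r + r) := by
    intro v
    by_cases hv : v ∈ P
    · exact ⟨v, hv, bll_self G v _⟩
    by_contra hcon
    push Not at hcon
    have h1 := hmax (insert v P) (by
      rw [mem_filter]
      refine ⟨mem_univ _, ?_⟩
      have key : ∀ z ∈ P, Disjoint (bll G v r) (bll G z r) := by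
        intro z hz
        rw [Finset.disjoint_left]
        intro y hy hy'
        exact hcon z hz (bll_trans G v y z r r hy (bll_symm G z y r hy'))
      intro x hx y hy hxy
      rcases mem_insert.mp hx with hx1 | hx1
      · rcases mem_insert.mp hy with hy1 | hy1
        · exact absurd (hx1.trans hy1.symm) hxy
        · rw [hx1]; exact key y hy1
      · rcases mem_insert.mp hy with hy1 | hy1
        · rw [hy1]; exact (key x hx1).symm
        · exact hP x hx1 y hy1 hxy)
    rw [Finset.card_insert_of_notMem hv] at h1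
    omega
  set P' := P.filter (fun z => r + 1 ≤ (bll G z r).card) with hP'
  have hnb : ∀ z ∈ P', ∃ u, G.Adj z u := by
    intro z hz
    rw [hP', mem_filter] at hz
    by_contra hcon
    push Not at hcon
    have h1 : ∀ k, bll G z k ⊆ {z} := by
      intro k
      induction k with
      | zero => simp [bll]
      | succ k ih =>
        intro u hu
        rw [mem_bll_succ] at hu
        rcases hu with hu | ⟨y, hy, hadj⟩
        · exact ih hu
        · have := mem_singleton.mp (ih hy)
          subst this
          exact absurd hadj (hcon u)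
    have h2 := Finset.card_le_card (h1 r)
    rw [Finset.card_singleton] at h2
    omega
  have hnb' : ∀ z, ∃ u, z ∈ P' → G.Adj z u := by
    intro z
    by_cases hz : z ∈ P'
    · obtain ⟨u, hu⟩ := hnb z hz
      exact ⟨u, fun _ => hu⟩
    · exact ⟨z, fun h => absurd h hz⟩
  choose nx hnx using hnb'
  set E₀ : Finset (Sym2 V) := P'.image (fun z => s(z, nx z)) with hE₀
  set G' : SimpleGraph V :=
    { Adj := fun u v => G.Adj u v ∧ s(u, v) ∉ E₀
      symm := by
        refine ⟨fun u v h => ⟨h.1.symm, ?_⟩⟩
        rw [Sym2.eq_swap]; exact h.2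
      loopless := ⟨fun u h => G.loopless.irrefl u h.1⟩ } with hG'
  refine ⟨E₀, G', ?_, fun u v h => h.1, fun u v h h' => ⟨h, h'⟩, ?_⟩
  · calc (r + 1) * E₀.card ≤ (r + 1) * P'.card := Nat.mul_le_mul_left _ Finset.card_image_le
      _ ≤ ∑ z ∈ P', (bll G z r).card := by
          rw [mul_comm, ← smul_eq_mul, ← Finset.sum_const]
          exact Finset.sum_le_sum (fun z hz => (mem_filter.mp hz).2)
      _ = (P'.biUnion (fun z => bll G z r)).card := by
          rw [Finset.card_biUnion]
          intro x hx y hy hxy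
          exact hP x (mem_filter.mp hx).1 y (mem_filter.mp hy).1 hxy
      _ ≤ Fintype.card V := Finset.card_le_univ _
  · intro W hW hWr
    refine pairs_of_dense G G' h4 (fun u v h => h.1) (2 * r) W ?_
    intro v hv
    obtain ⟨z, hz, hzv⟩ := hnearP v
    rw [← two_mul] at hzv
    refine ⟨z, hzv, nx z, ?_⟩
    have hzP' : z ∈ P' := by
      rw [hP', mem_filter]
      refine ⟨hz, ?_⟩
      rcases bll_grow G z r with h | hcl
      · exact h
      · -- `W` is contained in the ball
        have hvz : v ∈ bll G z r := bll_closed G z r hcl _ (bll_symm G v z _ hzv)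
        have hsub : W ⊆ bll G z r := by
          by_contra hns
          obtain ⟨y, hy, u, hu, huY, hadj⟩ := hW (W.filter (fun u => u ∈ bll G z r))
            (Finset.filter_subset _ _) ⟨v, by rw [mem_filter]; exact ⟨hv, hvz⟩⟩ (by
              intro heq
              apply hns
              intro u hu
              rw [← heq] at hu
              exact (mem_filter.mp hu).2)
          apply huY
          rw [mem_filter]
          exact ⟨hu, hcl y (mem_filter.mp hy).2 u hadj.1⟩
        have := Finset.card_le_card hsub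
        omega
    refine ⟨hnx z hzP', fun h => h.2 ?_⟩
    rw [hE₀]
    exact mem_image_of_mem _ hzP'

end Pool.Agent.Lib.MP_04668c_co
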