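import Pool.Agent.Lib.MP_04668c_co.Reveal
import Pool.Agent.Lib.MP_04668c_co.Conn

/-!
# Dimensions of spaces of families of forces
-/

set_option autoImplicit false
set_option linter.unusedSectionVars false

namespace Pool.Agent.Lib.MP_04668c_co

open Finset Classical Module

theorem finrank_map_add {M N : Type} [AddCommGroup M] [Module ℝ M] [FiniteDimensional ℝ M]
    [AddCommGroup N] [Module ℝ N] (f : M →ₗ[ℝ] N) (S : Submodule ℝ M) :
    finrank ℝ (S.map f) + finrank ℝ (S ⊓ LinearMap.ker f : Submodule ℝ M) = finrank ℝ S := by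
  have h := LinearMap.finrank_range_add_finrank_ker (f.domRestrict S)
  rw [LinearMap.range_domRestrict] at h
  rw [← h]
  congr 1
  have h1 : LinearMap.ker (f.domRestrict S) =
      Submodule.comap S.subtype (S ⊓ LinearMap.ker f : Submodule ℝ M) := by
    ext x
    simp [LinearMap.mem_ker]
  rw [h1]
  exact (LinearEquiv.finrank_eq (Submodule.comapSubtypeEquivOfLe inf_le_left)).symm

variable {V X C : Type} [Fintype V] [Fintype X] [Fintype C]

/-- The sum of a family of forces. -/
def sumMap : (X → V → ℝ × ℝ) →ₗ[ℝ] (V → ℝ × ℝ) where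
  toFun Φ := ∑ x, Φ x
  map_add' Φ Ψ := by simp [Finset.sum_add_distrib]
  map_smul' a Φ := by simp [Finset.smul_sum]

theorem sumMap_apply (Φ : X → V → ℝ × ℝ) : sumMap Φ = ∑ x, Φ x := rfl

/-- Families of forces: on each body of `K` a force system with zero sum. -/
def famK (B : X → Finset V) (K : Finset X) : Submodule ℝ (X → V → ℝ × ℝ) where
  carrier := {Φ | (∀ x, x ∉ K → Φ x = 0) ∧ (∀ x v, v ∉ B x → Φ x v = 0) ∧ ∀ x, ∑ v, Φ x v = 0}
  add_mem' := by
    rintro Φ Ψ ⟨h1, h2, h3⟩ ⟨h1', h2', h3'⟩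
    refine ⟨fun x hx => ?_, fun x v hv => ?_, fun x => ?_⟩
    · rw [Pi.add_apply, h1 x hx, h1' x hx, add_zero]
    · rw [Pi.add_apply, Pi.add_apply, h2 x v hv, h2' x v hv, add_zero]
    · simp only [Pi.add_apply, Finset.sum_add_distrib, h3 x, h3' x, add_zero]
  zero_mem' := by
    refine ⟨fun x _ => rfl, fun x v _ => rfl, fun x => ?_⟩
    simp
  smul_mem' := by
    rintro a Φ ⟨h1, h2, h3⟩
    refine ⟨fun x hx => ?_, fun x v hv => ?_, fun x => ?_⟩
    · rw [Pi.smul_apply, h1 x hx, smul_zero]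
    · rw [Pi.smul_apply, Pi.smul_apply, h2 x v hv, smul_zero]
    · simp only [Pi.smul_apply, ← Finset.smul_sum, h3 x, smul_zero]

theorem mem_famK (B : X → Finset V) (K : Finset X) (Φ : X → V → ℝ × ℝ) :
    Φ ∈ famK B K ↔ (∀ x, x ∉ K → Φ x = 0) ∧ (∀ x v, v ∉ B x → Φ x v = 0) ∧
      ∀ x, ∑ v, Φ x v = 0 := Iff.rfl

theorem finrank_famK_le (B : X → Finset V) (hB : ∀ x, (B x).Nonempty) (K : Finset X) :
    finrank ℝ (famK B K) ≤ ∑ x ∈ K, (2 * (B x).card - 2) := by
  choose v₀ hv₀ using hB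
  set S : Finset (Σ _ : X, V) := K.sigma (fun x => (B x).erase (v₀ x)) with hS
  set f : famK B K →ₗ[ℝ] (S → ℝ × ℝ) :=
    { toFun := fun Φ s => Φ.1 s.1.1 s.1.2
      map_add' := by intro Φ Ψ; rfl
      map_smul' := by intro a Φ; rfl } with hf
  have hinj : Function.Injective f := by
    rw [← LinearMap.ker_eq_bot, LinearMap.ker_eq_bot']
    rintro ⟨Φ, h1, h2, h3⟩ hΦ
    have hz : ∀ x ∈ K, ∀ v ∈ (B x).erase (v₀ x), Φ x v = 0 := by
      intro x hx v hv
      exact congrFun hΦ ⟨⟨x, v⟩, Finset.mem_sigma.mpr ⟨hx, hv⟩⟩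
    refine Subtype.ext ?_
    show Φ = 0
    funext x v
    by_cases hx : x ∈ K
    · by_cases hv : v = v₀ x
      · subst hv
        have := h3 x
        rw [Finset.sum_eq_single (v₀ x)] at this
        · exact this
        · intro u _ hu
          by_cases huB : u ∈ B x
          · exact hz x hx u (Finset.mem_erase.mpr ⟨hu, huB⟩)
          · exact h2 x u huB
        · intro h; exact absurd (mem_univ _) h
      · by_cases hvB : v ∈ B x
        · exact hz x hx v (Finset.mem_erase.mpr ⟨hv, hvB⟩)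
        · exact h2 x v hvB
    · rw [h1 x hx]; rfl
  have h := LinearMap.finrank_le_finrank_of_injective hinj
  refine h.trans ?_
  have h1 : finrank ℝ (S → ℝ × ℝ) = S.card * 2 := by
    rw [Module.finrank_pi_fintype]
    simp
  rw [h1, hS, Finset.card_sigma, Finset.sum_mul]
  refine Finset.sum_le_sum (fun x _ => ?_)
  rw [Finset.card_erase_of_mem (hv₀ x)]
  omega

/-- The vertices of the bodies in `K`. -/
noncomputable def vs (B : X → Finset V) (K : Finset X) : Finset V := K.biUnion B

theorem mem_vs (B : X → Finset V) (K : Finset X) (v : V) : v ∈ vs B K ↔ ∃ x ∈ K, v ∈ B x := by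
  simp [vs]

/-- Two bodies are adjacent if they share a vertex. -/
def adjB (B : X → Finset V) (x y : X) : Prop := ∃ v, v ∈ B x ∧ v ∈ B y

/-- The force `n` at `u` and `-n` at `w`. -/
noncomputable def dip (u w : V) (n : ℝ × ℝ) : V → ℝ × ℝ := fun v => (if v = u then n else 0) - (if v = w then n else 0)

theorem dip_add (u w z : V) (n : ℝ × ℝ) : dip u w n + dip w z n = dip u z n := by
  funext v
  simp only [dip, Pi.add_apply]
  abel

theorem sum_dip (u w : V) (n : ℝ × ℝ) : ∑ v, dip u w n v = 0 := by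
  simp [dip, Finset.sum_sub_distrib]

theorem dip_self (u : V) (n : ℝ × ℝ) : dip u u n = 0 := by
  funext v; simp [dip]

theorem dip_mem (B : X → Finset V) (K : Finset X) {x : X} (hx : x ∈ K) {u w : V} (hu : u ∈ B x)
    (hw : w ∈ B x) (n : ℝ × ℝ) : dip u w n ∈ (famK B K).map sumMap := by
  refine ⟨Pi.single x (dip u w n), ⟨?_, ?_, ?_⟩, ?_⟩
  · intro y hy
    have : y ≠ x := fun h => hy (h ▸ hx)
    rw [Pi.single_eq_of_ne this]
  · intro y v hv
    by_cases hyx : y = x
    · subst hyx
      rw [Pi.single_eq_same]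
      have h1 : v ≠ u := fun h => hv (h ▸ hu)
      have h2 : v ≠ w := fun h => hv (h ▸ hw)
      simp [dip, h1, h2]
    · rw [Pi.single_eq_of_ne hyx]; rfl
  · intro y
    by_cases hyx : y = x
    · subst hyx
      rw [Pi.single_eq_same]
      exact sum_dip _ _ _
    · rw [Pi.single_eq_of_ne hyx]; simp
  · rw [sumMap_apply]
    simp

theorem dip_mem_conn (B : X → Finset V) (K : Finset X) (hK : Conn (adjB B) K) {u w : V}
    (hu : u ∈ vs B K) (hw : w ∈ vs B K) (n : ℝ × ℝ) :
    dip u w n ∈ (famK B K).map sumMap := by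
  rw [mem_vs] at hu hw
  obtain ⟨x, hx, hux⟩ := hu
  obtain ⟨y, hy, hwy⟩ := hw
  set Y : Finset X := K.filter (fun z => ∀ v ∈ B z, dip v w n ∈ (famK B K).map sumMap) with hY
  have hyY : y ∈ Y := by
    rw [hY, mem_filter]
    exact ⟨hy, fun v hv => dip_mem B K hy hv hwy n⟩
  have hYK : Y = K := by
    by_contra hne
    obtain ⟨z, hz, z', hz', hz'Y, v, hvz, hvz'⟩ := hK Y (Finset.filter_subset _ _) ⟨y, hyY⟩ hne
    apply hz'Y
    rw [hY, mem_filter] at hz ⊢
    refine ⟨hz', fun v' hv' => ?_⟩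
    rw [← dip_add v' v w n]
    exact Submodule.add_mem _ (dip_mem B K hz' hv' hvz' n) (hz.2 v hvz)
  have : x ∈ Y := hYK ▸ hx
  rw [hY, mem_filter] at this
  exact this.2 u hux

theorem finrank_sum_ge (B : X → Finset V) (K : Finset X) (hK : Conn (adjB B) K) :
    2 * (vs B K).card - 2 ≤ finrank ℝ ((famK B K).map sumMap) := by
  rcases (vs B K).eq_empty_or_nonempty with h | ⟨w, hw⟩
  · rw [h]; simp
  set S : Finset V := (vs B K).erase w with hS
  have hSvs : ∀ v : S, v.1 ∈ vs B K := fun v => Finset.mem_of_mem_erase v.2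
  set f : (S → ℝ × ℝ) →ₗ[ℝ] (V → ℝ × ℝ) :=
    { toFun := fun g => ∑ v : S, dip v.1 w (g v)
      map_add' := by
        intro g g'
        rw [← Finset.sum_add_distrib]
        refine Finset.sum_congr rfl (fun v _ => ?_)
        funext u
        simp only [dip, Pi.add_apply]
        split_ifs <;> abel
      map_smul' := by
        intro a g
        rw [RingHom.id_apply, Finset.smul_sum]
        refine Finset.sum_congr rfl (fun v _ => ?_)
        funext u
        simp only [dip, Pi.smul_apply]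
        split_ifs <;> simp } with hf
  have hrange : LinearMap.range f ≤ (famK B K).map sumMap := by
    rintro _ ⟨g, rfl⟩
    exact Submodule.sum_mem _ (fun v _ => dip_mem_conn B K hK (hSvs v) hw (g v))
  have hinj : Function.Injective f := by
    rw [← LinearMap.ker_eq_bot, LinearMap.ker_eq_bot']
    intro g hg
    funext v
    have h1 : (f g) v.1 = 0 := by rw [hg]; rfl
    have h2 : (f g) v.1 = ∑ u : S, dip u.1 w (g u) v.1 := by
      show (∑ u : S, dip u.1 w (g u)) v.1 = _
      rw [Finset.sum_apply]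
    rw [h2, Finset.sum_eq_single v] at h1
    · have hvw : v.1 ≠ w := Finset.ne_of_mem_erase v.2
      simpa [dip, hvw] using h1
    · intro u _ huv
      have hvw : v.1 ≠ w := Finset.ne_of_mem_erase v.2
      have huv' : v.1 ≠ u.1 := fun h => huv (Subtype.ext h.symm)
      simp [dip, hvw, huv']
    · intro h; exact absurd (mem_univ _) h
  have h1 : finrank ℝ (S → ℝ × ℝ) = S.card * 2 := by
    rw [Module.finrank_pi_fintype]
    simp
  have h2 : finrank ℝ (S → ℝ × ℝ) = finrank ℝ (LinearMap.range f) :=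
    (LinearMap.finrank_range_of_inj hinj).symm
  have h3 := Submodule.finrank_mono hrange
  rw [← h2, h1, hS, Finset.card_erase_of_mem hw] at h3
  omega

/-- Families whose sum lies in `P`. -/
def famS (B : X → Finset V) (K : Finset X) (P : Submodule ℝ (V → ℝ × ℝ)) :
    Submodule ℝ (X → V → ℝ × ℝ) :=
  famK B K ⊓ P.comap sumMap

theorem finrank_famS (B : X → Finset V) (hB : ∀ x, (B x).Nonempty) (K : Finset X)
    (hK : Conn (adjB B) K) (P : Submodule ℝ (V → ℝ × ℝ)) :
    finrank ℝ (famS B K P) + (2 * (vs B K).card - 2) ≤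
      ∑ x ∈ K, (2 * (B x).card - 2) + finrank ℝ P := by
  have h1 := finrank_map_add sumMap (famK B K)
  have h2 := finrank_map_add sumMap (famS B K P)
  have h3 : (famS B K P ⊓ LinearMap.ker sumMap : Submodule ℝ (X → V → ℝ × ℝ)) =
      famK B K ⊓ LinearMap.ker sumMap := by
    ext Φ
    simp only [famS, Submodule.mem_inf, Submodule.mem_comap, LinearMap.mem_ker]
    constructor
    · rintro ⟨⟨h, -⟩, h'⟩; exact ⟨h, h'⟩
    · rintro ⟨h, h'⟩; exact ⟨⟨h, by rw [h']; exact P.zero_mem⟩, h'⟩
  have h4 : (famS B K P).map sumMap ≤ P := by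
    rintro _ ⟨Φ, hΦ, rfl⟩
    exact hΦ.2
  have h5 := Submodule.finrank_mono h4
  have h6 := finrank_sum_ge B K hK
  have h7 := finrank_famK_le B hB K
  rw [h3] at h2
  omega

end Pool.Agent.Lib.MP_04668c_co
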