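import Pool.Agent.Lib.MP_04668c_co.Core

/-!
# Straight-line drawings with few slopes: two orderings, and adding vertices
-/

set_option autoImplicit false

namespace Pool.Agent.Lib.MP_04668c_co

open Finset Classical

variable {V : Type} [Fintype V]

/-- `G` has a straight-line drawing whose edges use at most `m` slopes. -/
def Drawable (G : SimpleGraph V) (m : ℕ) : Prop :=
  ∃ f : V → ℝ × ℝ, Function.Injective f ∧
    (∀ u v w : V, G.Adj u v → w ≠ u → w ≠ v → f w ∉ segment ℝ (f u) (f v)) ∧
    ∃ S : Finset (ℝ × ℝ), S.card ≤ m ∧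
      ∀ u v : V, G.Adj u v → ∃ d ∈ S, ∃ t : ℝ, f v - f u = t • d

theorem coord_lt (r : V → ℕ) (g : V → ℝ) (hg : ∀ v, 0 < g v) {v w : V} (h : r v < r w) :
    coord r g v < coord r g w := by
  have h1 := coord_sub r g h.le
  have h2 : g v ≤ ∑ u ∈ univ.filter (fun u => r v ≤ r u ∧ r u < r w), g u := by
    refine Finset.single_le_sum (f := g) (fun u _ => (hg u).le) ?_
    simp [h]
  have := hg v
  linarith

theorem coord_next (r : V → ℕ) (hr : Function.Injective r) (g : V → ℝ) {v w : V}
    (h : r w = r v + 1) : coord r g w - coord r g v = g v := by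
  rw [coord_sub r g (by omega)]
  have : univ.filter (fun u => r v ≤ r u ∧ r u < r w) = {v} := by
    ext u
    simp only [mem_filter, mem_univ, true_and, mem_singleton]
    constructor
    · intro hu
      exact hr (by omega)
    · rintro rfl; omega
  rw [this, Finset.sum_singleton]

omit [Fintype V] in
theorem NextClosed.exists {r : V → ℕ} {C : V → V → Prop} {Q : Finset V} (h : NextClosed r C Q)
    {z z' : V} (hz : z ∈ Q) (hz' : z' ∈ Q) (k : ℕ) (hk : r z + k ≤ r z') :
    ∃ w ∈ Q, r w = r z + k := by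
  induction k with
  | zero => exact ⟨z, hz, rfl⟩
  | succ k ih =>
    obtain ⟨w, hw, hwk⟩ := ih (by omega)
    obtain ⟨w', hw', h1, -⟩ := h w hw z' hz' (by omega)
    exact ⟨w', hw', by omega⟩

theorem tight_gap (r : V → ℕ) (hr : Function.Injective r) (g : V → ℝ) (C : V → V → Prop)
    (Q : Finset V) (hQ : NextClosed r C Q)
    (hg : ∀ z ∈ Q, ∀ w ∈ Q, r w = r z + 1 → g z = 1) {u v : V} (hu : u ∈ Q) (hv : v ∈ Q)
    (huv : r u < r v) :
    coord r g v - coord r g u = ((r v - r u : ℕ) : ℝ) ∧ r v - r u + 1 ≤ Q.card := by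
  have hmem : ∀ z, r u ≤ r z → r z ≤ r v → z ∈ Q := by
    intro z h1 h2
    obtain ⟨w, hw, hwz⟩ := hQ.exists hu hv (r z - r u) (by omega)
    have : w = z := hr (by omega)
    rwa [← this]
  constructor
  · rw [coord_sub r g huv.le]
    have h1 : ∀ z ∈ univ.filter (fun z => r u ≤ r z ∧ r z < r v), g z = 1 := by
      intro z hz
      simp only [mem_filter, mem_univ, true_and] at hz
      have hzQ := hmem z hz.1 hz.2.le
      obtain ⟨w, hw, hwz, -⟩ := hQ z hzQ v hv hz.2
      exact hg z hzQ w hw hwz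
    rw [Finset.sum_congr rfl h1, Finset.sum_const, nsmul_eq_mul, mul_one]
    norm_cast
    have himg : (univ.filter (fun z => r u ≤ r z ∧ r z < r v)).image r = Finset.Ico (r u) (r v) := by
      ext i
      simp only [mem_image, mem_filter, mem_univ, true_and, mem_Ico]
      constructor
      · rintro ⟨z, hz, rfl⟩; exact hz
      · intro hi
        obtain ⟨w, hw, hwz⟩ := hQ.exists hu hv (i - r u) (by omega)
        exact ⟨w, ⟨by omega, by omega⟩, by omega⟩
    rw [← Finset.card_image_of_injective _ hr, himg, Nat.card_Ico]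
  · have himg : Finset.Icc (r u) (r v) ⊆ Q.image r := by
      intro i hi
      rw [mem_Icc] at hi
      obtain ⟨w, hw, hwz⟩ := hQ.exists hu hv (i - r u) (by omega)
      rw [mem_image]
      exact ⟨w, hw, by omega⟩
    have := Finset.card_le_card himg
    rw [Nat.card_Icc, Finset.card_image_of_injective _ hr] at this
    omega

/-- The palette. -/
noncomputable def palette (δ : ℝ) (q : ℕ) : Finset (ℝ × ℝ) :=
  ({(1, δ), (1, -δ), (δ, 1), (-δ, 1)} : Finset (ℝ × ℝ)) ∪
    (Finset.Ico 1 q).biUnion (fun d => ({((d : ℝ), 1), ((d : ℝ), -1), (1, (d : ℝ)), (1, -(d : ℝ))} :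
      Finset (ℝ × ℝ)))

theorem palette_card (δ : ℝ) (q : ℕ) (hq : 1 ≤ q) : (palette δ q).card ≤ 4 * q := by
  unfold palette
  refine (Finset.card_union_le _ _).trans ?_
  have h1 : ({(1, δ), (1, -δ), (δ, 1), (-δ, 1)} : Finset (ℝ × ℝ)).card ≤ 4 := Finset.card_le_four
  have h2 : ((Finset.Ico 1 q).biUnion (fun d => ({((d : ℝ), 1), ((d : ℝ), -1), (1, (d : ℝ)),
      (1, -(d : ℝ))} : Finset (ℝ × ℝ)))).card ≤ (Finset.Ico 1 q).card * 4 :=
    Finset.card_biUnion_le_card_mul _ _ _ (fun d _ => Finset.card_le_four)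
  rw [Nat.card_Ico] at h2
  omega

theorem slope_aux (p q : ℝ) (δ : ℝ) (h : q = δ * |p|) :
    ∃ t : ℝ, (p, q) = t • ((1 : ℝ), δ) ∨ (p, q) = t • ((1 : ℝ), -δ) := by
  refine ⟨p, ?_⟩
  rcases le_total 0 p with hp | hp
  · left
    rw [h, abs_of_nonneg hp]
    simp [mul_comm]
  · right
    rw [h, abs_of_nonpos hp]
    simp [mul_comm]

theorem slope_aux' (p q : ℝ) (δ : ℝ) (h : p = δ * |q|) :
    ∃ t : ℝ, (p, q) = t • (δ, (1 : ℝ)) ∨ (p, q) = t • (-δ, (1 : ℝ)) := by
  refine ⟨q, ?_⟩
  rcases le_total 0 q with hq | hq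
  · left
    rw [h, abs_of_nonneg hq]
    simp [mul_comm]
  · right
    rw [h, abs_of_nonpos hq]
    simp [mul_comm]

/-- If every edge joins consecutive vertices for one of two rankings and the vertex sets that are
intervals for both rankings, all gaps being edges, have size at most `q`, then `4 q` slopes
suffice. -/
theorem draw_two_orders (G F₁ F₂ : SimpleGraph V) (a b : V → ℕ)
    (ha : Function.Injective a) (hb : Function.Injective b)
    (hF₁ : ∀ u v, F₁.Adj u v → b v = b u + 1 ∨ b u = b v + 1)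
    (hF₂ : ∀ u v, F₂.Adj u v → a v = a u + 1 ∨ a u = a v + 1)
    (hG : ∀ u v, G.Adj u v → F₁.Adj u v ∨ F₂.Adj u v) (q : ℕ) (hq : 1 ≤ q)
    (ht : ∀ Q : Finset V, 2 ≤ Q.card → NextClosed a F₂.Adj Q → NextClosed b F₁.Adj Q →
      Q.card ≤ q) : Drawable G (4 * q) := by
  set T : Finset V → Prop := fun Q => 2 ≤ Q.card ∧ NextClosed a F₂.Adj Q ∧ NextClosed b F₁.Adj Q
    with hT
  set CV : V → V → Prop := fun v w => F₂.Adj v w ∧ ¬ ∃ Q, T Q ∧ v ∈ Q ∧ w ∈ Q with hCV
  set CH : V → V → Prop := fun v w => F₁.Adj v w ∧ ¬ ∃ Q, T Q ∧ v ∈ Q ∧ w ∈ Q with hCH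
  set δ : ℝ := 1 / (4 * (Fintype.card V : ℝ) + 4) with hδdef
  have hδ : 0 < δ := by positivity
  have hδ' : δ * (2 * (Fintype.card V : ℝ)) ≤ 1 / 2 := by
    rw [hδdef, div_mul_eq_mul_div, one_mul, div_le_div_iff₀ (by positivity) (by norm_num)]
    nlinarith [(Nat.cast_nonneg (Fintype.card V) : (0:ℝ) ≤ (Fintype.card V : ℝ))]
  obtain ⟨ξ, η, h1, h2, h3, h4⟩ := exists_gaps a b CV CH ha hb δ hδ hδ'
  have hbad : ∀ Q : Finset V, 2 ≤ Q.card → NextClosed a CV Q → NextClosed b CH Q → False := by
    intro Q hQ2 hQa hQb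
    have hTQ : T Q := by
      refine ⟨hQ2, ?_, ?_⟩
      · intro z hz z' hz' hlt
        obtain ⟨w, hw, h5, h6⟩ := hQa z hz z' hz' hlt
        exact ⟨w, hw, h5, h6.1⟩
      · intro z hz z' hz' hlt
        obtain ⟨w, hw, h5, h6⟩ := hQb z hz z' hz' hlt
        exact ⟨w, hw, h5, h6.1⟩
    obtain ⟨z, hz, z', hz', hne⟩ := Finset.one_lt_card.mp hQ2
    rcases lt_trichotomy (b z) (b z') with hlt | heq | hlt
    · obtain ⟨w, hw, h5, h6⟩ := hQb z hz z' hz' hlt
      exact h6.2 ⟨Q, hTQ, hz, hw⟩
    · exact hne (hb heq)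
    · obtain ⟨w, hw, h5, h6⟩ := hQb z' hz' z hz hlt
      exact h6.2 ⟨Q, hTQ, hz', hw⟩
  obtain ⟨hξ, hη⟩ := gaps_pos a b CV CH ha hb δ hδ ξ η h1 h2 h3 h4 hbad
  -- gaps inside tight sets are 1
  have gapa : ∀ Q, T Q → ∀ z ∈ Q, ∀ w ∈ Q, a w = a z + 1 → ξ z = 1 := by
    intro Q hTQ z hz w hw hwz
    refine h2 z ?_
    rintro ⟨w', hw', hC⟩
    have : w' = w := ha (by omega)
    subst this
    exact hC.2 ⟨Q, hTQ, hz, hw⟩
  have gapb : ∀ Q, T Q → ∀ z ∈ Q, ∀ w ∈ Q, b w = b z + 1 → η z = 1 := by
    intro Q hTQ z hz w hw hwz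
    refine h4 z ?_
    rintro ⟨w', hw', hC⟩
    have : w' = w := hb (by omega)
    subst this
    exact hC.2 ⟨Q, hTQ, hz, hw⟩
  set f : V → ℝ × ℝ := fun v => (coord a ξ v, coord b η v) with hf
  have hinj : Function.Injective f := by
    intro u v huv
    have hx : coord a ξ u = coord a ξ v := congrArg Prod.fst huv
    rcases lt_trichotomy (a u) (a v) with hlt | heq | hlt
    · exact absurd hx (coord_lt a ξ hξ hlt).ne
    · exact ha heq
    · exact absurd hx (coord_lt a ξ hξ hlt).ne'
  -- no vertex on an edge with consecutive ranks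
  have nov : ∀ (r : V → ℕ) (g : V → ℝ), (∀ v, 0 < g v) → Function.Injective r →
      ∀ u v w : V, r v = r u + 1 → w ≠ u → w ≠ v → ∀ α β : ℝ, 0 ≤ α → 0 ≤ β → α + β = 1 →
      coord r g w = α * coord r g u + β * coord r g v → False := by
    intro r g hg hr u v w huv hwu hwv α β hα hβ hαβ h
    have h5 : coord r g u < coord r g v := coord_lt r g hg (by omega)
    have hne1 : r w ≠ r u := fun h => hwu (hr h)
    have hne2 : r w ≠ r v := fun h => hwv (hr h)
    rcases lt_or_gt_of_ne hne1 with h6 | h6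
    · have h7 := coord_lt r g hg h6
      have h8 : coord r g u ≤ α * coord r g u + β * coord r g v := by
        have : α = 1 - β := by linarith
        subst this
        nlinarith
      linarith
    · have h9 : r v < r w := by omega
      have h7 := coord_lt r g hg h9
      have h8 : α * coord r g u + β * coord r g v ≤ coord r g v := by
        have : β = 1 - α := by linarith
        subst this
        nlinarith
      linarith
  refine ⟨f, hinj, ?_, palette δ q, palette_card δ q hq, ?_⟩
  · intro u v w hadj hwu hwv hseg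
    obtain ⟨α, β, hα, hβ, hαβ, hseg⟩ := hseg
    have hx : coord a ξ w = α * coord a ξ u + β * coord a ξ v := by
      have := congrArg Prod.fst hseg
      simpa [hf] using this.symm
    have hy : coord b η w = α * coord b η u + β * coord b η v := by
      have := congrArg Prod.snd hseg
      simpa [hf] using this.symm
    rcases hG u v hadj with h | h
    · rcases hF₁ u v h with h5 | h5
      · exact nov b η hη hb u v w h5 hwu hwv α β hα hβ hαβ hy
      · exact nov b η hη hb v u w h5 hwv hwu β α hβ hα (by linarith) (by linarith)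
    · rcases hF₂ u v h with h5 | h5
      · exact nov a ξ hξ ha u v w h5 hwu hwv α β hα hβ hαβ hx
      · exact nov a ξ hξ ha v u w h5 hwv hwu β α hβ hα (by linarith) (by linarith)
  · -- slopes
    have sl1 : ∀ u v, F₁.Adj u v → b v = b u + 1 →
        ∃ d ∈ palette δ q, ∃ t : ℝ, f v - f u = t • d := by
      intro u v h h5
      have hY : coord b η v - coord b η u = η u := coord_next b hb η h5
      have hfe : f v - f u = (coord a ξ v - coord a ξ u, coord b η v - coord b η u) := rfl
      by_cases hc : CH u v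
      · have h6 := h3 u v h5 hc
        obtain ⟨t, ht⟩ := slope_aux (coord a ξ v - coord a ξ u) (coord b η v - coord b η u) δ
          (by rw [hY, h6, abs_sub_comm])
        rcases ht with ht | ht
        · exact ⟨(1, δ), by unfold palette; simp, t, by rw [hfe]; exact ht⟩
        · exact ⟨(1, -δ), by unfold palette; simp, t, by rw [hfe]; exact ht⟩
      · have hex : ∃ Q, T Q ∧ u ∈ Q ∧ v ∈ Q := by
          by_contra hne
          exact hc ⟨h, hne⟩
        obtain ⟨Q, hTQ, huQ, hvQ⟩ := hex
        have hη1 : η u = 1 := gapb Q hTQ u huQ v hvQ h5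
        have hQq := ht Q hTQ.1 hTQ.2.1 hTQ.2.2
        rcases lt_trichotomy (a u) (a v) with hlt | heq | hlt
        · obtain ⟨h7, h8⟩ := tight_gap a ha ξ F₂.Adj Q hTQ.2.1 (gapa Q hTQ) huQ hvQ hlt
          refine ⟨(((a v - a u : ℕ) : ℝ), 1), ?_, 1, ?_⟩
          · unfold palette
            rw [mem_union]; right
            rw [mem_biUnion]
            exact ⟨a v - a u, by rw [mem_Ico]; omega, by simp⟩
          · rw [hfe, h7, hY, hη1, one_smul]
        · exact absurd (ha heq) (by rintro rfl; omega)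
        · obtain ⟨h7, h8⟩ := tight_gap a ha ξ F₂.Adj Q hTQ.2.1 (gapa Q hTQ) hvQ huQ hlt
          refine ⟨(((a u - a v : ℕ) : ℝ), -1), ?_, -1, ?_⟩
          · unfold palette
            rw [mem_union]; right
            rw [mem_biUnion]
            exact ⟨a u - a v, by rw [mem_Ico]; omega, by simp⟩
          · have h9 : coord a ξ v - coord a ξ u = -(((a u - a v : ℕ) : ℝ)) := by
              rw [← h7]; ring
            rw [hfe, h9, hY, hη1]
            simp
    have sl2 : ∀ u v, F₂.Adj u v → a v = a u + 1 →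
        ∃ d ∈ palette δ q, ∃ t : ℝ, f v - f u = t • d := by
      intro u v h h5
      have hX : coord a ξ v - coord a ξ u = ξ u := coord_next a ha ξ h5
      have hfe : f v - f u = (coord a ξ v - coord a ξ u, coord b η v - coord b η u) := rfl
      by_cases hc : CV u v
      · have h6 := h1 u v h5 hc
        obtain ⟨t, ht⟩ := slope_aux' (coord a ξ v - coord a ξ u) (coord b η v - coord b η u) δ
          (by rw [hX, h6, abs_sub_comm])
        rcases ht with ht | ht
        · exact ⟨(δ, 1), by unfold palette; simp, t, by rw [hfe]; exact ht⟩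
        · exact ⟨(-δ, 1), by unfold palette; simp, t, by rw [hfe]; exact ht⟩
      · have hex : ∃ Q, T Q ∧ u ∈ Q ∧ v ∈ Q := by
          by_contra hne
          exact hc ⟨h, hne⟩
        obtain ⟨Q, hTQ, huQ, hvQ⟩ := hex
        have hξ1 : ξ u = 1 := gapa Q hTQ u huQ v hvQ h5
        have hQq := ht Q hTQ.1 hTQ.2.1 hTQ.2.2
        rcases lt_trichotomy (b u) (b v) with hlt | heq | hlt
        · obtain ⟨h7, h8⟩ := tight_gap b hb η F₁.Adj Q hTQ.2.2 (gapb Q hTQ) huQ hvQ hlt
          refine ⟨(1, ((b v - b u : ℕ) : ℝ)), ?_, 1, ?_⟩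
          · unfold palette
            rw [mem_union]; right
            rw [mem_biUnion]
            exact ⟨b v - b u, by rw [mem_Ico]; omega, by simp⟩
          · rw [hfe, h7, hX, hξ1, one_smul]
        · exact absurd (hb heq) (by rintro rfl; omega)
        · obtain ⟨h7, h8⟩ := tight_gap b hb η F₁.Adj Q hTQ.2.2 (gapb Q hTQ) hvQ huQ hlt
          refine ⟨(1, -((b u - b v : ℕ) : ℝ)), ?_, 1, ?_⟩
          · unfold palette
            rw [mem_union]; right
            rw [mem_biUnion]
            exact ⟨b u - b v, by rw [mem_Ico]; omega, by simp⟩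
          · have h9 : coord b η v - coord b η u = -(((b u - b v : ℕ) : ℝ)) := by
              rw [← h7]; ring
            rw [hfe, h9, hX, hξ1]
            simp
    have rev : ∀ u v, (∃ d ∈ palette δ q, ∃ t : ℝ, f u - f v = t • d) →
        ∃ d ∈ palette δ q, ∃ t : ℝ, f v - f u = t • d := by
      rintro u v ⟨d, hd, t, h⟩
      exact ⟨d, hd, -t, by rw [neg_smul, ← h]; simp⟩
    intro u v hadj
    rcases hG u v hadj with h | h
    · rcases hF₁ u v h with h5 | h5
      · exact sl1 u v h h5
      · exact rev u v (sl1 v u h.symm h5)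
    · rcases hF₂ u v h with h5 | h5
      · exact sl2 u v h h5
      · exact rev u v (sl2 v u h.symm h5)

end Pool.Agent.Lib.MP_04668c_co
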