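import Pool.Agent.Lib.MP_04668c_co.Rep

/-!
# The forbidden forces are not ignored
-/

set_option autoImplicit false
set_option linter.unusedSectionVars false

namespace Pool.Agent.Lib.MP_04668c_co

open Finset Classical Module

variable {V X C : Type} [Fintype V] [Fintype X] [Fintype C]

theorem conn_insert (B : X → Finset V) (K : Finset X) (hK : Conn (adjB B) K) (x₀ : X)
    (h : ∃ x ∈ K, ∃ v, v ∈ B x₀ ∧ v ∈ B x) : Conn (adjB B) (insert x₀ K) := by
  by_cases hx₀ : x₀ ∈ K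
  · rw [Finset.insert_eq_of_mem hx₀]; exact hK
  obtain ⟨x, hx, v, hv₀, hv⟩ := h
  intro Y hY hYne hYK
  by_cases hxY : x₀ ∈ Y
  · -- `x₀ ∈ Y`
    by_cases hxY' : x ∈ Y
    · by_cases hsub : K ⊆ Y
      · exact absurd (Finset.Subset.antisymm hY (Finset.insert_subset hxY hsub)) hYK
      · obtain ⟨y, hy, z, hz, hzY, hyz⟩ := hK (Y ∩ K) Finset.inter_subset_right
          ⟨x, Finset.mem_inter.mpr ⟨hxY', hx⟩⟩ (fun h => hsub (by
            intro z hz
            rw [← h] at hz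
            exact (Finset.mem_inter.mp hz).1))
        exact ⟨y, (Finset.mem_inter.mp hy).1, z, Finset.mem_insert_of_mem hz,
          fun h => hzY (Finset.mem_inter.mpr ⟨h, hz⟩), hyz⟩
    · exact ⟨x₀, hxY, x, Finset.mem_insert_of_mem hx, hxY', v, hv₀, hv⟩
  · have hYK' : Y ⊆ K := by
      intro y hy
      rcases Finset.mem_insert.mp (hY hy) with h | h
      · exact absurd (h ▸ hy) hxY
      · exact h
    by_cases hYeq : Y = K
    · exact ⟨x, hYeq ▸ hx, x₀, Finset.mem_insert_self _ _, hxY, v, hv, hv₀⟩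
    · obtain ⟨y, hy, z, hz, hzY, hyz⟩ := hK Y hYK' hYne hYeq
      exact ⟨y, hy, z, Finset.mem_insert_of_mem hz, hzY, hyz⟩

/-- The property of the colouring from `exists_good`. -/
def GoodCol (B : X → Finset V) (q : C → X → V → ℝ × ℝ) (c : X → C) : Prop :=
  ∀ (τ : Fin 4) (x₀ : X) (u v w : V) (K : Finset X),
      Conn (adjB B) K → K.Nonempty → (τ.val < 2 → K ≠ {x₀}) →
      (2 ≤ τ.val → 2 ≤ K.card ∧ x₀ ∈ K) → Conn (adjB B) (insert x₀ K) →
      u ∈ vs B (insert x₀ K) → v ∈ vs B (insert x₀ K) → w ∈ vs B (insert x₀ K) →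
      ¬ HasRel B q K (Pf q τ x₀ u v w (c x₀)) c

theorem mem_vs_of_ne (B : X → Finset V) (K : Finset X) (Φ : X → V → ℝ × ℝ) (hΦ : Φ ∈ famK B K)
    (z : V) (hz : sumMap Φ z ≠ 0) : z ∈ vs B K := by
  rw [sumMap_apply, Finset.sum_apply] at hz
  obtain ⟨x, -, hx⟩ := Finset.exists_ne_zero_of_sum_ne_zero hz
  rw [mem_vs]
  refine ⟨x, ?_, ?_⟩
  · by_contra h
    exact hx (by rw [hΦ.1 x h]; rfl)
  · by_contra h
    exact hx (hΦ.2.1 x z h)

theorem sumMap_single (B : X → Finset V) (x : X) (Φ : X → V → ℝ × ℝ) (hΦ : Φ ∈ famK B {x}) :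
    sumMap Φ = Φ x := by
  rw [sumMap_apply]
  refine Finset.sum_eq_single x (fun y _ hy => hΦ.1 y (by simpa using hy)) ?_
  intro h; exact absurd (mem_univ _) h

theorem ip_dip (p : V → ℝ × ℝ) (u v : V) (n : ℝ × ℝ) :
    ip p (dip u v n) = n.1 * ((p u).1 - (p v).1) + n.2 * ((p u).2 - (p v).2) := by
  rw [ip_apply]
  have h : ∀ z, (dip u v n z).1 * (p z).1 + (dip u v n z).2 * (p z).2 =
      (if z = u then n.1 * (p u).1 + n.2 * (p u).2 else 0) -
      (if z = v then n.1 * (p v).1 + n.2 * (p v).2 else 0) := by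
    intro z
    unfold dip
    by_cases hu : z = u <;> by_cases hv : z = v
    · subst hu; subst hv; simp
    · subst hu; simp [hv]
    · subst hv; simp [hu]; ring
    · simp [hu, hv]
  rw [Finset.sum_congr rfl (fun z _ => h z), Finset.sum_sub_distrib, Finset.sum_ite_eq',
    Finset.sum_ite_eq', if_pos (mem_univ _), if_pos (mem_univ _)]
  ring

theorem ip_tri (p : V → ℝ × ℝ) (u v w : V) (n : ℝ × ℝ) :
    ip p (triL u v w n) = n.1 * ((p u).1 - (p v).1) + n.2 * ((p w).1 - (p v).1) := by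
  have h : triL u v w n = dip u v (n.1, 0) + dip w v (n.2, 0) := rfl
  rw [h, map_add, ip_dip, ip_dip]
  simp

theorem ne_zero_of_sq {f : ℝ × ℝ} (hf : f ≠ 0) : f.1 * f.1 + f.2 * f.2 ≠ 0 := by
  intro h
  apply hf
  have h1 : f.1 = 0 := by nlinarith [mul_self_nonneg f.1, mul_self_nonneg f.2]
  have h2 : f.2 = 0 := by nlinarith [mul_self_nonneg f.1, mul_self_nonneg f.2]
  exact Prod.ext h1 h2

theorem test1 (B : X → Finset V) (q : C → X → V → ℝ × ℝ) (c : X → C) (hc : GoodCol B q c)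
    (hinj : ∀ i x u v, u ∈ B x → v ∈ B x → u ≠ v → q i x u ≠ q i x v)
    (x₀ : X) (u v : V) (hu : u ∈ B x₀) (hv : v ∈ B x₀) (huv : u ≠ v) :
    dip u v (q (c x₀) x₀ u - q (c x₀) x₀ v) ∉ spA B q c := by
  intro hA
  set f := q (c x₀) x₀ u - q (c x₀) x₀ v with hf
  have hf0 : f ≠ 0 := sub_ne_zero.mpr (hinj _ _ _ _ hu hv huv)
  obtain ⟨K, Φ, hK, hΦ, hnz, hz, hsum⟩ := conn_rep B q c _ (indec_dip u v f) hA
  have huK : u ∈ vs B K := by
    refine mem_vs_of_ne B K Φ hΦ u ?_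
    rw [hsum]; simp [dip, huv, hf0]
  have huK' := huK
  rw [mem_vs] at huK'
  obtain ⟨x, hx, hux⟩ := huK'
  have hne : K ≠ {x₀} := by
    intro h
    rw [h] at hΦ hz
    have h1 := hz x₀ (Finset.mem_singleton_self _)
    rw [← sumMap_single B x₀ Φ hΦ, hsum, ip_dip] at h1
    apply ne_zero_of_sq hf0
    rw [hf]; exact h1
  have hsub : vs B K ⊆ vs B (insert x₀ K) :=
    Finset.biUnion_subset_biUnion_of_subset_left _ (Finset.subset_insert _ _)
  have hv' : v ∈ vs B (insert x₀ K) := by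
    rw [mem_vs]; exact ⟨x₀, Finset.mem_insert_self _ _, hv⟩
  refine hc 0 x₀ u v u K hK ⟨x, hx⟩ (fun _ => hne) (fun h => absurd h (by decide))
    (conn_insert B K hK x₀ ⟨x, hx, u, hu, hux⟩) (hsub huK) hv' (hsub huK) ⟨Φ, ⟨hΦ, ?_⟩, hnz, hz⟩
  show sumMap Φ ∈ Pf q 0 x₀ u v u (c x₀)
  rw [hsum]
  simp only [Pf, if_true]
  exact Submodule.mem_span_singleton_self _

theorem test2 (B : X → Finset V) (q : C → X → V → ℝ × ℝ) (c : X → C) (hc : GoodCol B q c)
    (hinj : ∀ i x u v, u ∈ B x → v ∈ B x → u ≠ v → q i x u ≠ q i x v)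
    (hgen : ∀ i x u v w, u ∈ B x → v ∈ B x → w ∈ B x → u ≠ v → w ≠ u → w ≠ v →
      (q i x u - q i x v).1 * ((q i x w).2 - (q i x u).2) -
        (q i x u - q i x v).2 * ((q i x w).1 - (q i x u).1) ≠ 0)
    (x₀ : X) (u v w : V) (hu : u ∈ B x₀) (hv : v ∈ B x₀) (huv : u ≠ v) (hwu : w ≠ u)
    (hwv : w ≠ v) :
    dip w u (perp (q (c x₀) x₀ u - q (c x₀) x₀ v)) ∉ spA B q c := by
  intro hA
  set f := q (c x₀) x₀ u - q (c x₀) x₀ v with hf
  have hf0 : f ≠ 0 := sub_ne_zero.mpr (hinj _ _ _ _ hu hv huv)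
  have hpf0 : perp f ≠ 0 := by
    intro h
    apply hf0
    have h1 := congrArg Prod.fst h
    have h2 := congrArg Prod.snd h
    simp only [perp, Prod.fst_zero, Prod.snd_zero, neg_eq_zero] at h1 h2
    exact Prod.ext h2 h1
  obtain ⟨K, Φ, hK, hΦ, hnz, hz, hsum⟩ := conn_rep B q c _ (indec_dip w u (perp f)) hA
  have huK : u ∈ vs B K := by
    refine mem_vs_of_ne B K Φ hΦ u ?_
    rw [hsum]; simp [dip, hwu.symm, hpf0]
  have hwK : w ∈ vs B K := by
    refine mem_vs_of_ne B K Φ hΦ w ?_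
    rw [hsum]; simp [dip, hwu, hpf0]
  have huK' := huK
  rw [mem_vs] at huK'
  obtain ⟨x, hx, hux⟩ := huK'
  have hne : K ≠ {x₀} := by
    intro h
    rw [h] at hΦ hz hwK
    have hwB : w ∈ B x₀ := by
      rw [mem_vs] at hwK
      obtain ⟨y, hy, hwy⟩ := hwK
      rw [Finset.mem_singleton] at hy
      exact hy ▸ hwy
    have h1 := hz x₀ (Finset.mem_singleton_self _)
    rw [← sumMap_single B x₀ Φ hΦ, hsum, ip_dip] at h1
    apply hgen (c x₀) x₀ u v w hu hv hwB huv hwu hwv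
    rw [← hf]
    simp only [perp] at h1
    linarith
  have hsub : vs B K ⊆ vs B (insert x₀ K) :=
    Finset.biUnion_subset_biUnion_of_subset_left _ (Finset.subset_insert _ _)
  have hv' : v ∈ vs B (insert x₀ K) := by
    rw [mem_vs]; exact ⟨x₀, Finset.mem_insert_self _ _, hv⟩
  refine hc 1 x₀ u v w K hK ⟨x, hx⟩ (fun _ => hne) (fun h => absurd h (by decide))
    (conn_insert B K hK x₀ ⟨x, hx, u, hu, hux⟩) (hsub huK) hv' (hsub hwK) ⟨Φ, ⟨hΦ, ?_⟩, hnz, hz⟩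
  show sumMap Φ ∈ Pf q 1 x₀ u v w (c x₀)
  rw [hsum]
  simp only [Pf, if_true, one_ne_zero, if_false]
  exact Submodule.mem_span_singleton_self _

theorem test3 (B : X → Finset V) (q : C → X → V → ℝ × ℝ) (c : X → C) (hc : GoodCol B q c)
    (u v : V) (huv : u ≠ v) (hno : ∀ x, ¬ (u ∈ B x ∧ v ∈ B x)) (n : ℝ × ℝ) (hn : n ≠ 0) :
    dip u v n ∉ spA B q c := by
  intro hA
  obtain ⟨K, Φ, hK, hΦ, hnz, hz, hsum⟩ := conn_rep B q c _ (indec_dip u v n) hA
  have huK : u ∈ vs B K := by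
    refine mem_vs_of_ne B K Φ hΦ u ?_
    rw [hsum]; simp [dip, huv, hn]
  have hvK : v ∈ vs B K := by
    refine mem_vs_of_ne B K Φ hΦ v ?_
    rw [hsum]; simp [dip, huv.symm, hn]
  have huK' := huK
  have hvK' := hvK
  rw [mem_vs] at huK' hvK'
  obtain ⟨x, hx, hux⟩ := huK'
  obtain ⟨y, hy, hvy⟩ := hvK'
  have hxy : x ≠ y := fun h => hno x ⟨hux, h ▸ hvy⟩
  have hcard : 2 ≤ K.card := Finset.one_lt_card.mpr ⟨x, hx, y, hy, hxy⟩
  have hins : insert x K = K := Finset.insert_eq_of_mem hx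
  refine hc 2 x u v u K hK ⟨x, hx⟩ (fun h => absurd h (by decide)) (fun _ => ⟨hcard, hx⟩)
    (by rw [hins]; exact hK) (by rw [hins]; exact huK) (by rw [hins]; exact hvK)
    (by rw [hins]; exact huK) ⟨Φ, ⟨hΦ, ?_⟩, hnz, hz⟩
  show sumMap Φ ∈ Pf q 2 x u v u (c x)
  rw [hsum]
  have h0 : (2 : Fin 4) ≠ 0 := by decide
  have h1 : (2 : Fin 4) ≠ 1 := by decide
  simp only [Pf, if_neg h0, if_neg h1, if_true]
  exact ⟨n, rfl⟩

theorem test4 (B : X → Finset V) (q : C → X → V → ℝ × ℝ) (c : X → C) (hc : GoodCol B q c)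
    (u v w : V) (huv : u ≠ v) (hwu : w ≠ u) (hwv : w ≠ v)
    (hno : ∀ x, ¬ (u ∈ B x ∧ v ∈ B x)) (n : ℝ × ℝ)
    (h1 : n.1 ≠ 0) (h2 : n.2 ≠ 0) (h3 : n.1 + n.2 ≠ 0) :
    triL u v w n ∉ spA B q c := by
  intro hA
  obtain ⟨K, Φ, hK, hΦ, hnz, hz, hsum⟩ := conn_rep B q c _ (indec_tri u v w n h1 h2 h3) hA
  have huK : u ∈ vs B K := by
    refine mem_vs_of_ne B K Φ hΦ u ?_
    rw [hsum, triL_apply]
    simp [huv, hwu.symm, h1]
  have hwK : w ∈ vs B K := by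
    refine mem_vs_of_ne B K Φ hΦ w ?_
    rw [hsum, triL_apply]
    simp [hwv, hwu, h2]
  have hvK : v ∈ vs B K := by
    refine mem_vs_of_ne B K Φ hΦ v ?_
    rw [hsum, triL_apply]
    simp only [huv.symm, hwv.symm, if_false, if_true, zero_sub]
    intro h
    apply h3
    have := congrArg Prod.fst h
    simp only [Prod.fst_add, Prod.fst_neg, Prod.fst_zero] at this
    linarith
  have huK' := huK
  have hvK' := hvK
  rw [mem_vs] at huK' hvK'
  obtain ⟨x, hx, hux⟩ := huK'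
  obtain ⟨y, hy, hvy⟩ := hvK'
  have hxy : x ≠ y := fun h => hno x ⟨hux, h ▸ hvy⟩
  have hcard : 2 ≤ K.card := Finset.one_lt_card.mpr ⟨x, hx, y, hy, hxy⟩
  have hins : insert x K = K := Finset.insert_eq_of_mem hx
  refine hc 3 x u v w K hK ⟨x, hx⟩ (fun h => absurd h (by decide)) (fun _ => ⟨hcard, hx⟩)
    (by rw [hins]; exact hK) (by rw [hins]; exact huK) (by rw [hins]; exact hvK)
    (by rw [hins]; exact hwK) ⟨Φ, ⟨hΦ, ?_⟩, hnz, hz⟩
  show sumMap Φ ∈ Pf q 3 x u v w (c x)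
  rw [hsum]
  have h0 : (3 : Fin 4) ≠ 0 := by decide
  have h1 : (3 : Fin 4) ≠ 1 := by decide
  have h2 : (3 : Fin 4) ≠ 2 := by decide
  simp only [Pf, if_neg h0, if_neg h1, if_neg h2]
  exact ⟨n, rfl⟩

end Pool.Agent.Lib.MP_04668c_co
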