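import Mathlib

/-!
# Linear forests are subgraphs of Hamiltonian paths
-/

set_option autoImplicit false

namespace Pool.Agent.Lib.MP_04668c_co

open Finset Classical

/-- A finite nonempty acyclic graph has a vertex of degree at most one. -/
theorem exists_leaf {W : Type} [Fintype W] [Nonempty W] (G : SimpleGraph W) (h : G.IsAcyclic) :
    ∃ v : W, (univ.filter (fun u => G.Adj v u)).card ≤ 1 := by
  rcases subsingleton_or_nontrivial W with hW | hW
  · obtain ⟨v⟩ := ‹Nonempty W›
    refine ⟨v, ?_⟩
    refine (Finset.card_le_univ _).trans ?_
    exact Fintype.card_le_one_iff_subsingleton.mpr hW
  · obtain ⟨T, hGT, -, hT⟩ := (SimpleGraph.connected_top (V := W)).exists_isTree_le_of_le_of_isAcyclic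
      (le_top : G ≤ ⊤) h
    obtain ⟨v, hv⟩ := hT.exists_vert_degree_one_of_nontrivial
    refine ⟨v, ?_⟩
    rw [← hv, ← SimpleGraph.card_neighborFinset_eq_degree]
    refine Finset.card_le_card ?_
    intro u hu
    simp only [mem_filter, mem_univ, true_and] at hu
    rw [SimpleGraph.mem_neighborFinset]
    exact hGT hu

/-- The vertices of a linear forest can be numbered so that adjacent vertices have consecutive
numbers. -/
theorem linear_forest_rank {V : Type} [Fintype V] (F : SimpleGraph V) (h : F.IsAcyclic)
    (hdeg : ∀ v, (univ.filter (fun u => F.Adj v u)).card ≤ 2) :
    ∃ r : V → ℕ, Function.Injective r ∧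
      ∀ u v, F.Adj u v → r v = r u + 1 ∨ r u = r v + 1 := by
  have main : ∀ (m : ℕ) (T : Finset V), T.card = m → ∃ r : V → ℕ, Function.Injective r ∧
      ∀ u ∈ T, ∀ v ∈ T, F.Adj u v → r v = r u + 1 ∨ r u = r v + 1 := by
    intro m
    induction m with
    | zero =>
      intro T hT
      rw [Finset.card_eq_zero] at hT
      subst hT
      exact ⟨fun v => ((Fintype.equivFin V) v).val, fun u v huv =>
        (Fintype.equivFin V).injective (Fin.ext huv), by simp⟩
    | succ m ih =>
      intro T hT
      have hne : T.Nonempty := Finset.card_pos.mp (by omega)
      have : Nonempty (T : Set V) := ⟨⟨hne.choose, hne.choose_spec⟩⟩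
      obtain ⟨⟨v, hvT⟩, hv⟩ := exists_leaf (F.induce (T : Set V)) (h.induce _)
      have hvT : v ∈ T := hvT
      -- neighbours of `v` in `T`
      have hvn : (T.filter (fun u => F.Adj v u)).card ≤ 1 := by
        refine le_trans ?_ hv
        refine Finset.card_le_card_of_injOn
          (fun u => if hu : u ∈ T then ⟨u, hu⟩ else ⟨v, hvT⟩) ?_ ?_
        · intro u hu
          rw [Finset.mem_coe, mem_filter] at hu
          simp only [hu.1, dif_pos, coe_filter, mem_univ, true_and]
          simpa using hu.2
        · intro u hu w hw huw
          rw [Finset.mem_coe, mem_filter] at hu hw
          simp only [hu.1, hw.1, dif_pos] at huw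
          exact congrArg Subtype.val huw
      obtain ⟨r, hr, hrT⟩ := ih (T.erase v) (by rw [Finset.card_erase_of_mem hvT]; omega)
      rcases Nat.lt_or_ge (T.filter (fun u => F.Adj v u)).card 1 with h0 | h1
      · -- no neighbour
        have hnone : ∀ u ∈ T, ¬ F.Adj v u := by
          intro u hu hadj
          have : u ∈ T.filter (fun u => F.Adj v u) := by rw [mem_filter]; exact ⟨hu, hadj⟩
          rw [Finset.card_eq_zero.mp (by omega : (T.filter (fun u => F.Adj v u)).card = 0)] at this
          simp at this
        refine ⟨r, hr, ?_⟩
        intro x hx y hy hxy
        by_cases hxv : x = v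
        · subst hxv; exact absurd hxy (hnone y hy)
        · by_cases hyv : y = v
          · subst hyv; exact absurd hxy.symm (hnone x hx)
          · exact hrT x (Finset.mem_erase.mpr ⟨hxv, hx⟩) y (Finset.mem_erase.mpr ⟨hyv, hy⟩) hxy
      · obtain ⟨w, hw⟩ := Finset.card_eq_one.mp (le_antisymm hvn h1)
        have hwm : w ∈ T ∧ F.Adj v w := by
          have : w ∈ T.filter (fun u => F.Adj v u) := by rw [hw]; simp
          rwa [mem_filter] at this
        have honly : ∀ u ∈ T, F.Adj v u → u = w := by
          intro u hu hadj
          have : u ∈ T.filter (fun u => F.Adj v u) := by rw [mem_filter]; exact ⟨hu, hadj⟩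
          rw [hw] at this
          simpa using this
        -- `w` has at most one further neighbour
        have hwn : ∀ y z, F.Adj w y → F.Adj w z → y ≠ v → z ≠ v → y = z := by
          intro y z hy hz hyv hzv
          by_contra hyz
          have hsub : ({v, y, z} : Finset V) ⊆ univ.filter (fun u => F.Adj w u) := by
            intro u hu
            simp only [mem_insert, mem_singleton] at hu
            simp only [mem_filter, mem_univ, true_and]
            rcases hu with rfl | rfl | rfl
            · exact hwm.2.symm
            · exact hy
            · exact hz
          have hc := (Finset.card_le_card hsub).trans (hdeg w)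
          rw [Finset.card_eq_three.mpr ⟨v, y, z, Ne.symm hyv, Ne.symm hzv, hyz, rfl⟩] at hc
          omega
        have hvw : v ≠ w := hwm.2.ne
        by_cases hside : ∃ y, F.Adj w y ∧ y ≠ v ∧ r y = r w + 1
        · -- insert `v` just before `w`
          obtain ⟨y, hwy, hyv, hry⟩ := hside
          refine ⟨fun x => if x = v then r w else if r w ≤ r x then r x + 1 else r x, ?_, ?_⟩
          · intro x z hxz
            simp only at hxz
            by_cases hx : x = v
            · by_cases hz : z = v
              · rw [hx, hz]
              · rw [if_pos hx, if_neg hz] at hxz
                split_ifs at hxz <;> omega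
            · by_cases hz : z = v
              · rw [if_neg hx, if_pos hz] at hxz
                split_ifs at hxz <;> omega
              · rw [if_neg hx, if_neg hz] at hxz
                apply hr
                split_ifs at hxz <;> omega
          · intro x hx z hz hxz
            simp only
            by_cases hxv : x = v
            · subst hxv
              have := honly z hz hxz
              subst this
              rw [if_pos rfl, if_neg (Ne.symm hvw), if_pos le_rfl]
              omega
            · by_cases hzv : z = v
              · subst hzv
                have := honly x hx hxz.symm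
                subst this
                rw [if_pos rfl, if_neg (Ne.symm hvw), if_pos le_rfl]
                omega
              · rw [if_neg hxv, if_neg hzv]
                have h5 := hrT x (Finset.mem_erase.mpr ⟨hxv, hx⟩) z
                  (Finset.mem_erase.mpr ⟨hzv, hz⟩) hxz
                -- the broken pair is `(y', w)` with `r w = r y' + 1`
                have h6 : ∀ x z, F.Adj x z → x ≠ v → r z = r x + 1 → z = w → False := by
                  intro x z hxz hxv h7 h8
                  subst h8
                  have := hwn x y hxz.symm hwy hxv hyv
                  subst this
                  omega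
                have h7 : ∀ z, r z = r w → z = w := fun z hz => hr hz
                rcases h5 with h5 | h5
                · have : r z ≠ r w := fun h8 => h6 x z hxz hxv h5 (h7 z h8)
                  split_ifs <;> omega
                · have : r x ≠ r w := fun h8 => h6 z x hxz.symm hzv h5 (h7 x h8)
                  split_ifs <;> omega
        · -- insert `v` just after `w`
          refine ⟨fun x => if x = v then r w + 1 else if r w < r x then r x + 1 else r x, ?_, ?_⟩
          · intro x z hxz
            simp only at hxz
            by_cases hx : x = v
            · by_cases hz : z = v
              · rw [hx, hz]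
              · rw [if_pos hx, if_neg hz] at hxz
                split_ifs at hxz <;> omega
            · by_cases hz : z = v
              · rw [if_neg hx, if_pos hz] at hxz
                split_ifs at hxz <;> omega
              · rw [if_neg hx, if_neg hz] at hxz
                apply hr
                split_ifs at hxz <;> omega
          · intro x hx z hz hxz
            simp only
            by_cases hxv : x = v
            · subst hxv
              have := honly z hz hxz
              subst this
              rw [if_pos rfl, if_neg (Ne.symm hvw), if_neg (lt_irrefl _)]
              omega
            · by_cases hzv : z = v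
              · subst hzv
                have := honly x hx hxz.symm
                subst this
                rw [if_pos rfl, if_neg (Ne.symm hvw), if_neg (lt_irrefl _)]
                omega
              · rw [if_neg hxv, if_neg hzv]
                have h5 := hrT x (Finset.mem_erase.mpr ⟨hxv, hx⟩) z
                  (Finset.mem_erase.mpr ⟨hzv, hz⟩) hxz
                have h6 : ∀ x z, F.Adj x z → z ≠ v → r z = r x + 1 → x = w → False := by
                  intro x z hxz hzv h7 h8
                  subst h8
                  exact hside ⟨z, hxz, hzv, h7⟩
                have h7 : ∀ z, r z = r w → z = w := fun z hz => hr hz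
                rcases h5 with h5 | h5
                · have : r x ≠ r w := fun h8 => h6 x z hxz hzv h5 (h7 x h8)
                  split_ifs <;> omega
                · have : r z ≠ r w := fun h8 => h6 z x hxz.symm hxv h5 (h7 z h8)
                  split_ifs <;> omega
  obtain ⟨r, hr, hr'⟩ := main _ univ rfl
  exact ⟨r, hr, fun u v huv => hr' u (mem_univ u) v (mem_univ v) huv⟩

end Pool.Agent.Lib.MP_04668c_co
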