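import Pool.Agent.Lib.MP_04668c_co.Rules

/-!
# Existence of a good colouring
-/

set_option autoImplicit false
set_option linter.unusedSectionVars false

namespace Pool.Agent.Lib.MP_04668c_co

open Finset Classical Module

variable {V X C : Type} [Fintype V] [Fintype X] [Fintype C]

theorem failSet_congr {M : Type} [AddCommGroup M] [Module ℝ M] (ord : X → ℕ)
    (lam : X → C → (M →ₗ[ℝ] ℝ)) (D₀ : Submodule ℝ M) (T : Finset X) (c c' : X → C)
    (h : ∀ x ∈ T, c x = c' x) : failSet ord lam D₀ T c = failSet ord lam D₀ T c' := by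
  unfold failSet
  refine Finset.filter_congr (fun x hx => ?_)
  have h1 : dlt ord lam D₀ T c x = dlt ord lam D₀ T c' x := by
    unfold dlt
    congr 1
    refine iInf_congr (fun y => iInf_congr (fun hy => ?_))
    rw [h y (Finset.mem_filter.mp hy).1]
  rw [h1, h x hx]

/-- The constant of the counting argument. -/
def Zc (b₀ δ : ℕ) : ℕ := 256 * b₀ ^ 3 * (2 ^ (1 + δ) * 2)

theorem count_aux (b₀ k m : ℕ) (hb : 1 ≤ b₀) (hk : 1 ≤ k) (hm : m ≤ b₀ * k) :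
    2 ^ k * (k * (m * (m * (m * (4 * 2 ^ k))))) ≤ (256 * b₀ ^ 3) ^ k := by
  have h1 : k ≤ 2 ^ k := Nat.lt_two_pow_self.le
  have h2 : m * (m * (m * (4 * 2 ^ k))) ≤ (b₀ * k) * ((b₀ * k) * ((b₀ * k) * (4 * 2 ^ k))) := by
    gcongr
  have h3 : 2 ^ k * (k * (m * (m * (m * (4 * 2 ^ k))))) ≤
      2 ^ k * (k * ((b₀ * k) * ((b₀ * k) * ((b₀ * k) * (4 * 2 ^ k))))) := by
    gcongr
  refine h3.trans ?_
  have h4 : 2 ^ k * (k * ((b₀ * k) * ((b₀ * k) * ((b₀ * k) * (4 * 2 ^ k))))) =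
      4 * b₀ ^ 3 * (k ^ 4) * (2 ^ k * 2 ^ k) := by ring
  rw [h4]
  have h5 : k ^ 4 ≤ (2 ^ k) ^ 4 := Nat.pow_le_pow_left h1 4
  have h6 : (4 : ℕ) ≤ 4 ^ k := by
    calc 4 = 4 ^ 1 := by norm_num
      _ ≤ 4 ^ k := Nat.pow_le_pow_right (by norm_num) hk
  have h7 : b₀ ^ 3 ≤ (b₀ ^ 3) ^ k := by
    calc b₀ ^ 3 = (b₀ ^ 3) ^ 1 := by ring
      _ ≤ (b₀ ^ 3) ^ k := Nat.pow_le_pow_right (Nat.pow_pos hb) hk
  calc 4 * b₀ ^ 3 * (k ^ 4) * (2 ^ k * 2 ^ k)
      ≤ 4 ^ k * (b₀ ^ 3) ^ k * ((2 ^ k) ^ 4) * (2 ^ k * 2 ^ k) := by gcongr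
    _ = (256 * b₀ ^ 3) ^ k := by
        have e1 : (256 : ℕ) = 4 * (2 ^ 4) * (2 * 2) := by norm_num
        rw [e1, mul_pow, mul_pow, mul_pow, mul_pow, ← pow_mul, ← pow_mul, ← pow_mul]
        ring

/-- Indices of rules. -/
abbrev Idx (X V : Type) : Type :=
  Finset X × (Finset X × (X × (V × (V × (V × (Fin 4 × Finset X))))))

/-- Valid rules. -/
def ValidIdx (B : X → Finset V) (L : ℕ) (i : Idx X V) : Prop :=
  Conn (adjB B) i.1 ∧ i.1.Nonempty ∧ i.2.1 ⊆ i.1 ∧ i.2.2.1 ∈ i.1 ∧ i.2.2.2.1 ∈ vs B i.1 ∧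
    i.2.2.2.2.1 ∈ vs B i.1 ∧ i.2.2.2.2.2.1 ∈ vs B i.1 ∧ i.2.2.2.2.2.2.2 ⊆ i.1 ∧
    i.1.card ≤ 2 * L * i.2.2.2.2.2.2.2.card

theorem sum_rules (B : X → Finset V) (b₀ δ L : ℕ) (hb : 1 ≤ b₀) (hBb : ∀ x, (B x).card ≤ b₀)
    (hδ : ∀ x, (univ.filter (fun y => adjB B x y)).card ≤ δ) (y : ℝ) (hy0 : 0 ≤ y)
    (hy : y ≤ (1 / (Zc b₀ δ : ℝ)) ^ (2 * L)) (x : X) :
    ∑ i ∈ univ.filter (fun i : {i : Idx X V // ValidIdx B L i} => x ∈ i.1.1),
      y ^ i.1.2.2.2.2.2.2.2.card ≤ 1 / 2 := by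
  have hZ1 : (1 : ℝ) ≤ (Zc b₀ δ : ℝ) := by
    have : 1 ≤ Zc b₀ δ := by
      unfold Zc
      have h1 : 1 ≤ b₀ ^ 3 := Nat.one_le_pow _ _ hb
      have h2 : 1 ≤ 2 ^ (1 + δ) := Nat.one_le_two_pow
      nlinarith
    exact_mod_cast this
  have hz0 : (0 : ℝ) ≤ 1 / (Zc b₀ δ : ℝ) := by positivity
  have hz1 : 1 / (Zc b₀ δ : ℝ) ≤ 1 := by
    rw [div_le_one (by linarith)]; exact hZ1
  set S := univ.filter (fun i : {i : Idx X V // ValidIdx B L i} => x ∈ i.1.1) with hS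
  set 𝒦 : Finset (Finset X) := univ.filter (fun K : Finset X => x ∈ K ∧ Conn (adjB B) K) with h𝒦
  have step1 : ∀ i ∈ S, y ^ i.1.2.2.2.2.2.2.2.card ≤ (1 / (Zc b₀ δ : ℝ)) ^ i.1.1.card := by
    intro i _
    calc y ^ i.1.2.2.2.2.2.2.2.card ≤ ((1 / (Zc b₀ δ : ℝ)) ^ (2 * L)) ^ i.1.2.2.2.2.2.2.2.card :=
          pow_le_pow_left₀ hy0 hy _
      _ = (1 / (Zc b₀ δ : ℝ)) ^ (2 * L * i.1.2.2.2.2.2.2.2.card) := by rw [← pow_mul]
      _ ≤ _ := pow_le_pow_of_le_one hz0 hz1 i.2.2.2.2.2.2.2.2.2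
  have hmaps : ∀ i ∈ S, i.1.1 ∈ 𝒦 := by
    intro i hi
    rw [hS, mem_filter] at hi
    rw [h𝒦, mem_filter]
    exact ⟨mem_univ _, hi.2, i.2.1⟩
  refine (Finset.sum_le_sum step1).trans ?_
  rw [← Finset.sum_fiberwise_of_maps_to hmaps]
  have step2 : ∀ K ∈ 𝒦, ∑ i ∈ S.filter (fun i => i.1.1 = K), (1 / (Zc b₀ δ : ℝ)) ^ i.1.1.card ≤
      (1 / 2) * (1 / 2 : ℝ) ^ ((1 + δ) * K.card) := by
    intro K hK
    rw [h𝒦, mem_filter] at hK
    have hk1 : 1 ≤ K.card := Finset.card_pos.mpr ⟨x, hK.2.1⟩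
    have hconst : ∑ i ∈ S.filter (fun i => i.1.1 = K), (1 / (Zc b₀ δ : ℝ)) ^ i.1.1.card =
        ((S.filter (fun i => i.1.1 = K)).card : ℝ) * (1 / (Zc b₀ δ : ℝ)) ^ K.card := by
      rw [← nsmul_eq_mul, ← Finset.sum_const]
      refine Finset.sum_congr rfl (fun i hi => ?_)
      rw [(Finset.mem_filter.mp hi).2]
    have hcard : (S.filter (fun i => i.1.1 = K)).card ≤ (256 * b₀ ^ 3) ^ K.card := by
      have hvs : (vs B K).card ≤ b₀ * K.card := by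
        rw [mul_comm]
        exact Finset.card_biUnion_le_card_mul _ _ _ (fun x _ => hBb x)
      refine le_trans ?_ (count_aux b₀ K.card (vs B K).card hb hk1 hvs)
      have hprod : (K.powerset ×ˢ (K ×ˢ (vs B K ×ˢ (vs B K ×ˢ (vs B K ×ˢ
          ((univ : Finset (Fin 4)) ×ˢ K.powerset)))))).card =
          2 ^ K.card * (K.card * ((vs B K).card * ((vs B K).card * ((vs B K).card *
            (4 * 2 ^ K.card))))) := by
        simp [Finset.card_product, Finset.card_powerset]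
      rw [← hprod]
      refine Finset.card_le_card_of_injOn (fun i => i.1.2) ?_ ?_
      · intro i hi
        have hi' := (Finset.mem_filter.mp (Finset.mem_coe.mp hi)).2
        obtain ⟨-, -, v1, v2, v3, v4, v5, v6, -⟩ := i.2
        rw [hi'] at v1 v2 v3 v4 v5 v6
        simp only [coe_product, Set.mem_prod, mem_coe, Finset.mem_powerset]
        exact ⟨v1, v2, v3, v4, v5, mem_univ _, v6⟩
      · intro i hi j hj hij
        have hi' := (Finset.mem_filter.mp (Finset.mem_coe.mp hi)).2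
        have hj' := (Finset.mem_filter.mp (Finset.mem_coe.mp hj)).2
        refine Subtype.ext (Prod.ext ?_ hij)
        rw [hi', hj']
    rw [hconst]
    have hZeq : (Zc b₀ δ : ℝ) = (256 * (b₀ : ℝ) ^ 3) * (2 ^ (1 + δ) * 2) := by
      unfold Zc; push_cast; ring
    have hb0 : (0 : ℝ) < 256 * (b₀ : ℝ) ^ 3 := by
      have : (0 : ℝ) < (b₀ : ℝ) := by exact_mod_cast hb
      positivity
    calc ((S.filter (fun i => i.1.1 = K)).card : ℝ) * (1 / (Zc b₀ δ : ℝ)) ^ K.card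
        ≤ ((256 * (b₀ : ℝ) ^ 3) ^ K.card) * (1 / (Zc b₀ δ : ℝ)) ^ K.card := by
          refine mul_le_mul_of_nonneg_right ?_ (by positivity)
          exact_mod_cast hcard
      _ = (1 / (2 ^ (1 + δ) * 2) : ℝ) ^ K.card := by
          rw [← mul_pow, hZeq]
          congr 1
          field_simp
      _ = (1 / 2 : ℝ) ^ K.card * (1 / 2 : ℝ) ^ ((1 + δ) * K.card) := by
          rw [pow_mul, ← mul_pow]
          congr 1
          rw [one_div, one_div, mul_inv, inv_pow]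
          ring
      _ ≤ (1 / 2) * (1 / 2 : ℝ) ^ ((1 + δ) * K.card) := by
          refine mul_le_mul_of_nonneg_right ?_ (by positivity)
          calc (1 / 2 : ℝ) ^ K.card ≤ (1 / 2 : ℝ) ^ 1 :=
                pow_le_pow_of_le_one (by norm_num) (by norm_num) hk1
            _ = 1 / 2 := by norm_num
  refine (Finset.sum_le_sum step2).trans ?_
  rw [← Finset.mul_sum]
  have := sum_conn (adjB B) δ hδ x
  linarith

/-- A colouring without relations. -/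
theorem exists_good (B : X → Finset V) (hB : ∀ x, 2 ≤ (B x).card) (b₀ δ L r : ℕ)
    (hBb : ∀ x, (B x).card ≤ b₀)
    (hδ : ∀ x, (univ.filter (fun y => adjB B x y)).card ≤ δ)
    (q : C → X → V → ℝ × ℝ)
    (hr : ∀ x F, F ≠ 0 → (∀ v, v ∉ B x → F v = 0) →
      (univ.filter (fun i => ip (q i x) F = 0)).card ≤ r)
    (hL : 1 ≤ L)
    (hslack : ∀ K : Finset X, K.Nonempty →
      L * (∑ x ∈ K, (2 * (B x).card - 3)) + K.card ≤ L * (2 * (vs B K).card - 3) + 1)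
    (hC0 : 0 < Fintype.card C)
    (hC : 2 * r * (Zc b₀ δ) ^ (2 * L) ≤ Fintype.card C) :
    ∃ c : X → C, ∀ (τ : Fin 4) (x₀ : X) (u v w : V) (K : Finset X),
      Conn (adjB B) K → K.Nonempty → (τ.val < 2 → K ≠ {x₀}) →
      (2 ≤ τ.val → 2 ≤ K.card ∧ x₀ ∈ K) → Conn (adjB B) (insert x₀ K) →
      u ∈ vs B (insert x₀ K) → v ∈ vs B (insert x₀ K) → w ∈ vs B (insert x₀ K) →
      ¬ HasRel B q K (Pf q τ x₀ u v w (c x₀)) c := by
  rcases isEmpty_or_nonempty X with hX | ⟨⟨x₁⟩⟩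
  · have : Nonempty C := Fintype.card_pos_iff.mp hC0
    exact ⟨fun _ => Classical.arbitrary C, fun τ x₀ => (hX.false x₀).elim⟩
  have hb : 1 ≤ b₀ := by have := hB x₁; have := hBb x₁; omega
  obtain ⟨ord, hord⟩ : ∃ ord : X → ℕ, Function.Injective ord :=
    ⟨fun x => ((Fintype.equivFin X) x).val, fun x y h => (Fintype.equivFin X).injective (Fin.ext h)⟩
  have hHsub : ∀ (τ : Fin 4) (K : Finset X) (x₀ : X), Hf τ K x₀ ⊆ K := by
    intro τ K x₀
    unfold Hf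
    split_ifs
    · exact Finset.erase_subset _ _
    · exact Finset.Subset.refl _
  set D₀ : Idx X V → (X → C) → Submodule ℝ (X → V → ℝ × ℝ) := fun i c =>
    famS B i.2.1 (Pf q i.2.2.2.2.2.2.1 i.2.2.1 i.2.2.2.1 i.2.2.2.2.1 i.2.2.2.2.2.1 (c i.2.2.1))
    with hD₀
  set T : Idx X V → Finset X := fun i => Hf i.2.2.2.2.2.2.1 i.2.1 i.2.2.1 with hT
  obtain ⟨Bad, hBad⟩ : ∃ Bad : {i : Idx X V // ValidIdx B L i} → (X → C) → Prop,
      ∀ i c, Bad i c ↔ HasRel B q i.1.2.1 (Pf q i.1.2.2.2.2.2.2.1 i.1.2.2.1 i.1.2.2.2.1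
        i.1.2.2.2.2.1 i.1.2.2.2.2.2.1 (c i.1.2.2.1)) c ∧
      i.1.2.2.2.2.2.2.2 = failSet ord (lamB q) (D₀ i.1 c) (T i.1) c := ⟨_, fun _ _ => Iff.rfl⟩
  have hD₀T : ∀ (i : Idx X V) (c c' : X → C), (∀ y, y ∉ T i → c y = c' y) → D₀ i c = D₀ i c' := by
    intro i c c' h
    simp only [hD₀]
    congr 1
    by_cases hτ : i.2.2.2.2.2.2.1.val < 2
    · have : c i.2.2.1 = c' i.2.2.1 := by
        refine h _ ?_
        simp only [hT, Hf, if_pos hτ]
        exact Finset.notMem_erase _ _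
      rw [this]
    · have h0 : i.2.2.2.2.2.2.1 ≠ 0 := by
        intro h'; rw [h'] at hτ; exact hτ (by decide)
      have h1 : i.2.2.2.2.2.2.1 ≠ 1 := by
        intro h'; rw [h'] at hτ; exact hτ (by decide)
      simp only [Pf, if_neg h0, if_neg h1]
  have hex : ∃ c : X → C, ∀ i, ¬ Bad i c := by
    refine rosenfeld (C := C) (ι := {i : Idx X V // ValidIdx B L i})
      (fun i => i.1.1) (fun i => i.1.2.2.2.2.2.2.2) Bad r hC0
      (fun i => i.2.2.1) ?_ ?_ ?_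
    · -- dependence
      rintro ⟨i, hi⟩ c c' hcc hbad
      rw [hBad] at hbad ⊢
      obtain ⟨hrel, hD⟩ := hbad
      have hx₀ : c i.2.2.1 = c' i.2.2.1 := hcc _ hi.2.2.2.1
      have hK : ∀ x ∈ i.2.1, c x = c' x := fun x hx => hcc x (hi.2.2.1 hx)
      refine ⟨?_, ?_⟩
      · obtain ⟨Φ, hΦ, h1, h2⟩ := hrel
        refine ⟨Φ, ?_, h1, ?_⟩
        · show Φ ∈ famS B i.2.1 (Pf q _ _ _ _ _ (c' i.2.2.1))
          rw [← hx₀]; exact hΦ
        · intro x hx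
          rw [← hK x hx]; exact h2 x hx
      · show _ = failSet ord (lamB q) (D₀ i c') (T i) c'
        have h3 : D₀ i c' = D₀ i c := by simp only [hD₀]; rw [hx₀]
        rw [h3, ← failSet_congr ord (lamB q) (D₀ i c) (T i) c c'
          (fun x hx => hK x (hHsub _ _ _ hx))]
        exact hD
    · -- fibres
      rintro ⟨i, hi⟩ c₀
      refine le_trans (Finset.card_le_card ?_) (fail_fibre ord hord r (lamB q)
        (fun x (Φ : X → V → ℝ × ℝ) => Φ x ≠ 0 ∧ ∀ v, v ∉ B x → Φ x v = 0)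
        (fun x Φ h => hr x (Φ x) h.1 h.2) (T i) (D₀ i) (hD₀T i) i.2.2.2.2.2.2.2 c₀)
      intro c hc
      rw [mem_filter, hBad] at hc
      rw [mem_filter]
      obtain ⟨-, h1, ⟨Φ, hΦ, h2, h3⟩, h4⟩ := hc
      refine ⟨mem_univ _, h1, ⟨Φ, hΦ, ?_, ?_⟩, h4⟩
      · intro x hx
        refine ⟨h2 x (hHsub _ _ _ hx), ?_⟩
        exact hΦ.1.2.1 x
      · intro x hx
        exact h3 x (hHsub _ _ _ hx)
    · -- the sum
      intro x
      refine sum_rules B b₀ δ L hb hBb hδ _ (by positivity) ?_ x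
      have hCpos : (0 : ℝ) < (Fintype.card C : ℝ) := by exact_mod_cast hC0
      have hZpos : (0 : ℝ) < (Zc b₀ δ : ℝ) := by
        have : 1 ≤ Zc b₀ δ := by
          unfold Zc
          have h1 : 1 ≤ b₀ ^ 3 := Nat.one_le_pow _ _ hb
          have h2 : 1 ≤ 2 ^ (1 + δ) := Nat.one_le_two_pow
          nlinarith
        exact_mod_cast this
      rw [one_div, inv_pow, ← one_div, div_le_div_iff₀ hCpos (by positivity), one_mul]
      exact_mod_cast hC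
  obtain ⟨c, hc⟩ := hex
  refine ⟨c, ?_⟩
  intro τ x₀ u v w K hKc hK0 h1 h2 hK' hu hv hw hrel
  have hcard := hasRel_fail B hB q ord hord L hL hslack τ x₀ u v w K hKc hK0 h1 h2 c hrel
  set D := failSet ord (lamB q) (famS B K (Pf q τ x₀ u v w (c x₀))) (Hf τ K x₀) c with hD
  have hDK : D ⊆ insert x₀ K := by
    refine (Finset.filter_subset _ _).trans ((hHsub τ K x₀).trans (Finset.subset_insert _ _))
  have hval : ValidIdx B L (insert x₀ K, K, x₀, u, v, w, τ, D) :=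
    ⟨hK', Finset.insert_nonempty _ _, Finset.subset_insert _ _, Finset.mem_insert_self _ _,
      hu, hv, hw, hDK, hcard⟩
  exact hc ⟨(insert x₀ K, K, x₀, u, v, w, τ, D), hval⟩ ((hBad _ _).mpr ⟨hrel, rfl⟩)

end Pool.Agent.Lib.MP_04668c_co
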