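import Pool.Agent.Lib.MP_04668c_co.Two
import Pool.Agent.Lib.MP_04668c_co.Forest

/-!
# Statements with linear forests and Hamiltonian cycles
-/

set_option autoImplicit false

namespace Pool.Agent.Lib.MP_04668c_co

open Finset

variable {V : Type} [Fintype V] [DecidableEq V]

/-- Twice the number of edges inside `Q` is the number of ordered pairs. -/
theorem pairs_eq_twice (G : SimpleGraph V) [DecidableRel G.Adj] (Q : Finset V) :
    (pairs G Q).card = 2 * (G.edgeFinset.filter (fun e => ∀ x ∈ e, x ∈ Q)).card := by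
  classical
  set H : SimpleGraph V :=
    { Adj := fun u v => G.Adj u v ∧ u ∈ Q ∧ v ∈ Q
      symm := ⟨fun u v h => ⟨h.1.symm, h.2.2, h.2.1⟩⟩
      loopless := ⟨fun u h => G.loopless.irrefl _ h.1⟩ } with hH
  have hdec : DecidableRel H.Adj := fun _ _ => Classical.dec _
  have h1 : H.edgeFinset = G.edgeFinset.filter (fun e => ∀ x ∈ e, x ∈ Q) := by
    ext e
    induction e using Sym2.inductionOn with
    | _ u v =>
      simp only [SimpleGraph.mem_edgeFinset, SimpleGraph.mem_edgeSet, mem_filter, Sym2.mem_iff,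
        forall_eq_or_imp, forall_eq, hH]
  rw [← h1, ← SimpleGraph.sum_degrees_eq_twice_card_edges]
  have h2 : ∀ u, H.degree u = ((univ : Finset V).filter (fun v => G.Adj u v ∧ u ∈ Q ∧ v ∈ Q)).card := by
    intro u
    rw [← SimpleGraph.card_neighborFinset_eq_degree]
    congr 1
    ext v
    simp [hH]
  rw [Finset.sum_congr rfl (fun u _ => h2 u)]
  have h3 : pairs G Q = ((univ : Finset V) ×ˢ (univ : Finset V)).filter
      (fun p => G.Adj p.1 p.2 ∧ p.1 ∈ Q ∧ p.2 ∈ Q) := by
    ext p
    rw [mem_pairs, mem_filter]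
    simp only [mem_product, mem_univ, true_and]
    tauto
  rw [h3, Finset.card_filter, Finset.sum_product]
  refine Finset.sum_congr rfl (fun u _ => ?_)
  rw [Finset.card_filter]

theorem main_forests (q k : ℕ) (G F₁ F₂ : SimpleGraph V) [DecidableRel G.Adj]
    [DecidableRel F₁.Adj] [DecidableRel F₂.Adj] (S : Finset V) (hq : 1 ≤ q)
    (hdeg : G.maxDegree ≤ 4) (hk : S.card ≤ k)
    (h₁ : F₁.IsAcyclic) (h₁' : F₁.maxDegree ≤ 2) (h₂ : F₂.IsAcyclic) (h₂' : F₂.maxDegree ≤ 2)
    (hE : ∀ u v, G.Adj u v → u ∉ S → v ∉ S → F₁.Adj u v ∨ F₂.Adj u v)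
    (hQ : ∀ Q : Finset V, Disjoint Q S → q < Q.card →
      (G.edgeFinset.filter (fun e => ∀ x ∈ e, x ∈ Q)).card + 3 ≤ 2 * Q.card) :
    Drawable G (4 * q + 4 * k) := by
  classical
  have deg : ∀ (F : SimpleGraph V) [DecidableRel F.Adj] (m : ℕ), F.maxDegree ≤ m → ∀ v,
      (univ.filter (fun u => F.Adj v u)).card ≤ m := by
    intro F _ m hF v
    refine le_trans (le_of_eq ?_) ((F.degree_le_maxDegree v).trans hF)
    rw [← SimpleGraph.card_neighborFinset_eq_degree]
    congr 1
    ext u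
    simp
  obtain ⟨b, hb, hb'⟩ := linear_forest_rank F₁ h₁ (fun v => by convert deg F₁ 2 h₁' v)
  obtain ⟨a, ha, ha'⟩ := linear_forest_rank F₂ h₂ (fun v => by convert deg F₂ 2 h₂' v)
  refine draw_rank G (fun s => by convert deg G 4 hdeg s) S a b ha hb ?_ q k hq hk ?_
  · intro u v hadj hu hv
    rcases hE u v hadj hu hv with h | h
    · exact Or.inl (hb' u v h)
    · exact Or.inr (ha' u v h)
  · intro Q hdis hlt
    rw [pairs_eq_twice]
    have := hQ Q hdis hlt
    omega

theorem main_hamiltonian (q n : ℕ) (G : SimpleGraph V) [DecidableRel G.Adj] (f g : Fin n ≃ V)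
    (hq : 1 ≤ q) (hreg : G.IsRegularOfDegree 4)
    (hG : G = (SimpleGraph.cycleGraph n).map f.toEmbedding ⊔
      (SimpleGraph.cycleGraph n).map g.toEmbedding)
    (hcut : ∀ Q : Finset V, q < Q.card → q < Qᶜ.card →
      6 ≤ ((Q ×ˢ Qᶜ).filter (fun p => G.Adj p.1 p.2)).card) :
    Drawable G (8 * q + 4) := by
  classical
  refine draw_hamiltonian G f g ?_ ?_ q hq ?_
  · intro s
    rw [← hreg s, ← SimpleGraph.card_neighborFinset_eq_degree]
    congr 1
    ext u
    simp
  · intro u v hadj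
    rw [hG, SimpleGraph.sup_adj] at hadj
    rcases hadj with h | h
    · left
      rw [SimpleGraph.map_adj] at h
      obtain ⟨i, j, hij, rfl, rfl⟩ := h
      simpa using hij
    · right
      rw [SimpleGraph.map_adj] at h
      obtain ⟨i, j, hij, rfl, rfl⟩ := h
      simpa using hij
  · intro Q h1 h2 D hD
    have h3 : q < Qᶜ.card := by
      rw [Finset.card_compl]
      omega
    have h4 := hcut Q h1 h3
    have h5 : (Q ×ˢ Qᶜ).filter (fun p => G.Adj p.1 p.2) = D := by
      ext p
      rw [mem_filter, mem_product, Finset.mem_compl, and_assoc, hD p]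
    rw [h5] at h4
    exact h4

end Pool.Agent.Lib.MP_04668c_co
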