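import Pool.Agent.Lib.MP_04668c_co.Delete
import Pool.Agent.Lib.MP_04668c_co.Main1

/-!
# Sparse graphs and almost all edges: statements in standard terms
-/

set_option autoImplicit false
set_option linter.unusedSectionVars false

namespace Pool.Agent.Lib.MP_04668c_co

open Finset Classical

variable {V : Type} [Fintype V]

theorem conn_connected (G : SimpleGraph V) (W : Finset V) (hne : W.Nonempty)
    (h : Conn G.Adj W) : (G.induce (W : Set V)).Connected := by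
  have hpre : (G.induce (W : Set V)).Preconnected := by
    rintro ⟨a, ha⟩ ⟨b, hb⟩
    set Y : Finset V := W.filter (fun u => ∃ hu : u ∈ (W : Set V),
      (G.induce (W : Set V)).Reachable ⟨a, ha⟩ ⟨u, hu⟩) with hY
    have haY : a ∈ Y := by
      rw [hY, mem_filter]
      exact ⟨ha, ha, SimpleGraph.Reachable.refl _⟩
    have hYW : Y = W := by
      by_contra hne'
      obtain ⟨y, hy, z, hz, hzY, hadj⟩ := h Y (Finset.filter_subset _ _) ⟨a, haY⟩ hne'
      apply hzY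
      rw [hY, mem_filter] at hy ⊢
      obtain ⟨-, hyW, hreach⟩ := hy
      refine ⟨hz, hz, hreach.trans ?_⟩
      exact SimpleGraph.Adj.reachable (by simpa using hadj)
    have : b ∈ Y := by rw [hYW]; exact hb
    rw [hY, mem_filter] at this
    exact this.2.2
  have : Nonempty ((W : Set V) : Type) := ⟨⟨hne.choose, hne.choose_spec⟩⟩
  exact ⟨hpre⟩

theorem not_collinear_of_det3 {p q r : ℝ × ℝ} (h : det3 p q r ≠ 0) :
    ¬ Collinear ℝ ({p, q, r} : Set (ℝ × ℝ)) := by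
  intro hc
  apply h
  rw [collinear_iff_of_mem (p₀ := p) (by simp)] at hc
  obtain ⟨v, hv⟩ := hc
  obtain ⟨a, ha⟩ := hv q (by simp)
  obtain ⟨b, hb⟩ := hv r (by simp)
  subst ha hb
  unfold det3
  simp only [vadd_eq_add, Prod.fst_add, Prod.snd_add, Prod.smul_fst, Prod.smul_snd, smul_eq_mul]
  ring

theorem deg_filter {V : Type} [Fintype V] (G : SimpleGraph V) [DecidableRel G.Adj] {D : ℕ}
    (h : G.maxDegree ≤ D) (v : V) : (univ.filter (fun u => G.Adj v u)).card ≤ D := by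
  refine le_trans (le_of_eq ?_) ((G.degree_le_maxDegree v).trans h)
  rw [← SimpleGraph.card_neighborFinset_eq_degree]
  congr 1
  ext u
  simp

theorem main_sparse (D N : ℕ) (ε : ℝ) (hε : 0 < ε) : ∃ C : ℕ, ∀ (V : Type) [Fintype V]
    [DecidableEq V] (G : SimpleGraph V) [DecidableRel G.Adj], G.maxDegree ≤ D →
    (∀ W : Finset V, (G.induce (W : Set V)).Connected → N < W.card →
      ((G.edgeFinset.filter (fun e => ∀ x ∈ e, x ∈ W)).card : ℝ) ≤ (2 - ε) * W.card) →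
    ∃ f : V → ℝ × ℝ, Function.Injective f ∧
      (∀ u v w : V, u ≠ v → w ≠ u → w ≠ v → ¬ Collinear ℝ ({f u, f v, f w} : Set (ℝ × ℝ))) ∧
      ∃ S : Finset (ℝ × ℝ), S.card ≤ C ∧
        ∀ u v : V, G.Adj u v → ∃ d ∈ S, ∃ t : ℝ, f v - f u = t • d := by
  obtain ⟨n, hn⟩ := exists_nat_ge (1 / ε)
  set n₀ := n + 1 with hn₀
  refine ⟨numCol (max N (6 * n₀)) (max N (6 * n₀) * D) (4 * n₀) *
          (max N (6 * n₀) * max N (6 * n₀)), ?_⟩
  intro V _ _ G _ hdeg hsp
  have h2 : ∀ W : Finset V, Conn G.Adj W → N < W.card →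
      n₀ * (pairs G W).card ≤ (4 * n₀ - 2) * W.card := by
    intro W hW hN
    have hc := conn_connected G W (Finset.card_pos.mp (by omega)) hW
    have h3 := hsp W hc hN
    rw [pairs_eq_twice]
    obtain ⟨e, he⟩ : ∃ e, (G.edgeFinset.filter (fun e => ∀ x ∈ e, x ∈ W)).card = e := ⟨_, rfl⟩
    rw [he] at h3 ⊢
    have h4 : (1 : ℝ) ≤ ε * n₀ := by
      have h5 : 1 ≤ ε * n := by
        rw [div_le_iff₀ hε] at hn
        linarith
      have h6 : ((n₀ : ℕ) : ℝ) = n + 1 := by rw [hn₀]; push_cast; ring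
      rw [h6]
      nlinarith
    have h5 : ((n₀ * (2 * e) : ℕ) : ℝ) ≤ (((4 * n₀ - 2) * W.card : ℕ) : ℝ) := by
      have h6 : ((4 * n₀ - 2 : ℕ) : ℝ) = 4 * n₀ - 2 := by
        rw [Nat.cast_sub (by omega)]
        push_cast; ring
      push_cast
      rw [h6]
      have h7 : (0 : ℝ) ≤ (n₀ : ℝ) := Nat.cast_nonneg _
      have h8 : (0 : ℝ) ≤ (W.card : ℝ) := Nat.cast_nonneg _
      calc (n₀ : ℝ) * (2 * (e : ℝ)) ≤ n₀ * (2 * ((2 - ε) * W.card)) := by
            refine mul_le_mul_of_nonneg_left ?_ h7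
            linarith
        _ = (4 * n₀ - 2 * (ε * n₀)) * W.card := by ring
        _ ≤ (4 * n₀ - 2) * W.card := by
            refine mul_le_mul_of_nonneg_right ?_ h8
            linarith
    exact_mod_cast h5
  obtain ⟨p, hpi, hpg, S, hS, hdir⟩ := sparse_drawing G D N n₀ (by omega)
    (fun v => by convert deg_filter G hdeg v) h2
  refine ⟨p, hpi, ?_, S, hS, ?_⟩
  · intro u v w huv hwu hwv
    exact not_collinear_of_det3 (hpg v u w huv.symm hwv hwu)
  · intro u v huv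
    exact hdir v u huv.symm

theorem main_almost (η : ℝ) (hη : 0 < η) : ∃ C : ℕ, ∀ (V : Type) [Fintype V]
    (G : SimpleGraph V) [DecidableRel G.Adj], G.maxDegree ≤ 4 →
    ∃ E₀ : Finset (Sym2 V), (E₀.card : ℝ) ≤ η * Fintype.card V ∧
    ∃ f : V → ℝ × ℝ, Function.Injective f ∧
      (∀ u v w : V, u ≠ v → w ≠ u → w ≠ v → ¬ Collinear ℝ ({f u, f v, f w} : Set (ℝ × ℝ))) ∧
      ∃ S : Finset (ℝ × ℝ), S.card ≤ C ∧
        ∀ u v : V, G.Adj u v → s(u, v) ∉ E₀ → ∃ d ∈ S, ∃ t : ℝ, f v - f u = t • d := by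
  obtain ⟨n, hn⟩ := exists_nat_ge (1 / η)
  set r := n + 1 with hr
  set n₀ := 2 * 5 ^ (2 * r) with hn₀
  have hn₀1 : 1 ≤ n₀ := by
    have : 1 ≤ 5 ^ (2 * r) := Nat.one_le_pow _ _ (by norm_num)
    omega
  refine ⟨numCol (max r (6 * n₀)) (max r (6 * n₀) * 4) (4 * n₀) *
          (max r (6 * n₀) * max r (6 * n₀)), ?_⟩
  intro V _ G _ hdeg
  obtain ⟨E₀, G', hE₀, hG', hG'', hsp⟩ := exists_delete G
    (fun v => by convert deg_filter G hdeg v) r (by omega)
  have h1' : ∀ v, (univ.filter (fun u => G'.Adj v u)).card ≤ 4 := by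
    intro v
    refine le_trans (Finset.card_le_card ?_) (deg_filter G hdeg v)
    intro u hu
    rw [mem_filter] at hu ⊢
    exact ⟨hu.1, hG' _ _ hu.2⟩
  obtain ⟨p, hpi, hpg, S, hS, hdir⟩ := sparse_drawing G' 4 r n₀ hn₀1 h1' hsp
  refine ⟨E₀, ?_, p, hpi, ?_, S, hS, ?_⟩
  · have h2 : ((r + 1 : ℕ) : ℝ) * (E₀.card : ℝ) ≤ (Fintype.card V : ℝ) := by exact_mod_cast hE₀
    have h3 : 1 / η ≤ ((r + 1 : ℕ) : ℝ) := by
      push_cast [hr]
      linarith
    rw [div_le_iff₀ hη] at h3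
    have h4 : (0 : ℝ) ≤ (E₀.card : ℝ) := Nat.cast_nonneg _
    calc (E₀.card : ℝ) ≤ (((r + 1 : ℕ) : ℝ) * η) * E₀.card := by nlinarith
      _ = η * (((r + 1 : ℕ) : ℝ) * E₀.card) := by ring
      _ ≤ η * Fintype.card V := mul_le_mul_of_nonneg_left h2 hη.le
  · intro u v w huv hwu hwv
    exact not_collinear_of_det3 (hpg v u w huv.symm hwv hwu)
  · intro u v huv hne
    exact hdir v u (hG'' v u huv.symm (by rw [Sym2.eq_swap]; exact hne))

end Pool.Agent.Lib.MP_04668c_co
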