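import Pool.Agent.Lib.MP_04668c_co.Tests
import Pool.Agent.Lib.MP_04668c_co.Add

/-!
# Choosing the positions
-/

set_option autoImplicit false
set_option linter.unusedSectionVars false

namespace Pool.Agent.Lib.MP_04668c_co

open Finset Classical Module

section generic

variable {M : Type} [AddCommGroup M] [Module ℝ M]

/-- `f` is polynomial along lines. -/
def PolyLine (f : M → ℝ) : Prop :=
  ∀ w w' : M, ∃ P : Polynomial ℝ, ∀ t : ℝ, f (w + t • (w' - w)) = P.eval t

theorem PolyLine.linear (f : M →ₗ[ℝ] ℝ) : PolyLine (fun w => f w) := by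
  intro w w'
  refine ⟨Polynomial.C (f w) + Polynomial.X * Polynomial.C (f (w' - w)), fun t => ?_⟩
  simp

theorem PolyLine.mul {f g : M → ℝ} (hf : PolyLine f) (hg : PolyLine g) :
    PolyLine (fun w => f w * g w) := by
  intro w w'
  obtain ⟨P, hP⟩ := hf w w'
  obtain ⟨Q, hQ⟩ := hg w w'
  exact ⟨P * Q, fun t => by show f _ * g _ = _; rw [hP, hQ, Polynomial.eval_mul]⟩

theorem PolyLine.add {f g : M → ℝ} (hf : PolyLine f) (hg : PolyLine g) :
    PolyLine (fun w => f w + g w) := by
  intro w w'
  obtain ⟨P, hP⟩ := hf w w'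
  obtain ⟨Q, hQ⟩ := hg w w'
  exact ⟨P + Q, fun t => by show f _ + g _ = _; rw [hP, hQ, Polynomial.eval_add]⟩

theorem PolyLine.sub {f g : M → ℝ} (hf : PolyLine f) (hg : PolyLine g) :
    PolyLine (fun w => f w - g w) := by
  intro w w'
  obtain ⟨P, hP⟩ := hf w w'
  obtain ⟨Q, hQ⟩ := hg w w'
  exact ⟨P - Q, fun t => by show f _ - g _ = _; rw [hP, hQ, Polynomial.eval_sub]⟩

theorem exists_common {ι : Type} (W : Submodule ℝ M) (S : Finset ι) (f : ι → M → ℝ)
    (hf : ∀ i ∈ S, PolyLine (f i)) (hne : ∀ i ∈ S, ∃ w ∈ W, f i w ≠ 0) :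
    ∃ w ∈ W, ∀ i ∈ S, f i w ≠ 0 := by
  induction S using Finset.induction_on with
  | empty => exact ⟨0, W.zero_mem, by simp⟩
  | insert j S hj ih =>
    obtain ⟨w, hw, hwS⟩ := ih (fun i hi => hf i (mem_insert_of_mem hi))
      (fun i hi => hne i (mem_insert_of_mem hi))
    obtain ⟨w', hw', hwj⟩ := hne j (mem_insert_self _ _)
    choose! P hP using fun i (hi : i ∈ insert j S) => hf i hi w w'
    have hP0 : ∀ i ∈ insert j S, P i ≠ 0 := by
      intro i hi h0
      rcases Finset.mem_insert.mp hi with rfl | hiS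
      · have := hP i hi 1
        rw [h0, Polynomial.eval_zero, one_smul, add_sub_cancel] at this
        exact hwj this
      · have := hP i hi 0
        rw [h0, Polynomial.eval_zero, zero_smul, add_zero] at this
        exact hwS i hiS this
    have hfin : (⋃ i ∈ insert j S, {t : ℝ | (P i).IsRoot t}).Finite :=
      Set.Finite.biUnion (insert j S).finite_toSet
        (fun i hi => Polynomial.finite_setOfPred_isRoot (hP0 i hi))
    obtain ⟨t, ht⟩ := hfin.exists_notMem
    simp only [Set.mem_iUnion, not_exists] at ht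
    refine ⟨w + t • (w' - w), W.add_mem hw (W.smul_mem _ (W.sub_mem hw' hw)), ?_⟩
    intro i hi h0
    refine ht i hi ?_
    rw [hP i hi t] at h0
    exact h0

end generic

variable {V X C : Type} [Fintype V] [Fintype X] [Fintype C]

/-- The first coordinate of the position of `v`. -/
noncomputable def px (v : V) : ((V → ℝ × ℝ) →ₗ[ℝ] ℝ) →ₗ[ℝ] ℝ :=
  LinearMap.applyₗ (Pi.single v ((1 : ℝ), (0 : ℝ)))

/-- The second coordinate of the position of `v`. -/
noncomputable def py (v : V) : ((V → ℝ × ℝ) →ₗ[ℝ] ℝ) →ₗ[ℝ] ℝ :=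
  LinearMap.applyₗ (Pi.single v ((0 : ℝ), (1 : ℝ)))

theorem dual_dip (l : (V → ℝ × ℝ) →ₗ[ℝ] ℝ) (u v : V) (n : ℝ × ℝ) :
    l (dip u v n) = n.1 * (px u l - px v l) + n.2 * (py u l - py v l) := by
  have h : dip u v n = n.1 • ((Pi.single u ((1 : ℝ), (0 : ℝ)) : V → ℝ × ℝ) -
        Pi.single v ((1 : ℝ), (0 : ℝ))) +
      n.2 • ((Pi.single u ((0 : ℝ), (1 : ℝ)) : V → ℝ × ℝ) - Pi.single v ((0 : ℝ), (1 : ℝ))) := by
    funext z
    simp only [dip, Pi.add_apply, Pi.smul_apply, Pi.sub_apply, Pi.single_apply]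
    split_ifs <;> ext <;> simp
  rw [h, map_add, map_smul, map_smul, map_sub, map_sub]
  rfl

theorem dual_tri (l : (V → ℝ × ℝ) →ₗ[ℝ] ℝ) (u v w : V) (n : ℝ × ℝ) :
    l (triL u v w n) = n.1 * (px u l - px v l) + n.2 * (px w l - px v l) := by
  have h : triL u v w n = dip u v (n.1, 0) + dip w v (n.2, 0) := rfl
  rw [h, map_add, dual_dip, dual_dip]
  simp

/-- Two parallel vectors. -/
theorem exists_par {a b : ℝ × ℝ} (ha : a ≠ 0) (h : a.1 * b.2 - a.2 * b.1 = 0) :
    ∃ μ : ℝ, b = μ • a := by
  have hsq := ne_zero_of_sq ha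
  refine ⟨(a.1 * b.1 + a.2 * b.2) / (a.1 * a.1 + a.2 * a.2), ?_⟩
  refine Prod.ext ?_ ?_
  · rw [Prod.smul_fst, smul_eq_mul, div_mul_eq_mul_div, eq_div_iff hsq]
    linear_combination (-a.2) * h
  · rw [Prod.smul_snd, smul_eq_mul, div_mul_eq_mul_div, eq_div_iff hsq]
    linear_combination (a.1) * h

/-- The functional attached to a point. -/
noncomputable def pos (l : (V → ℝ × ℝ) →ₗ[ℝ] ℝ) (v : V) : ℝ × ℝ := (px v l, py v l)

/-- The collinearity form of three points. -/
noncomputable def dt (u v w : V) (l : (V → ℝ × ℝ) →ₗ[ℝ] ℝ) : ℝ :=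
  (px u l - px v l) * (py w l - py v l) - (py u l - py v l) * (px w l - px v l)

theorem dt_poly (u v w : V) : PolyLine (dt u v w) := by
  have h : ∀ a b : V, PolyLine (fun l : (V → ℝ × ℝ) →ₗ[ℝ] ℝ => px a l - px b l) :=
    fun a b => (PolyLine.linear (px a)).sub (PolyLine.linear (px b))
  have h' : ∀ a b : V, PolyLine (fun l : (V → ℝ × ℝ) →ₗ[ℝ] ℝ => py a l - py b l) :=
    fun a b => (PolyLine.linear (py a)).sub (PolyLine.linear (py b))
  exact ((h u v).mul (h' w v)).sub ((h' u v).mul (h w v))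

/-- Squared distance. -/
noncomputable def sqd (u v : V) (l : (V → ℝ × ℝ) →ₗ[ℝ] ℝ) : ℝ :=
  (px u l - px v l) * (px u l - px v l) + (py u l - py v l) * (py u l - py v l)

theorem sqd_poly (u v : V) : PolyLine (sqd u v) := by
  have h : ∀ a b : V, PolyLine (fun l : (V → ℝ × ℝ) →ₗ[ℝ] ℝ => px a l - px b l) :=
    fun a b => (PolyLine.linear (px a)).sub (PolyLine.linear (px b))
  have h' : ∀ a b : V, PolyLine (fun l : (V → ℝ × ℝ) →ₗ[ℝ] ℝ => py a l - py b l) :=
    fun a b => (PolyLine.linear (py a)).sub (PolyLine.linear (py b))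
  exact ((h u v).mul (h u v)).add ((h' u v).mul (h' u v))

/-- The functionals vanishing on `A`. -/
def ann (A : Submodule ℝ (V → ℝ × ℝ)) : Submodule ℝ ((V → ℝ × ℝ) →ₗ[ℝ] ℝ) where
  carrier := {l | ∀ F ∈ A, l F = 0}
  add_mem' := by
    intro l m hl hm F hF
    rw [LinearMap.add_apply, hl F hF, hm F hF, add_zero]
  zero_mem' := fun F _ => rfl
  smul_mem' := by
    intro a l hl F hF
    rw [LinearMap.smul_apply, hl F hF, smul_zero]

theorem exists_ann (A : Submodule ℝ (V → ℝ × ℝ)) {ψ : V → ℝ × ℝ} (h : ψ ∉ A) :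
    ∃ l ∈ ann A, l ψ ≠ 0 := by
  obtain ⟨l, h1, h2⟩ := Submodule.exists_le_ker_of_notMem h
  exact ⟨l, fun F hF => h2 hF, h1⟩

theorem mem_of_ann (A : Submodule ℝ (V → ℝ × ℝ)) {ψ : V → ℝ × ℝ} (h : ∀ l ∈ ann A, l ψ = 0) :
    ψ ∈ A := by
  by_contra hcon
  obtain ⟨l, hl, hne⟩ := exists_ann A hcon
  exact hne (h l hl)

/-- The dichotomy for collinear triples. -/
theorem exists_dt (A : Submodule ℝ (V → ℝ × ℝ)) (u v w : V)
    (h3 : ∀ n : ℝ × ℝ, n ≠ 0 → dip u v n ∉ A)
    (hwv : ∃ l ∈ ann A, pos l w ≠ pos l v) (huw : ∃ l ∈ ann A, pos l u ≠ pos l w)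
    (h4 : ∀ n : ℝ × ℝ, n.1 ≠ 0 → n.2 ≠ 0 → n.1 + n.2 ≠ 0 → triL u v w n ∉ A) :
    ∃ l ∈ ann A, dt u v w l ≠ 0 := by
  by_contra hcon
  push Not at hcon
  set a : ((V → ℝ × ℝ) →ₗ[ℝ] ℝ) → ℝ × ℝ := fun l => (px u l - px v l, py u l - py v l) with ha
  set b : ((V → ℝ × ℝ) →ₗ[ℝ] ℝ) → ℝ × ℝ := fun l => (px w l - px v l, py w l - py v l) with hb
  have hab : ∀ l ∈ ann A, (a l).1 * (b l).2 - (a l).2 * (b l).1 = 0 := fun l hl => hcon l hl
  have ha_add : ∀ l m, a (l + m) = a l + a m := by
    intro l m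
    simp only [ha, map_add]
    ext <;> simp <;> ring
  have hb_add : ∀ l m, b (l + m) = b l + b m := by
    intro l m
    simp only [hb, map_add]
    ext <;> simp <;> ring
  obtain ⟨l₀, hl₀, hne₀⟩ := exists_ann A (h3 (1, 0) (by simp))
  have ha0 : a l₀ ≠ 0 := by
    intro h
    apply hne₀
    rw [dual_dip]
    have h1 := congrArg Prod.fst h
    simp only [ha, Prod.fst_zero] at h1
    simp [h1]
  obtain ⟨lam, hlam⟩ := exists_par ha0 (hab l₀ hl₀)
  set b' : ((V → ℝ × ℝ) →ₗ[ℝ] ℝ) → ℝ × ℝ := fun l => b l - lam • a l with hb'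
  have hb'_add : ∀ l m, b' (l + m) = b' l + b' m := by
    intro l m
    simp only [hb', ha_add, hb_add, smul_add]
    abel
  have hb'0 : b' l₀ = 0 := by simp only [hb']; rw [hlam, sub_self]
  have hab' : ∀ l ∈ ann A, (a l).1 * (b' l).2 - (a l).2 * (b' l).1 = 0 := by
    intro l hl
    have := hab l hl
    simp only [hb', Prod.fst_sub, Prod.snd_sub, Prod.smul_fst, Prod.smul_snd, smul_eq_mul]
    linear_combination this
  -- polarization
  have hpol : ∀ l ∈ ann A, ∀ m ∈ ann A,
      ((a l).1 * (b' m).2 - (a l).2 * (b' m).1) + ((a m).1 * (b' l).2 - (a m).2 * (b' l).1) = 0 := by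
    intro l hl m hm
    have h1 := hab' l hl
    have h2 := hab' m hm
    have h3 := hab' (l + m) ((ann A).add_mem hl hm)
    rw [ha_add, hb'_add] at h3
    simp only [Prod.fst_add, Prod.snd_add] at h3
    linear_combination h3 - h1 - h2
  have hpar : ∀ l ∈ ann A, ∃ μ : ℝ, b' l = μ • a l₀ := by
    intro l hl
    refine exists_par ha0 ?_
    have := hpol l hl l₀ hl₀
    rw [hb'0] at this
    simp only [Prod.fst_zero, Prod.snd_zero, mul_zero, sub_zero, zero_add] at this
    exact this
  by_cases hcase : ∀ l ∈ ann A, b' l = 0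
  · -- `b = lam • a`
    have hbl : ∀ l ∈ ann A, b l = lam • a l := fun l hl => sub_eq_zero.mp (hcase l hl)
    have hl0 : lam ≠ 0 := by
      intro h
      obtain ⟨l, hl, hne⟩ := hwv
      have := hbl l hl
      rw [h, zero_smul] at this
      apply hne
      have h1 := congrArg Prod.fst this
      have h2 := congrArg Prod.snd this
      simp only [hb, Prod.fst_zero, Prod.snd_zero] at h1 h2
      exact Prod.ext (by simp only [pos]; linarith) (by simp only [pos]; linarith)
    have hl1 : lam ≠ 1 := by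
      intro h
      obtain ⟨l, hl, hne⟩ := huw
      have := hbl l hl
      rw [h, one_smul] at this
      apply hne
      have h1 := congrArg Prod.fst this
      have h2 := congrArg Prod.snd this
      simp only [hb, ha] at h1 h2
      exact Prod.ext (by simp only [pos]; linarith) (by simp only [pos]; linarith)
    refine h4 (-lam, 1) (by simpa using hl0) (by simp) (by
      intro h; apply hl1; simp only at h; linarith) ?_
    refine mem_of_ann A (fun l hl => ?_)
    rw [dual_tri]
    have h1 := congrArg Prod.fst (hbl l hl)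
    simp only [hb, ha, Prod.smul_fst, smul_eq_mul] at h1
    simp only
    linarith
  · push Not at hcase
    obtain ⟨l₁, hl₁, hb1⟩ := hcase
    obtain ⟨μ, hμ⟩ := hpar l₁ hl₁
    have hμ0 : μ ≠ 0 := by
      intro h; rw [h, zero_smul] at hμ; exact hb1 hμ
    have ha1 : ∃ ν : ℝ, a l₁ = ν • a l₀ := by
      refine exists_par ha0 ?_
      have := hab' l₁ hl₁
      rw [hμ] at this
      simp only [Prod.smul_fst, Prod.smul_snd, smul_eq_mul] at this
      have h2 : μ * ((a l₀).1 * (a l₁).2 - (a l₀).2 * (a l₁).1) = 0 := by linear_combination -this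
      exact (mul_eq_zero.mp h2).resolve_left hμ0
    obtain ⟨ν, hν⟩ := ha1
    have hall : ∀ l ∈ ann A, (a l).1 * (a l₀).2 - (a l).2 * (a l₀).1 = 0 := by
      intro l hl
      obtain ⟨ρ, hρ⟩ := hpar l hl
      have := hpol l hl l₁ hl₁
      rw [hμ, hν, hρ] at this
      simp only [Prod.smul_fst, Prod.smul_snd, smul_eq_mul] at this
      have h2 : μ * ((a l).1 * (a l₀).2 - (a l).2 * (a l₀).1) = 0 := by linear_combination this
      exact (mul_eq_zero.mp h2).resolve_left hμ0
    refine h3 (perp (a l₀)) ?_ ?_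
    · intro h
      apply ha0
      have h1 := congrArg Prod.fst h
      have h2 := congrArg Prod.snd h
      simp only [perp, Prod.fst_zero, Prod.snd_zero, neg_eq_zero] at h1 h2
      exact Prod.ext h2 h1
    · refine mem_of_ann A (fun l hl => ?_)
      rw [dual_dip]
      have := hall l hl
      simp only [ha, perp] at this ⊢
      linear_combination -this

theorem exists_pos (B : X → Finset V) (q : C → X → V → ℝ × ℝ) (c : X → C) (hc : GoodCol B q c)
    (hinj : ∀ i x u v, u ∈ B x → v ∈ B x → u ≠ v → q i x u ≠ q i x v)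
    (hgen : ∀ i x u v w, u ∈ B x → v ∈ B x → w ∈ B x → u ≠ v → w ≠ u → w ≠ v →
      (q i x u - q i x v).1 * ((q i x w).2 - (q i x u).2) -
        (q i x u - q i x v).2 * ((q i x w).1 - (q i x u).1) ≠ 0) :
    ∃ p : V → ℝ × ℝ, Function.Injective p ∧
      (∀ u v w, u ≠ v → w ≠ u → w ≠ v → det3 (p v) (p u) (p w) ≠ 0) ∧
      (∀ x u v, u ∈ B x → v ∈ B x → ∃ t : ℝ, p u - p v = t • (q (c x) x u - q (c x) x v)) := by
  set A := spA B q c with hA
  -- directions inside bodies
  have hdir : ∀ l ∈ ann A, ∀ x u v, u ∈ B x → v ∈ B x →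
      ∃ t : ℝ, pos l u - pos l v = t • (q (c x) x u - q (c x) x v) := by
    intro l hl x u v hu hv
    by_cases huv : u = v
    · subst huv
      exact ⟨0, by simp⟩
    set f := q (c x) x u - q (c x) x v with hf
    have hf0 : f ≠ 0 := sub_ne_zero.mpr (hinj _ _ _ _ hu hv huv)
    refine exists_par hf0 ?_
    have hmem : dip u v (perp f) ∈ A := by
      rw [hA, mem_spA]
      refine ⟨Pi.single x (dip u v (perp f)), ⟨?_, ?_, ?_⟩, ?_, ?_⟩
      · intro y hy; exact absurd (mem_univ _) hy
      · intro y z hz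
        by_cases hyx : y = x
        · subst hyx
          rw [Pi.single_eq_same]
          have h1 : z ≠ u := fun h => hz (h ▸ hu)
          have h2 : z ≠ v := fun h => hz (h ▸ hv)
          simp [dip, h1, h2]
        · rw [Pi.single_eq_of_ne hyx]; rfl
      · intro y
        by_cases hyx : y = x
        · subst hyx
          rw [Pi.single_eq_same]
          exact sum_dip _ _ _
        · rw [Pi.single_eq_of_ne hyx]; simp
      · intro y
        by_cases hyx : y = x
        · subst hyx
          rw [Pi.single_eq_same, ip_dip]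
          simp only [hf, perp, Prod.fst_sub, Prod.snd_sub]
          ring
        · rw [Pi.single_eq_of_ne hyx, map_zero]
      · rw [sumMap_apply]
        simp
    have h0 := hl _ hmem
    rw [dual_dip] at h0
    simp only [perp, pos, Prod.fst_sub, Prod.snd_sub] at h0 ⊢
    linear_combination h0
  -- distinctness
  have hdist : ∀ u v, u ≠ v → ∃ l ∈ ann A, pos l u ≠ pos l v := by
    intro u v huv
    have key : ∀ n : ℝ × ℝ, dip u v n ∉ A → ∃ l ∈ ann A, pos l u ≠ pos l v := by
      intro n hn
      obtain ⟨l, hl, hne⟩ := exists_ann A hn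
      refine ⟨l, hl, fun h => hne ?_⟩
      rw [dual_dip]
      have h1 := congrArg Prod.fst h
      have h2 := congrArg Prod.snd h
      simp only [pos] at h1 h2
      rw [h1, h2]; ring
    by_cases hcom : ∃ x, u ∈ B x ∧ v ∈ B x
    · obtain ⟨x, hu, hv⟩ := hcom
      exact key _ (test1 B q c hc hinj x u v hu hv huv)
    · push Not at hcom
      exact key (1, 0) (test3 B q c hc u v huv (fun x h => hcom x h.1 h.2) (1, 0) (by simp))
  have hsq : ∀ (l : (V → ℝ × ℝ) →ₗ[ℝ] ℝ) u v, sqd u v l ≠ 0 ↔ pos l u ≠ pos l v := by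
    intro l u v
    unfold sqd
    constructor
    · intro h heq
      apply h
      have h1 := congrArg Prod.fst heq
      have h2 := congrArg Prod.snd heq
      simp only [pos] at h1 h2
      rw [h1, h2]; ring
    · intro h
      exact ne_zero_of_sq (f := (px u l - px v l, py u l - py v l)) (fun h0 => h (by
        have h1 := congrArg Prod.fst h0
        have h2 := congrArg Prod.snd h0
        simp only [Prod.fst_zero, Prod.snd_zero] at h1 h2
        exact Prod.ext (by simp only [pos]; linarith) (by simp only [pos]; linarith)))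
  -- collinearity
  have hcol : ∀ u v w, u ≠ v → w ≠ u → w ≠ v → ∃ l ∈ ann A, dt u v w l ≠ 0 := by
    intro u v w huv hwu hwv
    by_cases hcom : ∃ x, u ∈ B x ∧ v ∈ B x
    · obtain ⟨x, hu, hv⟩ := hcom
      have t1 := test1 B q c hc hinj x u v hu hv huv
      have t2 := test2 B q c hc hinj hgen x u v w hu hv huv hwu hwv
      set f := q (c x) x u - q (c x) x v with hf
      obtain ⟨l, hl, hne⟩ := exists_common (ann A) (univ : Finset (Fin 2))
        (fun i l => if i = 0 then l (dip u v f) else l (dip w u (perp f)))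
        (by
          intro i _
          by_cases hi : i = 0
          · simp only [if_pos hi]
            exact PolyLine.linear (LinearMap.applyₗ (dip u v f))
          · simp only [if_neg hi]
            exact PolyLine.linear (LinearMap.applyₗ (dip w u (perp f))))
        (by
          intro i _
          by_cases hi : i = 0
          · simp only [if_pos hi]
            exact exists_ann A t1
          · simp only [if_neg hi]
            exact exists_ann A t2)
      have hn1 := hne 0 (mem_univ _)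
      have hn2 := hne 1 (mem_univ _)
      simp only [if_true, one_ne_zero, if_false] at hn1 hn2
      refine ⟨l, hl, ?_⟩
      obtain ⟨t, ht⟩ := hdir l hl x u v hu hv
      rw [← hf] at ht
      rw [dual_dip] at hn1 hn2
      have ht1 := congrArg Prod.fst ht
      have ht2 := congrArg Prod.snd ht
      simp only [pos, Prod.fst_sub, Prod.snd_sub, Prod.smul_fst, Prod.smul_snd, smul_eq_mul]
        at ht1 ht2
      have ht0 : t ≠ 0 := by
        intro h
        apply hn1
        rw [ht1, ht2, h]; ring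
      simp only [perp] at hn2
      have e : dt u v w l = t * (-f.2 * (px w l - px u l) + f.1 * (py w l - py u l)) := by
        unfold dt
        linear_combination (py w l - py v l - (py u l - py v l)) * ht1 -
          (px w l - px v l - (px u l - px v l)) * ht2
      rw [e]
      exact mul_ne_zero ht0 hn2
    · push Not at hcom
      exact exists_dt A u v w
        (fun n hn => test3 B q c hc u v huv (fun x h => hcom x h.1 h.2) n hn)
        (hdist w v hwv) (hdist u w hwu.symm)
        (fun n h1 h2 h3 => test4 B q c hc u v w huv hwu hwv (fun x h => hcom x h.1 h.2) n h1 h2 h3)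
  obtain ⟨l₁, hl₁, hgood⟩ := exists_common (ann A)
    ((univ : Finset (V × V × V × Fin 2)).filter
      (fun s => s.1 ≠ s.2.1 ∧ (s.2.2.2 = 0 ∨ (s.2.2.1 ≠ s.1 ∧ s.2.2.1 ≠ s.2.1))))
    (fun s l => if s.2.2.2 = 0 then sqd s.1 s.2.1 l else dt s.1 s.2.1 s.2.2.1 l)
    (by
      rintro ⟨u, v, w, i⟩ _
      by_cases hi : i = 0
      · simp only [if_pos hi]; exact sqd_poly u v
      · simp only [if_neg hi]; exact dt_poly u v w)
    (by
      rintro ⟨u, v, w, i⟩ hs
      simp only [mem_filter, mem_univ, true_and] at hs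
      by_cases hi : i = 0
      · simp only [if_pos hi]
        obtain ⟨l, hl, hne⟩ := hdist u v hs.1
        exact ⟨l, hl, (hsq l u v).mpr hne⟩
      · simp only [if_neg hi]
        have h2 := hs.2.resolve_left hi
        exact hcol u v w hs.1 h2.1 h2.2)
  refine ⟨pos l₁, ?_, ?_, ?_⟩
  · intro u v huv
    by_contra hne
    have := hgood (u, v, u, 0) (by simp [hne])
    simp only [if_true] at this
    exact (hsq l₁ u v).mp this huv
  · intro u v w huv hwu hwv
    have := hgood (u, v, w, 1) (by simp [huv, hwu, hwv])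
    simp only [one_ne_zero, if_false] at this
    intro h
    apply this
    unfold det3 pos at h
    unfold dt
    simp only at h
    linear_combination h
  · intro x u v hu hv
    exact hdir l₁ hl₁ x u v hu hv

end Pool.Agent.Lib.MP_04668c_co
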