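import Pool.Agent.Lib.MP_04668c_co.Good

/-!
# Connected representations
-/

set_option autoImplicit false
set_option linter.unusedSectionVars false

namespace Pool.Agent.Lib.MP_04668c_co

open Finset Classical Module

variable {V X C : Type} [Fintype V] [Fintype X] [Fintype C]

/-- Representations of `ψ` with support in `K`. -/
def IsRep (B : X → Finset V) (q : C → X → V → ℝ × ℝ) (c : X → C) (K : Finset X)
    (Φ : X → V → ℝ × ℝ) (ψ : V → ℝ × ℝ) : Prop :=
  Φ ∈ famK B K ∧ (∀ x, ip (q (c x) x) (Φ x) = 0) ∧ sumMap Φ = ψ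

/-- The space of forces that are ignored by all drawings. -/
noncomputable def spA (B : X → Finset V) (q : C → X → V → ℝ × ℝ) (c : X → C) : Submodule ℝ (V → ℝ × ℝ) :=
  (famK B univ ⊓ ⨅ x, LinearMap.ker (lamB q x (c x))).map sumMap

theorem mem_spA (B : X → Finset V) (q : C → X → V → ℝ × ℝ) (c : X → C) (ψ : V → ℝ × ℝ) :
    ψ ∈ spA B q c ↔ ∃ Φ, IsRep B q c univ Φ ψ := by
  unfold spA IsRep
  simp only [Submodule.mem_map, Submodule.mem_inf, Submodule.mem_iInf, LinearMap.mem_ker,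
    lamB_apply]
  constructor
  · rintro ⟨Φ, ⟨h1, h2⟩, h3⟩; exact ⟨Φ, h1, h2, h3⟩
  · rintro ⟨Φ, h1, h2, h3⟩; exact ⟨Φ, ⟨h1, h2⟩, h3⟩

/-- Forces that cannot be split. -/
def Indec (ψ : V → ℝ × ℝ) : Prop :=
  ∀ U : Finset V, ∑ v ∈ U, ψ v = 0 → (∀ v ∈ U, ψ v = 0) ∨ (∀ v, v ∉ U → ψ v = 0)

theorem conn_rep (B : X → Finset V) (q : C → X → V → ℝ × ℝ) (c : X → C) (ψ : V → ℝ × ℝ)
    (hψ : Indec ψ) (hA : ψ ∈ spA B q c) :
    ∃ (K : Finset X) (Φ : X → V → ℝ × ℝ), Conn (adjB B) K ∧ Φ ∈ famK B K ∧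
      (∀ x ∈ K, Φ x ≠ 0) ∧ (∀ x ∈ K, ip (q (c x) x) (Φ x) = 0) ∧ sumMap Φ = ψ := by
  rw [mem_spA] at hA
  obtain ⟨Φ₀, hΦ₀⟩ := hA
  obtain ⟨K, hK, hmin⟩ := Finset.exists_min_image
    (univ.filter (fun K : Finset X => ∃ Φ, IsRep B q c K Φ ψ)) Finset.card
    ⟨univ, by rw [mem_filter]; exact ⟨mem_univ _, Φ₀, hΦ₀⟩⟩
  rw [mem_filter] at hK
  obtain ⟨-, Φ, hΦ, hz, hsum⟩ := hK
  have hmin' : ∀ K' : Finset X, K'.card < K.card → ∀ Φ', ¬ IsRep B q c K' Φ' ψ := by
    intro K' hK' Φ' h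
    have := hmin K' (by rw [mem_filter]; exact ⟨mem_univ _, Φ', h⟩)
    omega
  have hnz : ∀ x ∈ K, Φ x ≠ 0 := by
    intro x hx h0
    refine hmin' (K.erase x) (Finset.card_erase_lt_of_mem hx) Φ ⟨⟨?_, hΦ.2.1, hΦ.2.2⟩, hz, hsum⟩
    intro y hy
    by_cases hyx : y = x
    · rw [hyx]; exact h0
    · exact hΦ.1 y (fun h => hy (Finset.mem_erase.mpr ⟨hyx, h⟩))
  refine ⟨K, Φ, ?_, hΦ, hnz, fun x _ => hz x, hsum⟩
  intro Y hYK hYne hYK'
  by_contra hcon
  push Not at hcon
  -- restriction of the family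
  have hres : ∀ (Z : Finset X), Z ⊆ K → Z.card < K.card →
      (∀ v, ∑ x, (if x ∈ Z then Φ x else 0) v = ψ v) → False := by
    intro Z hZK hZ hsum'
    refine hmin' Z hZ (fun x => if x ∈ Z then Φ x else 0) ⟨⟨?_, ?_, ?_⟩, ?_, ?_⟩
    · intro x hx
      simp only [if_neg hx]
    · intro x v hv
      by_cases hx : x ∈ Z
      · simp only [if_pos hx]; exact hΦ.2.1 x v hv
      · simp only [if_neg hx]; rfl
    · intro x
      by_cases hx : x ∈ Z
      · simp only [if_pos hx]; exact hΦ.2.2 x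
      · simp only [if_neg hx]; simp
    · intro x
      by_cases hx : x ∈ Z
      · simp only [if_pos hx]; exact hz x
      · simp only [if_neg hx]; simp
    · funext v
      rw [sumMap_apply, Finset.sum_apply]
      exact hsum' v
  have hψv : ∀ v, ψ v = ∑ x, Φ x v := by
    intro v
    rw [← hsum, sumMap_apply, Finset.sum_apply]
  have hin : ∀ v ∈ vs B Y, ∀ x, x ∉ Y → Φ x v = 0 := by
    intro v hv x hx
    by_cases hxK : x ∈ K
    · by_contra hne
      rw [mem_vs] at hv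
      obtain ⟨y, hy, hvy⟩ := hv
      have hvx : v ∈ B x := by
        by_contra h; exact hne (hΦ.2.1 x v h)
      exact hcon y hy x hxK hx ⟨v, hvy, hvx⟩
    · rw [hΦ.1 x hxK]; rfl
  have hout : ∀ v, v ∉ vs B Y → ∀ x ∈ Y, Φ x v = 0 := by
    intro v hv x hx
    refine hΦ.2.1 x v (fun h => hv ?_)
    rw [mem_vs]; exact ⟨x, hx, h⟩
  have hUsum : ∑ v ∈ vs B Y, ψ v = 0 := by
    simp_rw [hψv]
    rw [Finset.sum_comm]
    refine Finset.sum_eq_zero (fun x _ => ?_)
    by_cases hx : x ∈ Y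
    · rw [← hΦ.2.2 x]
      refine Finset.sum_subset (Finset.subset_univ _) (fun v _ hv => hout v hv x hx)
    · exact Finset.sum_eq_zero (fun v hv => hin v hv x hx)
  rcases hψ _ hUsum with h | h
  · refine hres (K \ Y) Finset.sdiff_subset ?_ ?_
    · refine Finset.card_lt_card ⟨Finset.sdiff_subset, fun hsub => ?_⟩
      obtain ⟨y, hy⟩ := hYne
      exact (Finset.mem_sdiff.mp (hsub (hYK hy))).2 hy
    · intro v
      by_cases hv : v ∈ vs B Y
      · rw [h v hv]
        refine Finset.sum_eq_zero (fun x _ => ?_)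
        by_cases hx : x ∈ K \ Y
        · rw [if_pos hx]; exact hin v hv x (Finset.mem_sdiff.mp hx).2
        · rw [if_neg hx]; rfl
      · rw [hψv v]
        refine Finset.sum_congr rfl (fun x _ => ?_)
        by_cases hx : x ∈ K \ Y
        · rw [if_pos hx]
        · rw [if_neg hx]
          by_cases hxY : x ∈ Y
          · rw [hout v hv x hxY]; rfl
          · have : x ∉ K := fun hK => hx (Finset.mem_sdiff.mpr ⟨hK, hxY⟩)
            rw [hΦ.1 x this]
  · refine hres Y hYK ?_ ?_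
    · exact Finset.card_lt_card ⟨hYK, fun hsub => hYK' (Finset.Subset.antisymm hYK hsub)⟩
    · intro v
      by_cases hv : v ∈ vs B Y
      · rw [hψv v]
        refine Finset.sum_congr rfl (fun x _ => ?_)
        by_cases hx : x ∈ Y
        · rw [if_pos hx]
        · rw [if_neg hx, hin v hv x hx]; rfl
      · rw [h v hv]
        refine Finset.sum_eq_zero (fun x _ => ?_)
        by_cases hx : x ∈ Y
        · rw [if_pos hx]; exact hout v hv x hx
        · rw [if_neg hx]; rfl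

theorem indec_dip (u v : V) (n : ℝ × ℝ) : Indec (dip u v n) := by
  intro U hU
  by_cases hn : n = 0
  · left
    intro z _
    simp [dip, hn]
  by_cases huv : u = v
  · left
    intro z _
    rw [huv, dip_self]; rfl
  have hsum : ∑ z ∈ U, dip u v n z = (if u ∈ U then n else 0) - (if v ∈ U then n else 0) := by
    simp only [dip, Finset.sum_sub_distrib, Finset.sum_ite_eq']
  rw [hsum] at hU
  by_cases hu : u ∈ U <;> by_cases hv : v ∈ U
  · right
    intro z hz
    have h1 : z ≠ u := fun h => hz (h ▸ hu)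
    have h2 : z ≠ v := fun h => hz (h ▸ hv)
    simp [dip, h1, h2]
  · rw [if_pos hu, if_neg hv, sub_zero] at hU
    exact absurd hU hn
  · rw [if_neg hu, if_pos hv, zero_sub, neg_eq_zero] at hU
    exact absurd hU hn
  · left
    intro z hz
    have h1 : z ≠ u := fun h => hu (h ▸ hz)
    have h2 : z ≠ v := fun h => hv (h ▸ hz)
    simp [dip, h1, h2]

theorem triL_apply (u v w : V) (n : ℝ × ℝ) (z : V) :
    triL u v w n z = (if z = u then (n.1, (0 : ℝ)) else 0) - (if z = v then (n.1, (0 : ℝ)) else 0) +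
      ((if z = w then (n.2, (0 : ℝ)) else 0) - (if z = v then (n.2, (0 : ℝ)) else 0)) := rfl

theorem indec_tri (u v w : V) (n : ℝ × ℝ) (h1 : n.1 ≠ 0) (h2 : n.2 ≠ 0) (h3 : n.1 + n.2 ≠ 0) :
    Indec (triL u v w n) := by
  intro U hU
  have hsum : ∑ z ∈ U, triL u v w n z =
      ((if u ∈ U then (n.1, (0 : ℝ)) else 0) - (if v ∈ U then (n.1, (0 : ℝ)) else 0)) +
      ((if w ∈ U then (n.2, (0 : ℝ)) else 0) - (if v ∈ U then (n.2, (0 : ℝ)) else 0)) := by
    simp only [triL_apply, Finset.sum_add_distrib, Finset.sum_sub_distrib, Finset.sum_ite_eq']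
  rw [hsum] at hU
  have hfst := congrArg Prod.fst hU
  by_cases hu : u ∈ U <;> by_cases hv : v ∈ U <;> by_cases hw : w ∈ U
  · right
    intro z hz
    have h1 : z ≠ u := fun h => hz (h ▸ hu)
    have h2 : z ≠ v := fun h => hz (h ▸ hv)
    have h3 : z ≠ w := fun h => hz (h ▸ hw)
    simp [triL_apply, h1, h2, h3]
  · simp [hu, hv, hw] at hfst
    exact absurd hfst h2
  · simp [hu, hv, hw] at hfst
    exact absurd hfst h3
  · simp [hu, hv, hw] at hfst
    exact absurd hfst h1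
  · simp [hu, hv, hw] at hfst
    exact absurd hfst h1
  · simp [hu, hv, hw] at hfst
    exfalso; apply h3; linarith
  · simp [hu, hv, hw] at hfst
    exact absurd hfst h2
  · left
    intro z hz
    have h1 : z ≠ u := fun h => hu (h ▸ hz)
    have h2 : z ≠ v := fun h => hv (h ▸ hz)
    have h3 : z ≠ w := fun h => hw (h ▸ hz)
    simp [triL_apply, h1, h2, h3]

end Pool.Agent.Lib.MP_04668c_co
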