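import Pool.Agent.Lib.MP_04668c_co.Rosenfeld

/-!
# Revealing the colours one at a time
-/

set_option autoImplicit false
set_option linter.unusedSectionVars false

namespace Pool.Agent.Lib.MP_04668c_co

open Finset Classical Module

variable {X C : Type} [Fintype X] [Fintype C]
variable {M : Type} [AddCommGroup M] [Module ℝ M] [FiniteDimensional ℝ M]

/-- The subspace left after revealing the colours of the elements of `T` earlier than `x`. -/
noncomputable def dlt (ord : X → ℕ) (lam : X → C → (M →ₗ[ℝ] ℝ)) (D₀ : Submodule ℝ M)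
    (T : Finset X) (c : X → C) (x : X) : Submodule ℝ M :=
  D₀ ⊓ ⨅ y ∈ T.filter (fun y => ord y < ord x), LinearMap.ker (lam y (c y))

theorem mem_dlt (ord : X → ℕ) (lam : X → C → (M →ₗ[ℝ] ℝ)) (D₀ : Submodule ℝ M)
    (T : Finset X) (c : X → C) (x : X) (e : M) :
    e ∈ dlt ord lam D₀ T c x ↔ e ∈ D₀ ∧ ∀ y ∈ T, ord y < ord x → lam y (c y) e = 0 := by
  unfold dlt
  simp only [Submodule.mem_inf, Submodule.mem_iInf, mem_filter, LinearMap.mem_ker]
  exact ⟨fun h => ⟨h.1, fun y hy hy' => h.2 y ⟨hy, hy'⟩⟩, fun h => ⟨h.1, fun y hy => h.2 y hy.1 hy.2⟩⟩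

/-- The elements whose condition is already implied by the earlier ones. -/
noncomputable def failSet (ord : X → ℕ) (lam : X → C → (M →ₗ[ℝ] ℝ)) (D₀ : Submodule ℝ M)
    (T : Finset X) (c : X → C) : Finset X :=
  T.filter (fun x => dlt ord lam D₀ T c x ≤ LinearMap.ker (lam x (c x)))

theorem fail_count_aux (ord : X → ℕ) (hord : Function.Injective ord)
    (lam : X → C → (M →ₗ[ℝ] ℝ)) (D₀ : Submodule ℝ M) (T : Finset X) (c : X → C) :
    T.card + finrank ℝ (D₀ ⊓ ⨅ y ∈ T, LinearMap.ker (lam y (c y)) : Submodule ℝ M) ≤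
      (failSet ord lam D₀ T c).card + finrank ℝ D₀ := by
  induction T using Finset.induction_on_max_value ord with
  | empty =>
    simp only [Finset.card_empty, zero_add]
    exact (Submodule.finrank_mono inf_le_left).trans (Nat.le_add_left _ _)
  | insert z T hz hmax ih =>
    have hlt : ∀ x ∈ T, ord x < ord z := fun x hx =>
      lt_of_le_of_ne (hmax x hx) (fun h => hz ((hord h) ▸ hx))
    set U : Submodule ℝ M := D₀ ⊓ ⨅ y ∈ T, LinearMap.ker (lam y (c y)) with hU
    have hU' : (D₀ ⊓ ⨅ y ∈ insert z T, LinearMap.ker (lam y (c y)) : Submodule ℝ M) =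
        U ⊓ LinearMap.ker (lam z (c z)) := by
      rw [hU, Finset.iInf_insert]
      rw [inf_comm (LinearMap.ker (lam z (c z))), inf_assoc]
    have hdz : dlt ord lam D₀ (insert z T) c z = U := by
      ext e
      rw [mem_dlt, hU]
      simp only [Submodule.mem_inf, Submodule.mem_iInf, LinearMap.mem_ker, mem_insert]
      refine and_congr_right (fun _ => ⟨fun h y hy => h y (Or.inr hy) (hlt y hy), ?_⟩)
      intro h y hy hyz
      rcases hy with rfl | hy
      · exact absurd hyz (lt_irrefl _)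
      · exact h y hy
    have hdx : ∀ x ∈ T, dlt ord lam D₀ (insert z T) c x = dlt ord lam D₀ T c x := by
      intro x hx
      ext e
      rw [mem_dlt, mem_dlt]
      refine and_congr_right (fun _ => ⟨fun h y hy => h y (mem_insert_of_mem hy), ?_⟩)
      intro h y hy hyx
      rcases mem_insert.mp hy with rfl | hy
      · have := hlt x hx; omega
      · exact h y hy hyx
    have hfail : failSet ord lam D₀ (insert z T) c =
        (if U ≤ LinearMap.ker (lam z (c z)) then {z} else ∅) ∪ failSet ord lam D₀ T c := by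
      ext x
      rw [mem_union, failSet, failSet, mem_filter, mem_filter, mem_insert]
      constructor
      · rintro ⟨rfl | hx, h⟩
        · left
          rw [hdz] at h
          rw [if_pos h]; simp
        · right
          exact ⟨hx, (hdx x hx) ▸ h⟩
      · rintro (h | ⟨hx, h⟩)
        · by_cases hc : U ≤ LinearMap.ker (lam z (c z))
          · rw [if_pos hc, mem_singleton] at h
            subst h
            exact ⟨Or.inl rfl, by rw [hdz]; exact hc⟩
          · rw [if_neg hc] at h; simp at h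
        · exact ⟨Or.inr hx, by rw [hdx x hx]; exact h⟩
    have hzT : z ∉ failSet ord lam D₀ T c := fun h => hz (Finset.mem_filter.mp h).1
    rw [hU', Finset.card_insert_of_notMem hz, hfail]
    by_cases hc : U ≤ LinearMap.ker (lam z (c z))
    · rw [if_pos hc, inf_eq_left.mpr hc, Finset.card_union_of_disjoint
        (Finset.disjoint_singleton_left.mpr hzT), Finset.card_singleton]
      omega
    · rw [if_neg hc, Finset.empty_union]
      have hlt' : U ⊓ LinearMap.ker (lam z (c z)) < U :=
        lt_of_le_of_ne inf_le_left (fun h => hc (inf_eq_left.mp h))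
      have := Submodule.finrank_lt_finrank_of_lt hlt'
      omega

theorem fail_count (ord : X → ℕ) (hord : Function.Injective ord)
    (lam : X → C → (M →ₗ[ℝ] ℝ)) (D₀ : Submodule ℝ M) (T : Finset X) (c : X → C)
    (e : M) (he : e ≠ 0) (he₀ : e ∈ D₀) (heT : ∀ x ∈ T, lam x (c x) e = 0) :
    T.card + 1 ≤ (failSet ord lam D₀ T c).card + finrank ℝ D₀ := by
  have h := fail_count_aux ord hord lam D₀ T c
  have hmem : e ∈ (D₀ ⊓ ⨅ y ∈ T, LinearMap.ker (lam y (c y)) : Submodule ℝ M) := by
    simp only [Submodule.mem_inf, Submodule.mem_iInf, LinearMap.mem_ker]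
    exact ⟨he₀, heT⟩
  have hpos : 0 < finrank ℝ (D₀ ⊓ ⨅ y ∈ T, LinearMap.ker (lam y (c y)) : Submodule ℝ M) := by
    have hnt : Nontrivial (D₀ ⊓ ⨅ y ∈ T, LinearMap.ker (lam y (c y)) : Submodule ℝ M) :=
      ⟨⟨⟨e, hmem⟩, 0, fun h => he (congrArg Subtype.val h)⟩⟩
    exact Module.finrank_pos
  omega

theorem fail_fibre (ord : X → ℕ) (hord : Function.Injective ord) (r : ℕ)
    (lam : X → C → (M →ₗ[ℝ] ℝ)) (nz : X → M → Prop)
    (hr : ∀ x e, nz x e → (univ.filter (fun i => lam x i e = 0)).card ≤ r)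
    (T : Finset X) (D₀ : (X → C) → Submodule ℝ M)
    (hD₀ : ∀ c c' : X → C, (∀ y, y ∉ T → c y = c' y) → D₀ c = D₀ c')
    (D : Finset X) (c₀ : X → C) :
    (univ.filter (fun c : X → C => (∀ x, x ∉ D → c x = c₀ x) ∧
      (∃ e ∈ D₀ c, (∀ x ∈ T, nz x e) ∧ ∀ x ∈ T, lam x (c x) e = 0) ∧
      D = failSet ord lam (D₀ c) T c)).card ≤ r ^ D.card := by
  set Val : X → (X → C) → Finset C := fun x c =>
    if h : ∃ e ∈ dlt ord lam (D₀ c) T c x, nz x e then
      univ.filter (fun i => lam x i h.choose = 0) else ∅ with hVal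
  by_cases hDT : D ⊆ T
  swap
  · have : univ.filter (fun c : X → C => (∀ x, x ∉ D → c x = c₀ x) ∧
        (∃ e ∈ D₀ c, (∀ x ∈ T, nz x e) ∧ ∀ x ∈ T, lam x (c x) e = 0) ∧
        D = failSet ord lam (D₀ c) T c) = ∅ := by
      rw [Finset.filter_eq_empty_iff]
      rintro c - ⟨-, -, h⟩
      exact hDT (h ▸ Finset.filter_subset _ _)
    rw [this]; simp
  refine le_trans (Finset.card_le_card ?_) (card_sequential ord hord r D c₀ Val ?_ ?_)
  · intro c hc
    simp only [mem_filter, mem_univ, true_and] at hc ⊢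
    obtain ⟨h1, ⟨e, he, hnz, hz⟩, hD⟩ := hc
    refine ⟨h1, ?_⟩
    intro x hx
    have hxT := hDT hx
    have h : ∃ e ∈ dlt ord lam (D₀ c) T c x, nz x e :=
      ⟨e, by rw [mem_dlt]; exact ⟨he, fun y hy _ => hz y hy⟩, hnz x hxT⟩
    simp only [hVal, dif_pos h, mem_filter, mem_univ, true_and]
    have hfail : x ∈ failSet ord lam (D₀ c) T c := hD ▸ hx
    have h2 := (Finset.mem_filter.mp hfail).2
    exact h2 h.choose_spec.1
  · intro x c
    by_cases h : ∃ e ∈ dlt ord lam (D₀ c) T c x, nz x e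
    · simp only [hVal, dif_pos h]
      exact hr x _ h.choose_spec.2
    · simp only [hVal, dif_neg h]
      simp
  · intro x hx c c' hcc
    have h1 : D₀ c = D₀ c' := hD₀ c c' (fun y hy => hcc y (Or.inl (fun h => hy (hDT h))))
    have h2 : dlt ord lam (D₀ c) T c x = dlt ord lam (D₀ c') T c' x := by
      ext e
      rw [mem_dlt, mem_dlt, h1]
      refine and_congr_right (fun _ => ?_)
      refine forall_congr' (fun y => forall_congr' (fun hy => forall_congr' (fun hyx => ?_)))
      rw [hcc y (Or.inr hyx)]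
    simp only [hVal]
    rw [h2]

end Pool.Agent.Lib.MP_04668c_co
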