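import Mathlib

/-!
# A counting form of the local lemma (after Rosenfeld)
-/

set_option autoImplicit false

namespace Pool.Agent.Lib.MP_04668c_co

open Finset Classical

variable {X C ι : Type} [Fintype X] [Fintype C] [Fintype ι]

/-- The number of functions that agree with `c` outside `D`. -/
theorem card_agree (D : Finset X) (c : X → C) :
    (univ.filter (fun c' : X → C => ∀ x, x ∉ D → c' x = c x)).card = Fintype.card C ^ D.card := by
  have h : univ.filter (fun c' : X → C => ∀ x, x ∉ D → c' x = c x) =
      Fintype.piFinset (fun x => if x ∈ D then (univ : Finset C) else {c x}) := by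
    ext c'
    simp only [mem_filter, mem_univ, true_and, Fintype.mem_piFinset]
    refine forall_congr' (fun x => ?_)
    by_cases hx : x ∈ D
    · simp [hx]
    · simp [hx]
  rw [h, Fintype.card_piFinset]
  have : ∀ x, (if x ∈ D then (univ : Finset C) else {c x}).card =
      if x ∈ D then Fintype.card C else 1 := by
    intro x
    by_cases hx : x ∈ D
    · simp [hx]
    · simp [hx]
  rw [Finset.prod_congr rfl (fun x _ => this x), Finset.prod_ite, Finset.prod_const,
    Finset.prod_const_one, mul_one]
  congr 2
  ext x; simp

/-- Colourings for which no rule inside `S` is bad. -/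
noncomputable def goodSet (K : ι → Finset X) (Bad : ι → (X → C) → Prop) (S : Finset X) :
    Finset (X → C) :=
  univ.filter (fun c => ∀ i, K i ⊆ S → ¬ Bad i c)

theorem rosenfeld (K D : ι → Finset X) (Bad : ι → (X → C) → Prop) (r : ℕ)
    (hC : 0 < Fintype.card C)
    (hK : ∀ i, (K i).Nonempty)
    (hdep : ∀ i c c', (∀ x ∈ K i, c x = c' x) → Bad i c → Bad i c')
    (hfib : ∀ (i : ι) (c₀ : X → C), (univ.filter (fun c : X → C => (∀ x, x ∉ D i → c x = c₀ x) ∧ Bad i c)).card ≤
      r ^ (D i).card)
    (hsum : ∀ x, ∑ i ∈ univ.filter (fun i => x ∈ K i),
      ((2 * (r : ℝ)) / (Fintype.card C : ℝ)) ^ (D i).card ≤ 1 / 2) :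
    ∃ c : X → C, ∀ i, ¬ Bad i c := by
  set s : ℕ := Fintype.card C with hs
  have hs0 : (0 : ℝ) < (s : ℝ) := by exact_mod_cast hC
  set N : Finset X → ℝ := fun S => ((goodSet K Bad S).card : ℝ) with hN
  have hN0 : ∀ S, 0 ≤ N S := fun S => Nat.cast_nonneg _
  -- the main step
  have step : ∀ (m : ℕ) (S : Finset X), S.card = m → ∀ x, x ∉ S → N S ≤ 2 * N (insert x S) := by
    intro m
    induction m using Nat.strong_induction_on with
    | _ m ih =>
      intro S hSm x hx
      -- chains below `S`
      have chain : ∀ (j : ℕ) (T : Finset X), T ⊆ S → (S \ T).card = j → N T ≤ 2 ^ j * N S := by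
        intro j
        induction j with
        | zero =>
          intro T hTS hj
          have : S = T := by
            refine Finset.Subset.antisymm ?_ hTS
            rw [← Finset.sdiff_eq_empty_iff_subset]
            exact Finset.card_eq_zero.mp hj
          rw [this]; simp
        | succ j ihj =>
          intro T hTS hj
          obtain ⟨y, hy⟩ : (S \ T).Nonempty := by
            rw [← Finset.card_pos]; omega
          rw [Finset.mem_sdiff] at hy
          have hcard : T.card < m := by
            rw [← hSm]
            exact Finset.card_lt_card ⟨hTS, fun h => hy.2 (h hy.1)⟩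
          have h1 := ih T.card hcard T rfl y hy.2
          have h2 := ihj (insert y T) (Finset.insert_subset hy.1 hTS) (by
            have : S \ insert y T = (S \ T).erase y := by
              ext z; simp only [mem_sdiff, mem_insert, mem_erase]; tauto
            rw [this, Finset.card_erase_of_mem (by rw [Finset.mem_sdiff]; exact hy)]
            omega)
          calc N T ≤ 2 * N (insert y T) := h1
            _ ≤ 2 * (2 ^ j * N S) := by linarith
            _ = 2 ^ (j + 1) * N S := by ring
      -- bad colourings for one rule
      have bad : ∀ i, (((goodSet K Bad S).filter (fun c => Bad i c)).card : ℝ) ≤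
          ((2 * (r : ℝ)) / (s : ℝ)) ^ (D i).card * N S := by
        intro i
        set A : Finset (X → C) := goodSet K Bad (S \ D i) with hA
        have hAmod : ∀ c c' : X → C, (∀ x, x ∉ D i → c' x = c x) → c ∈ A → c' ∈ A := by
          intro c c' hcc hc
          rw [hA, goodSet, mem_filter] at hc ⊢
          refine ⟨mem_univ _, fun i' hi' hbad => hc.2 i' hi' ?_⟩
          refine hdep i' c' c ?_ hbad
          intro y hy
          have := hi' hy
          rw [Finset.mem_sdiff] at this
          exact hcc y this.2
        have hsub : (goodSet K Bad S).filter (fun c => Bad i c) ⊆ A.filter (fun c => Bad i c) := by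
          intro c hc
          rw [mem_filter, goodSet, mem_filter] at hc
          rw [mem_filter, hA, goodSet, mem_filter]
          exact ⟨⟨mem_univ _, fun i' hi' => hc.1.2 i' (hi'.trans Finset.sdiff_subset)⟩, hc.2⟩
        have h1 : (s ^ (D i).card) * (A.filter (fun c => Bad i c)).card ≤
            r ^ (D i).card * A.card := by
          have e1 : (s ^ (D i).card) * (A.filter (fun c => Bad i c)).card =
              ∑ c ∈ A.filter (fun c => Bad i c),
                (A.filter (fun c' => ∀ x, x ∉ D i → c' x = c x)).card := by
            rw [mul_comm, ← smul_eq_mul, ← Finset.sum_const]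
            refine Finset.sum_congr rfl (fun c hc => ?_)
            rw [mem_filter] at hc
            rw [← card_agree (D i) c]
            congr 1
            ext c'
            simp only [mem_filter, mem_univ, true_and]
            exact ⟨fun h => ⟨hAmod c c' h hc.1, h⟩, fun h => h.2⟩
          have e2 : ∑ c ∈ A.filter (fun c => Bad i c),
                (A.filter (fun c' => ∀ x, x ∉ D i → c' x = c x)).card =
              ∑ c' ∈ A, ((A.filter (fun c => Bad i c)).filter
                (fun c => ∀ x, x ∉ D i → c' x = c x)).card := by
            simp_rw [Finset.card_filter]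
            rw [Finset.sum_comm]
          rw [e1, e2]
          calc ∑ c' ∈ A, ((A.filter (fun c => Bad i c)).filter
                (fun c => ∀ x, x ∉ D i → c' x = c x)).card
              ≤ ∑ c' ∈ A, r ^ (D i).card := by
                refine Finset.sum_le_sum (fun c' _ => ?_)
                refine le_trans (Finset.card_le_card ?_) (hfib i c')
                intro c hc
                rw [mem_filter, mem_filter] at hc
                rw [mem_filter]
                exact ⟨mem_univ _, fun x hx => (hc.2 x hx).symm, hc.1.2⟩
            _ = r ^ (D i).card * A.card := by rw [Finset.sum_const, smul_eq_mul, mul_comm]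
        have h2 : (A.card : ℝ) ≤ 2 ^ (D i).card * N S := by
          have h3 := chain (S \ (S \ D i)).card (S \ D i) Finset.sdiff_subset rfl
          refine h3.trans ?_
          refine mul_le_mul_of_nonneg_right ?_ (hN0 S)
          refine pow_le_pow_right₀ (by norm_num) ?_
          refine Finset.card_le_card ?_
          intro y hy
          simp only [mem_sdiff, not_and, not_not] at hy
          exact hy.2 hy.1
        have h3 : (((goodSet K Bad S).filter (fun c => Bad i c)).card : ℝ) ≤
            ((A.filter (fun c => Bad i c)).card : ℝ) := by
          exact_mod_cast Finset.card_le_card hsub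
        refine h3.trans ?_
        have h4 : ((s : ℝ) ^ (D i).card) * ((A.filter (fun c => Bad i c)).card : ℝ) ≤
            (r : ℝ) ^ (D i).card * (2 ^ (D i).card * N S) := by
          have h5 : ((s : ℝ) ^ (D i).card) * ((A.filter (fun c => Bad i c)).card : ℝ) ≤
              (r : ℝ) ^ (D i).card * (A.card : ℝ) := by exact_mod_cast h1
          exact h5.trans (mul_le_mul_of_nonneg_left h2 (by positivity))
        rw [div_pow, mul_pow]
        rw [div_mul_eq_mul_div, le_div_iff₀ (by positivity)]
        calc ((A.filter (fun c => Bad i c)).card : ℝ) * (s : ℝ) ^ (D i).card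
            = ((s : ℝ) ^ (D i).card) * ((A.filter (fun c => Bad i c)).card : ℝ) := by ring
          _ ≤ (r : ℝ) ^ (D i).card * (2 ^ (D i).card * N S) := h4
          _ = 2 ^ (D i).card * (r : ℝ) ^ (D i).card * N S := by ring
      -- union bound
      have hcover : goodSet K Bad S ⊆ goodSet K Bad (insert x S) ∪
          (univ.filter (fun i => x ∈ K i)).biUnion
            (fun i => (goodSet K Bad S).filter (fun c => Bad i c)) := by
        intro c hc
        rw [mem_union, mem_biUnion]
        by_cases hg : c ∈ goodSet K Bad (insert x S)
        · exact Or.inl hg
        · right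
          rw [goodSet, mem_filter] at hg
          push Not at hg
          obtain ⟨i, hi, hbad⟩ := hg (mem_univ _)
          refine ⟨i, ?_, ?_⟩
          · rw [mem_filter]
            refine ⟨mem_univ _, ?_⟩
            by_contra hxi
            have hKS : K i ⊆ S := by
              intro y hy
              have := hi hy
              rw [mem_insert] at this
              rcases this with rfl | h
              · exact absurd hy hxi
              · exact h
            rw [goodSet, mem_filter] at hc
            exact hc.2 i hKS hbad
          · rw [mem_filter]; exact ⟨hc, hbad⟩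
      have h1 := (Finset.card_le_card hcover).trans ((Finset.card_union_le _ _).trans
        (Nat.add_le_add_left (Finset.card_biUnion_le) _))
      have h2 : N S ≤ N (insert x S) + ∑ i ∈ univ.filter (fun i => x ∈ K i),
          (((goodSet K Bad S).filter (fun c => Bad i c)).card : ℝ) := by
        have : ((goodSet K Bad S).card : ℝ) ≤ ((goodSet K Bad (insert x S)).card : ℝ) +
            ∑ i ∈ univ.filter (fun i => x ∈ K i),
              (((goodSet K Bad S).filter (fun c => Bad i c)).card : ℝ) := by exact_mod_cast h1
        exact this
      have h3 : ∑ i ∈ univ.filter (fun i => x ∈ K i),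
          (((goodSet K Bad S).filter (fun c => Bad i c)).card : ℝ) ≤ (1 / 2) * N S := by
        calc ∑ i ∈ univ.filter (fun i => x ∈ K i),
              (((goodSet K Bad S).filter (fun c => Bad i c)).card : ℝ)
            ≤ ∑ i ∈ univ.filter (fun i => x ∈ K i),
              ((2 * (r : ℝ)) / (s : ℝ)) ^ (D i).card * N S :=
              Finset.sum_le_sum (fun i _ => bad i)
          _ = (∑ i ∈ univ.filter (fun i => x ∈ K i),
              ((2 * (r : ℝ)) / (s : ℝ)) ^ (D i).card) * N S := by rw [Finset.sum_mul]
          _ ≤ (1 / 2) * N S := mul_le_mul_of_nonneg_right (hsum x) (hN0 S)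
      linarith
  -- conclusion
  have pos : ∀ (S : Finset X), 0 < N S := by
    intro S
    induction S using Finset.induction_on with
    | empty =>
      have : goodSet K Bad ∅ = univ := by
        ext c
        rw [goodSet, mem_filter]
        simp only [mem_univ, true_and, iff_true]
        intro i hi
        exact absurd (Finset.subset_empty.mp hi) (hK i).ne_empty
      simp only [hN, this, Finset.card_univ, Fintype.card_fun]
      exact_mod_cast pow_pos hC _
    | insert x S hx ihS =>
      have := step S.card S rfl x hx
      linarith
  have hpos := pos univ
  have : (goodSet K Bad univ).Nonempty := by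
    rw [← Finset.card_pos]
    have h0 : (0 : ℝ) < ((goodSet K Bad univ).card : ℝ) := hpos
    exact_mod_cast h0
  obtain ⟨c, hc⟩ := this
  rw [goodSet, mem_filter] at hc
  exact ⟨c, fun i => hc.2 i (Finset.subset_univ _)⟩

/-- Sequential determination: if on `D` each value is confined to a set of size at most `r` that
depends only on the values outside `D` and on the earlier values, there are few colourings. -/
theorem card_sequential (ord : X → ℕ) (hord : Function.Injective ord) (r : ℕ)
    (D : Finset X) (c₀ : X → C) (Val : X → (X → C) → Finset C)
    (hcard : ∀ x c, (Val x c).card ≤ r)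
    (hdep : ∀ x ∈ D, ∀ c c' : X → C, (∀ y, (y ∉ D ∨ ord y < ord x) → c y = c' y) →
      Val x c = Val x c') :
    (univ.filter (fun c : X → C => (∀ x, x ∉ D → c x = c₀ x) ∧ ∀ x ∈ D, c x ∈ Val x c)).card ≤
      r ^ D.card := by
  induction D using Finset.induction_on_max_value ord with
  | empty =>
    simp only [Finset.card_empty, pow_zero]
    refine Finset.card_le_one.mpr ?_
    intro c hc c' hc'
    simp only [mem_filter, mem_univ, true_and, notMem_empty, not_false_eq_true, forall_const,
      false_implies, implies_true, and_true] at hc hc'
    funext x; rw [hc x, hc' x]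
  | insert z D hz hmax ih =>
    rw [Finset.card_insert_of_notMem hz, pow_succ]
    have hlt : ∀ x ∈ D, ord x < ord z := fun x hx =>
      lt_of_le_of_ne (hmax x hx) (fun h => hz ((hord h) ▸ hx))
    have ih' := ih (by
      intro x hx c c' h
      refine hdep x (Finset.mem_insert_of_mem hx) c c' ?_
      intro y hy
      refine h y ?_
      rcases hy with hy | hy
      · left; exact fun h => hy (Finset.mem_insert_of_mem h)
      · right; exact hy)
    refine le_trans ?_ (Nat.mul_le_mul_right r ih')
    refine Finset.card_le_mul_card_image_of_maps_to
      (f := fun c : X → C => Function.update c z (c₀ z)) ?_ r ?_ |>.trans (le_of_eq (mul_comm _ _))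
    · intro c hc
      simp only [mem_filter, mem_univ, true_and] at hc ⊢
      refine ⟨?_, ?_⟩
      · intro x hx
        by_cases hxz : x = z
        · subst hxz; simp
        · rw [Function.update_of_ne hxz]
          exact hc.1 x (by simp [hxz, hx])
      · intro x hx
        have hxz : x ≠ z := fun h => hz (h ▸ hx)
        rw [Function.update_of_ne hxz]
        have h1 := hc.2 x (Finset.mem_insert_of_mem hx)
        have h2 : Val x c = Val x (Function.update c z (c₀ z)) := by
          refine hdep x (Finset.mem_insert_of_mem hx) _ _ ?_
          intro y hy
          have hyz : y ≠ z := by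
            rintro rfl
            rcases hy with hy | hy
            · exact hy (Finset.mem_insert_self _ _)
            · exact absurd (hlt x hx) (by omega)
          rw [Function.update_of_ne hyz]
        rwa [← h2]
    · intro c' hc'
      simp only [mem_filter, mem_univ, true_and] at hc'
      refine le_trans ?_ (hcard z c')
      refine Finset.card_le_card_of_injOn (fun c => c z) ?_ ?_
      · intro c hc
        simp only [coe_filter, mem_filter, mem_univ, true_and, Set.mem_setOf_eq] at hc
        obtain ⟨⟨h1, h2⟩, h3⟩ := hc
        have h4 := h2 z (Finset.mem_insert_self _ _)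
        have h5 : Val z c = Val z c' := by
          refine hdep z (Finset.mem_insert_self _ _) _ _ ?_
          intro y hy
          have hyz : y ≠ z := by
            rintro rfl
            rcases hy with hy | hy
            · exact hy (Finset.mem_insert_self _ _)
            · omega
          rw [← h3, Function.update_of_ne hyz]
        rw [← h5]
        exact h4
      · intro c hc c'' hc'' heq
        simp only [coe_filter, mem_filter, mem_univ, true_and, Set.mem_setOf_eq] at hc hc''
        have h3 := hc.2
        have h3' := hc''.2
        funext y
        by_cases hyz : y = z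
        · subst hyz; exact heq
        · have e1 : c' y = c y := by rw [← h3, Function.update_of_ne hyz]
          have e2 : c' y = c'' y := by rw [← h3', Function.update_of_ne hyz]
          rw [← e1, e2]

end Pool.Agent.Lib.MP_04668c_co
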