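import Pool.Agent.Lib.MP_04668c_co.Dim

/-!
# A colouring without short relations
-/

set_option autoImplicit false
set_option linter.unusedSectionVars false

namespace Pool.Agent.Lib.MP_04668c_co

open Finset Classical Module

variable {V X C : Type} [Fintype V] [Fintype X] [Fintype C]

/-- The pairing of forces and positions. -/
def ip (p : V → ℝ × ℝ) : (V → ℝ × ℝ) →ₗ[ℝ] ℝ where
  toFun F := ∑ v, ((F v).1 * (p v).1 + (F v).2 * (p v).2)
  map_add' F G := by
    rw [← Finset.sum_add_distrib]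
    refine Finset.sum_congr rfl (fun v _ => ?_)
    simp only [Pi.add_apply, Prod.fst_add, Prod.snd_add]
    ring
  map_smul' a F := by
    rw [RingHom.id_apply, smul_eq_mul, Finset.mul_sum]
    refine Finset.sum_congr rfl (fun v _ => ?_)
    simp only [Pi.smul_apply, Prod.smul_fst, Prod.smul_snd, smul_eq_mul]
    ring

theorem ip_apply (p F : V → ℝ × ℝ) :
    ip p F = ∑ v, ((F v).1 * (p v).1 + (F v).2 * (p v).2) := rfl

/-- The dipole as a linear map. -/
noncomputable def dipL (u v : V) : (ℝ × ℝ) →ₗ[ℝ] (V → ℝ × ℝ) where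
  toFun n := dip u v n
  map_add' n m := by
    funext z
    simp only [dip, Pi.add_apply]
    split_ifs <;> abel
  map_smul' a n := by
    funext z
    simp only [dip, Pi.smul_apply, RingHom.id_apply]
    split_ifs <;> simp

/-- Three horizontal forces `α`, `β`, `-(α + β)` at `u`, `w`, `v`. -/
noncomputable def triL (u v w : V) : (ℝ × ℝ) →ₗ[ℝ] (V → ℝ × ℝ) where
  toFun n := dip u v (n.1, 0) + dip w v (n.2, 0)
  map_add' n m := by
    funext z
    simp only [dip, Pi.add_apply, Prod.fst_add, Prod.snd_add]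
    split_ifs <;> simp <;> ring
  map_smul' a n := by
    funext z
    simp only [dip, Pi.smul_apply, Pi.add_apply, RingHom.id_apply, Prod.smul_fst, Prod.smul_snd]
    split_ifs <;> simp <;> ring

/-- Rotation by a right angle. -/
def perp (n : ℝ × ℝ) : ℝ × ℝ := (-n.2, n.1)

/-- The forbidden forces. -/
noncomputable def Pf (q : C → X → V → ℝ × ℝ) (τ : Fin 4) (x₀ : X) (u v w : V) (i : C) :
    Submodule ℝ (V → ℝ × ℝ) :=
  if τ = 0 then Submodule.span ℝ {dip u v (q i x₀ u - q i x₀ v)}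
  else if τ = 1 then Submodule.span ℝ {dip w u (perp (q i x₀ u - q i x₀ v))}
  else if τ = 2 then LinearMap.range (dipL u v)
  else LinearMap.range (triL u v w)

/-- The dimension bound. -/
def tf (τ : Fin 4) : ℕ := if τ.val < 2 then 1 else 2

theorem finrank_Pf (q : C → X → V → ℝ × ℝ) (τ : Fin 4) (x₀ : X) (u v w : V) (i : C) :
    finrank ℝ (Pf q τ x₀ u v w i) ≤ tf τ := by
  have hs : ∀ F : V → ℝ × ℝ, finrank ℝ (Submodule.span ℝ {F}) ≤ 1 := by
    intro F
    refine (finrank_span_le_card _).trans ?_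
    simp
  have hr : ∀ f : (ℝ × ℝ) →ₗ[ℝ] (V → ℝ × ℝ), finrank ℝ (LinearMap.range f) ≤ 2 := by
    intro f
    refine (LinearMap.finrank_range_le f).trans ?_
    simp
  unfold Pf tf
  fin_cases τ
  · simpa using hs _
  · simpa using hs _
  · simpa using hr _
  · simpa using hr _

/-- The functional attached to body `x` and colour `i`. -/
noncomputable def lamB (q : C → X → V → ℝ × ℝ) (x : X) (i : C) : (X → V → ℝ × ℝ) →ₗ[ℝ] ℝ :=
  (ip (q i x)).comp (LinearMap.proj x)

theorem lamB_apply (q : C → X → V → ℝ × ℝ) (x : X) (i : C) (Φ : X → V → ℝ × ℝ) :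
    lamB q x i Φ = ip (q i x) (Φ x) := rfl

/-- The bodies whose colours are revealed. -/
noncomputable def Hf (τ : Fin 4) (K : Finset X) (x₀ : X) : Finset X :=
  if τ.val < 2 then K.erase x₀ else K

/-- There is a relation with support `K`. -/
def HasRel (B : X → Finset V) (q : C → X → V → ℝ × ℝ) (K : Finset X) (P : Submodule ℝ (V → ℝ × ℝ))
    (c : X → C) : Prop :=
  ∃ Φ ∈ famS B K P, (∀ x ∈ K, Φ x ≠ 0) ∧ ∀ x ∈ K, ip (q (c x) x) (Φ x) = 0

theorem hasRel_fail (B : X → Finset V) (hB : ∀ x, 2 ≤ (B x).card) (q : C → X → V → ℝ × ℝ)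
    (ord : X → ℕ) (hord : Function.Injective ord)
    (L : ℕ) (hL : 1 ≤ L)
    (hslack : ∀ K : Finset X, K.Nonempty →
      L * (∑ x ∈ K, (2 * (B x).card - 3)) + K.card ≤ L * (2 * (vs B K).card - 3) + 1)
    (τ : Fin 4) (x₀ : X) (u v w : V) (K : Finset X) (hKc : Conn (adjB B) K)
    (hK0 : K.Nonempty) (h1 : τ.val < 2 → K ≠ {x₀}) (h2 : 2 ≤ τ.val → 2 ≤ K.card ∧ x₀ ∈ K)
    (c : X → C) (hrel : HasRel B q K (Pf q τ x₀ u v w (c x₀)) c) :
    (insert x₀ K).card ≤ 2 * L *
      (failSet ord (lamB q) (famS B K (Pf q τ x₀ u v w (c x₀))) (Hf τ K x₀) c).card := by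
  obtain ⟨Φ, hΦ, hnz, hz⟩ := hrel
  have hHK : Hf τ K x₀ ⊆ K := by
    unfold Hf
    split_ifs
    · exact Finset.erase_subset _ _
    · exact Finset.Subset.refl _
  have hΦ0 : Φ ≠ 0 := by
    obtain ⟨x, hx⟩ := hK0
    intro h
    exact hnz x hx (by rw [h]; rfl)
  have hB0 : ∀ x, (B x).Nonempty := fun x => by
    rw [← Finset.card_pos]; have := hB x; omega
  have hc := fail_count ord hord (lamB q) (famS B K (Pf q τ x₀ u v w (c x₀))) (Hf τ K x₀) c Φ
    hΦ0 hΦ (fun x hx => hz x (hHK hx))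
  have hd := finrank_famS B hB0 K hKc (Pf q τ x₀ u v w (c x₀))
  have hp := finrank_Pf q τ x₀ u v w (c x₀)
  have hs := hslack K hK0
  have hsum : ∑ x ∈ K, (2 * (B x).card - 2) = ∑ x ∈ K, (2 * (B x).card - 3) + K.card := by
    rw [Finset.card_eq_sum_ones, ← Finset.sum_add_distrib]
    refine Finset.sum_congr rfl (fun x _ => ?_)
    have := hB x
    omega
  have hvs : 2 ≤ (vs B K).card := by
    obtain ⟨x, hx⟩ := hK0
    refine (hB x).trans (Finset.card_le_card ?_)
    intro v hv
    rw [mem_vs]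
    exact ⟨x, hx, hv⟩
  have hKpos : 1 ≤ K.card := Finset.card_pos.mpr hK0
  set f := (failSet ord (lamB q) (famS B K (Pf q τ x₀ u v w (c x₀))) (Hf τ K x₀) c).card with hf
  set sg := ∑ x ∈ K, (2 * (B x).card - 3) with hsg
  -- the slack `d`
  have hd0 : sg ≤ 2 * (vs B K).card - 3 := by
    by_contra hcon
    have : L * (2 * (vs B K).card - 3) + L ≤ L * sg := by
      rw [← Nat.mul_succ]
      exact Nat.mul_le_mul_left _ (by omega)
    have h3 : (1 : ℕ) ≤ L := hL
    omega
  obtain ⟨d, hdd⟩ : ∃ d, 2 * (vs B K).card - 3 = sg + d := ⟨_, (Nat.add_sub_cancel' hd0).symm⟩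
  have hLd : K.card ≤ L * d + 1 := by
    rw [hdd, Nat.mul_add] at hs
    omega
  by_cases hτ : τ.val < 2
  · have ht : tf τ = 1 := by unfold tf; rw [if_pos hτ]
    have hH : Hf τ K x₀ = K.erase x₀ := by unfold Hf; rw [if_pos hτ]
    rw [hH] at hc
    rw [ht] at hp
    by_cases hx : x₀ ∈ K
    · rw [Finset.card_erase_of_mem hx] at hc
      rw [Finset.insert_eq_of_mem hx]
      have hKne := h1 hτ
      have hK2 : 2 ≤ K.card := by
        by_contra hlt
        have h1 : K.card = 1 := by omega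
        obtain ⟨y, hy⟩ := Finset.card_eq_one.mp h1
        rw [hy, Finset.mem_singleton] at hx
        exact hKne (by rw [hy, hx])
      have hfd : d ≤ f := by omega
      have := Nat.mul_le_mul_left (2 * L) hfd
      have e : 2 * L * d = 2 * (L * d) := by ring
      omega
    · rw [Finset.erase_eq_of_notMem hx] at hc
      rw [Finset.card_insert_of_notMem hx]
      have hfd : d + 1 ≤ f := by omega
      have := Nat.mul_le_mul_left (2 * L) hfd
      have e : 2 * L * (d + 1) = 2 * (L * d) + 2 * L := by ring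
      omega
  · have ht : tf τ = 2 := by unfold tf; rw [if_neg hτ]
    have hH : Hf τ K x₀ = K := by unfold Hf; rw [if_neg hτ]
    rw [hH] at hc
    rw [ht] at hp
    obtain ⟨hK2, hx⟩ := h2 (by omega)
    rw [Finset.insert_eq_of_mem hx]
    have hfd : d ≤ f := by omega
    have := Nat.mul_le_mul_left (2 * L) hfd
    have e : 2 * L * d = 2 * (L * d) := by ring
    omega

end Pool.Agent.Lib.MP_04668c_co
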