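import Pool.Agent.Lib.MP_04668c_co.Pos

/-!
# The shapes of the bodies and the drawing of a system of bodies
-/

set_option autoImplicit false
set_option linter.unusedSectionVars false

namespace Pool.Agent.Lib.MP_04668c_co

open Finset Classical Module

variable {V X C : Type} [Fintype V] [Fintype X] [Fintype C]

/-- The position of the vertex with local number `j` in the shape with parameter `T`. -/
noncomputable def shp (T : ℝ) (j : ℕ) : ℝ × ℝ := (T ^ (2 * j + 1), T ^ (4 * j + 2))

theorem shp_snd (T : ℝ) (j : ℕ) : (shp T j).2 = (shp T j).1 ^ 2 := by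
  unfold shp
  simp only
  rw [← pow_mul]
  congr 1
  ring

theorem shp_inj (T : ℝ) (hT : 1 < T) {j k : ℕ} (h : (shp T j).1 = (shp T k).1) : j = k := by
  unfold shp at h
  simp only at h
  have := pow_right_injective₀ (by linarith) (by linarith) h
  omega

theorem shp_gen (T : ℝ) (hT : 1 < T) {j k l : ℕ} (hjk : j ≠ k) (hlj : l ≠ j) (hlk : l ≠ k) :
    (shp T j - shp T k).1 * ((shp T l).2 - (shp T j).2) -
      (shp T j - shp T k).2 * ((shp T l).1 - (shp T j).1) ≠ 0 := by
  have h1 : (shp T j).1 - (shp T k).1 ≠ 0 := fun h => hjk (shp_inj T hT (by linarith))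
  have h2 : (shp T l).1 - (shp T j).1 ≠ 0 := fun h => hlj (shp_inj T hT (by linarith))
  have h3 : (shp T l).1 - (shp T k).1 ≠ 0 := fun h => hlk (shp_inj T hT (by linarith))
  rw [Prod.fst_sub, Prod.snd_sub, shp_snd, shp_snd, shp_snd]
  have e : ((shp T j).1 - (shp T k).1) * ((shp T l).1 ^ 2 - (shp T j).1 ^ 2) -
      ((shp T j).1 ^ 2 - (shp T k).1 ^ 2) * ((shp T l).1 - (shp T j).1) =
      ((shp T j).1 - (shp T k).1) * ((shp T l).1 - (shp T j).1) *
        ((shp T l).1 - (shp T k).1) := by ring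
  rw [e]
  exact mul_ne_zero (mul_ne_zero h1 h2) h3

theorem kill (s b₀ : ℕ) (Bx : Finset V) (j : V → ℕ) (hj : ∀ u ∈ Bx, ∀ v ∈ Bx, j u = j v → u = v)
    (hjb : ∀ v ∈ Bx, j v < b₀) (F : V → ℝ × ℝ) (hF : F ≠ 0) (hsupp : ∀ v, v ∉ Bx → F v = 0) :
    (univ.filter (fun i : Fin s => ip (fun v => shp ((i.val : ℝ) + 2) (j v)) F = 0)).card ≤
      4 * b₀ := by
  set P : Polynomial ℝ := ∑ v ∈ Bx, (Polynomial.C (F v).1 * Polynomial.X ^ (2 * j v + 1) +
    Polynomial.C (F v).2 * Polynomial.X ^ (4 * j v + 2)) with hP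
  have heval : ∀ T : ℝ, P.eval T = ip (fun v => shp T (j v)) F := by
    intro T
    rw [hP, Polynomial.eval_finsetSum, ip_apply]
    have h1 : ∑ v, ((F v).1 * (shp T (j v)).1 + (F v).2 * (shp T (j v)).2) =
        ∑ v ∈ Bx, ((F v).1 * (shp T (j v)).1 + (F v).2 * (shp T (j v)).2) := by
      symm
      refine Finset.sum_subset (Finset.subset_univ _) (fun v _ hv => ?_)
      rw [hsupp v hv]; simp
    rw [h1]
    refine Finset.sum_congr rfl (fun v _ => ?_)
    simp [shp]
  have hcoef : ∀ n : ℕ, P.coeff n = ∑ v ∈ Bx, ((if n = 2 * j v + 1 then (F v).1 else 0) +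
      (if n = 4 * j v + 2 then (F v).2 else 0)) := by
    intro n
    rw [hP, Polynomial.finsetSum_coeff]
    refine Finset.sum_congr rfl (fun v _ => ?_)
    rw [Polynomial.coeff_add, Polynomial.coeff_C_mul, Polynomial.coeff_C_mul,
      Polynomial.coeff_X_pow, Polynomial.coeff_X_pow]
    simp
  have hP0 : P ≠ 0 := by
    intro h0
    apply hF
    funext v
    by_cases hv : v ∈ Bx
    · have h1 : P.coeff (2 * j v + 1) = (F v).1 := by
        rw [hcoef, Finset.sum_eq_single v]
        · rw [if_pos rfl, if_neg (by omega), add_zero]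
        · intro z hz hzv
          rw [if_neg (fun h => hzv (hj z hz v hv (by omega))), if_neg (by omega), add_zero]
        · intro h; exact absurd hv h
      have h2 : P.coeff (4 * j v + 2) = (F v).2 := by
        rw [hcoef, Finset.sum_eq_single v]
        · rw [if_neg (by omega), if_pos rfl, zero_add]
        · intro z hz hzv
          rw [if_neg (by omega), if_neg (fun h => hzv (hj z hz v hv (by omega))), add_zero]
        · intro h; exact absurd hv h
      rw [h0, Polynomial.coeff_zero] at h1 h2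
      exact Prod.ext h1.symm h2.symm
    · exact hsupp v hv
  have hdeg : P.natDegree ≤ 4 * b₀ := by
    rw [hP]
    refine Polynomial.natDegree_sum_le_of_forall_le _ _ (fun v hv => ?_)
    have hb := hjb v hv
    refine (Polynomial.natDegree_add_le _ _).trans (max_le ?_ ?_)
    · refine (Polynomial.natDegree_C_mul_X_pow_le _ _).trans (by omega)
    · refine (Polynomial.natDegree_C_mul_X_pow_le _ _).trans (by omega)
  calc (univ.filter (fun i : Fin s => ip (fun v => shp ((i.val : ℝ) + 2) (j v)) F = 0)).card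
      ≤ P.roots.toFinset.card := by
        refine Finset.card_le_card_of_injOn (fun i => (i.val : ℝ) + 2) ?_ ?_
        · intro i hi
          simp only [coe_filter, mem_univ, true_and, Set.mem_ofPred_eq] at hi
          rw [mem_coe, Multiset.mem_toFinset, Polynomial.mem_roots hP0, Polynomial.IsRoot.def,
            heval]
          exact hi
        · intro i _ k _ hik
          simp only [add_left_inj, Nat.cast_inj] at hik
          exact Fin.ext hik
    _ ≤ Multiset.card P.roots := Multiset.toFinset_card_le _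
    _ ≤ P.natDegree := Polynomial.card_roots' P
    _ ≤ 4 * b₀ := hdeg

/-- The number of colours. -/
def numCol (b₀ δ L : ℕ) : ℕ := 2 * (4 * b₀) * (Zc b₀ δ) ^ (2 * L) + 1

theorem draw_bodies (B : X → Finset V) (hB : ∀ x, 2 ≤ (B x).card) (b₀ δ L : ℕ)
    (hBb : ∀ x, (B x).card ≤ b₀)
    (hδ : ∀ x, (univ.filter (fun y => adjB B x y)).card ≤ δ)
    (hL : 1 ≤ L)
    (hslack : ∀ K : Finset X, K.Nonempty →
      L * (∑ x ∈ K, (2 * (B x).card - 3)) + K.card ≤ L * (2 * (vs B K).card - 3) + 1) :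
    ∃ p : V → ℝ × ℝ, Function.Injective p ∧
      (∀ u v w, u ≠ v → w ≠ u → w ≠ v → det3 (p v) (p u) (p w) ≠ 0) ∧
      ∃ S : Finset (ℝ × ℝ), S.card ≤ numCol b₀ δ L * (b₀ * b₀) ∧
        ∀ x u v, u ∈ B x → v ∈ B x → ∃ d ∈ S, ∃ t : ℝ, p u - p v = t • d := by
  set s := numCol b₀ δ L with hs
  set idx : X → V → ℕ := fun x v => if h : v ∈ B x then ((B x).equivFin ⟨v, h⟩).val else 0 with hidx
  have hidx_inj : ∀ x, ∀ u ∈ B x, ∀ v ∈ B x, idx x u = idx x v → u = v := by
    intro x u hu v hv h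
    simp only [hidx, dif_pos hu, dif_pos hv] at h
    have := (B x).equivFin.injective (Fin.ext h)
    exact congrArg Subtype.val this
  have hidx_lt : ∀ x, ∀ u ∈ B x, idx x u < b₀ := by
    intro x u hu
    simp only [hidx, dif_pos hu]
    exact lt_of_lt_of_le (Fin.isLt _) (hBb x)
  set q : Fin s → X → V → ℝ × ℝ := fun i x v => shp ((i.val : ℝ) + 2) (idx x v) with hq
  have hT : ∀ i : Fin s, (1 : ℝ) < (i.val : ℝ) + 2 := by
    intro i
    have : (0 : ℝ) ≤ (i.val : ℝ) := Nat.cast_nonneg _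
    linarith
  have hinj : ∀ i x u v, u ∈ B x → v ∈ B x → u ≠ v → q i x u ≠ q i x v := by
    intro i x u v hu hv huv h
    apply huv
    exact hidx_inj x u hu v hv (shp_inj _ (hT i) (congrArg Prod.fst h))
  have hgen : ∀ i x u v w, u ∈ B x → v ∈ B x → w ∈ B x → u ≠ v → w ≠ u → w ≠ v →
      (q i x u - q i x v).1 * ((q i x w).2 - (q i x u).2) -
        (q i x u - q i x v).2 * ((q i x w).1 - (q i x u).1) ≠ 0 := by
    intro i x u v w hu hv hw huv hwu hwv
    exact shp_gen _ (hT i) (fun h => huv (hidx_inj x u hu v hv h))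
      (fun h => hwu (hidx_inj x w hw u hu h)) (fun h => hwv (hidx_inj x w hw v hv h))
  obtain ⟨c, hc⟩ := exists_good (C := Fin s) B hB b₀ δ L (4 * b₀) hBb hδ q
    (fun x F hF hsupp => kill s b₀ (B x) (idx x) (hidx_inj x) (hidx_lt x) F hF hsupp) hL hslack
    (by rw [Fintype.card_fin, hs]; exact Nat.succ_pos _)
    (by rw [Fintype.card_fin, hs]; exact Nat.le_succ _)
  obtain ⟨p, hpinj, hpgen, hpdir⟩ := exists_pos B q c hc hinj hgen
  refine ⟨p, hpinj, hpgen, (univ : Finset (Fin s × Fin b₀ × Fin b₀)).image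
    (fun a => shp ((a.1.val : ℝ) + 2) a.2.1.val - shp ((a.1.val : ℝ) + 2) a.2.2.val), ?_, ?_⟩
  · refine Finset.card_image_le.trans ?_
    simp
  · intro x u v hu hv
    obtain ⟨t, ht⟩ := hpdir x u v hu hv
    refine ⟨q (c x) x u - q (c x) x v, ?_, t, ht⟩
    rw [mem_image]
    exact ⟨(c x, ⟨idx x u, hidx_lt x u hu⟩, ⟨idx x v, hidx_lt x v hv⟩), mem_univ _, rfl⟩

end Pool.Agent.Lib.MP_04668c_co
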