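import Pool.Agent.Lib.MP_04668c_co.Add

/-!
# Slope number of graphs that are nearly a union of two linear forests
-/

set_option autoImplicit false

namespace Pool.Agent.Lib.MP_04668c_co

open Finset Classical

variable {V : Type} [Fintype V]

/-- The main statement in terms of two rankings. -/
theorem draw_rank (G : SimpleGraph V) (hdeg : ∀ s, (univ.filter (fun u => G.Adj s u)).card ≤ 4)
    (S : Finset V) (a b : V → ℕ)
    (ha : Function.Injective a) (hb : Function.Injective b)
    (hE : ∀ u v, G.Adj u v → u ∉ S → v ∉ S →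
      (b v = b u + 1 ∨ b u = b v + 1) ∨ (a v = a u + 1 ∨ a u = a v + 1))
    (q k : ℕ) (hq : 1 ≤ q) (hk : S.card ≤ k)
    (hQ : ∀ Q : Finset V, Disjoint Q S → q < Q.card → (pairs G Q).card + 6 ≤ 4 * Q.card) :
    Drawable G (4 * q + 4 * k) :=
  (add_vertices G (4 * q) 4 hdeg S (draw_del G S a b ha hb hE q hq hQ)).mono (by omega)

/-- Ranks along a Hamiltonian cycle, starting at `i₀`. -/
theorem cycle_rank {n : ℕ} (i₀ u v : Fin n) (h : (SimpleGraph.cycleGraph n).Adj u v)
    (hu : u ≠ i₀) (hv : v ≠ i₀) :
    (v - i₀).val = (u - i₀).val + 1 ∨ (u - i₀).val = (v - i₀).val + 1 := by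
  have hn : 0 < n := u.pos
  have : NeZero n := ⟨hn.ne'⟩
  rw [SimpleGraph.cycleGraph_adj'] at h
  have key : ∀ x y : Fin n, (x - y).val = 1 → x ≠ i₀ → (x - i₀).val = (y - i₀).val + 1 := by
    intro x y hxy hx
    have h1 : x - i₀ = (y - i₀) + (x - y) := by abel
    have h2 : (x - i₀).val = ((y - i₀).val + 1) % n := by
      rw [h1, Fin.val_add, hxy]
    have h3 : (y - i₀).val < n := (y - i₀).isLt
    rcases Nat.lt_or_ge ((y - i₀).val + 1) n with h4 | h4
    · rw [h2, Nat.mod_eq_of_lt h4]
    · exfalso
      have h5 : (y - i₀).val + 1 = n := by omega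
      rw [h5, Nat.mod_self] at h2
      apply hx
      have h6 : x - i₀ = 0 := Fin.ext h2
      exact sub_eq_zero.mp h6
  rcases h with h | h
  · right
    exact key u v h hu
  · left
    exact key v u h hv

/-- Unions of two Hamiltonian cycles. -/
theorem draw_hamiltonian (G : SimpleGraph V) {n : ℕ} (f g : Fin n ≃ V)
    (hdeg : ∀ s, (univ.filter (fun u => G.Adj s u)).card = 4)
    (hG : ∀ u v, G.Adj u v → (SimpleGraph.cycleGraph n).Adj (f.symm u) (f.symm v) ∨
      (SimpleGraph.cycleGraph n).Adj (g.symm u) (g.symm v))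
    (q : ℕ) (hq : 1 ≤ q)
    (hcut' : ∀ Q : Finset V, q < Q.card → q + Q.card < Fintype.card V →
      ∀ D : Finset (V × V), (∀ p, p ∈ D ↔ p.1 ∈ Q ∧ p.2 ∉ Q ∧ G.Adj p.1 p.2) → 6 ≤ D.card) :
    Drawable G (8 * q + 4) := by
  have hcut : ∀ Q : Finset V, q < Q.card → q < Qᶜ.card →
      6 ≤ ((Q ×ˢ Qᶜ).filter (fun p => G.Adj p.1 p.2)).card := by
    intro Q h1 h2
    refine hcut' Q h1 ?_ _ ?_
    · rw [Finset.card_compl] at h2
      omega
    · intro p
      rw [mem_filter, mem_product, Finset.mem_compl, and_assoc]
  rcases isEmpty_or_nonempty V with hV | ⟨⟨s⟩⟩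
  · refine ⟨fun _ => 0, fun u => (hV.false u).elim, fun u => (hV.false u).elim, ∅, by simp,
      fun u => (hV.false u).elim⟩
  -- the set `S`
  obtain ⟨S, hsS, hSc, hSlarge⟩ : ∃ S : Finset V, s ∈ S ∧ S.card ≤ q + 1 ∧
      (q + 1 ≤ S.card ∨ S = univ) := by
    rcases Nat.lt_or_ge (Fintype.card V) (q + 1) with h | h
    · exact ⟨univ, mem_univ s, by rw [Finset.card_univ]; omega, Or.inr rfl⟩
    · obtain ⟨S, hsub, -, hcard⟩ := Finset.exists_subsuperset_card_eq
        (Finset.subset_univ ({s} : Finset V)) (n := q + 1) (by simp) (by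
          rw [Finset.card_univ]; exact h)
      exact ⟨S, hsub (Finset.mem_singleton_self s), hcard.le, Or.inl hcard.ge⟩
  have hn : 0 < n := (f.symm s).pos
  have : NeZero n := ⟨hn.ne'⟩
  have hinj : ∀ (e : Fin n ≃ V), Function.Injective (fun v => (e.symm v - e.symm s).val) := by
    intro e u v huv
    have h1 : e.symm u - e.symm s = e.symm v - e.symm s := Fin.ext huv
    exact e.symm.injective (sub_left_injective h1)
  have hmain : Drawable G (4 * q + 4 * (q + 1)) := by
    refine draw_rank G (fun t => (hdeg t).le) S (fun v => (g.symm v - g.symm s).val)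
      (fun v => (f.symm v - f.symm s).val) (hinj g) (hinj f) ?_ q (q + 1) hq hSc ?_
    · intro u v hadj hu hv
      have hus : u ≠ s := fun h => hu (h ▸ hsS)
      have hvs : v ≠ s := fun h => hv (h ▸ hsS)
      rcases hG u v hadj with h | h
      · left
        exact cycle_rank _ _ _ h (fun h' => hus (f.symm.injective h'))
          (fun h' => hvs (f.symm.injective h'))
      · right
        exact cycle_rank _ _ _ h (fun h' => hus (g.symm.injective h'))
          (fun h' => hvs (g.symm.injective h'))
    · intro Q hdis hQ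
      have hcompl : q < Qᶜ.card := by
        rcases hSlarge with h | h
        · have : S ⊆ Qᶜ := by
            intro x hx
            rw [Finset.mem_compl]
            exact fun hxQ => (Finset.disjoint_left.mp hdis) hxQ hx
          exact lt_of_lt_of_le (by omega) (Finset.card_le_card this)
        · exfalso
          rw [h] at hdis
          have : Q = ∅ := by
            rw [Finset.eq_empty_iff_forall_notMem]
            exact fun x hx => (Finset.disjoint_left.mp hdis) hx (mem_univ x)
          rw [this] at hQ
          simp at hQ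
      have h6 := hcut Q hQ hcompl
      -- double counting
      have hsum : (pairs G Q).card + ((Q ×ˢ Qᶜ).filter (fun p => G.Adj p.1 p.2)).card =
          4 * Q.card := by
        have h1 : (Q ×ˢ (univ : Finset V)).filter (fun p => G.Adj p.1 p.2) =
            pairs G Q ∪ (Q ×ˢ Qᶜ).filter (fun p => G.Adj p.1 p.2) := by
          ext p
          simp only [mem_filter, mem_product, mem_univ, and_true, mem_union, mem_pairs,
            Finset.mem_compl]
          tauto
        have h2 : Disjoint (pairs G Q) ((Q ×ˢ Qᶜ).filter (fun p => G.Adj p.1 p.2)) := by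
          rw [Finset.disjoint_left]
          intro p hp hp'
          rw [mem_pairs] at hp
          rw [mem_filter, mem_product, Finset.mem_compl] at hp'
          exact hp'.1.2 hp.2.1
        rw [← Finset.card_union_of_disjoint h2, ← h1]
        have h3 : ((Q ×ˢ (univ : Finset V)).filter (fun p => G.Adj p.1 p.2)).card =
            ∑ u ∈ Q, (univ.filter (fun v => G.Adj u v)).card := by
          rw [Finset.card_filter, Finset.sum_product]
          refine Finset.sum_congr rfl (fun u _ => ?_)
          rw [Finset.card_filter]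
        rw [h3, Finset.sum_congr rfl (fun u _ => hdeg u), Finset.sum_const, smul_eq_mul, mul_comm]
      omega
  exact hmain.mono (by omega)

end Pool.Agent.Lib.MP_04668c_co
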